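import Pool.Agent.Helper601.Mertens

/-!
# Sums over primes
-/

set_option autoImplicit false

open Finset

namespace Pool.Agent.U585.RM

open Pool.Agent.Helper601.Mertens (PP theta_le mertens_log mertens_inv)

lemma PP_mono {M N : ℕ} (h : M ≤ N) : PP M ⊆ PP N :=
  filter_subset_filter _ (Icc_subset_Icc le_rfl h)

lemma mem_PP {N p : ℕ} : p ∈ PP N ↔ p.Prime ∧ p ≤ N := by
  rw [mem_filter, mem_Icc]
  constructor
  · rintro ⟨⟨_, h⟩, h2⟩; exact ⟨h2, h⟩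
  · rintro ⟨h, h2⟩; exact ⟨⟨h.one_lt.le, h2⟩, h⟩

lemma log_two_ge : (2 : ℝ) / 3 ≤ Real.log 2 := by
  have := Real.log_two_gt_d9; linarith

lemma block_card (k : ℕ) (hk : 1 ≤ k) :
    (((PP (2 ^ (k + 1)) \ PP (2 ^ k)).card : ℕ) : ℝ) ≤ 6 * 2 ^ k / k := by
  have hk0 : (0 : ℝ) < k := by exact_mod_cast hk
  have h1 : ((PP (2 ^ (k + 1)) \ PP (2 ^ k)).card : ℝ) * (k * Real.log 2) ≤
      ∑ p ∈ PP (2 ^ (k + 1)) \ PP (2 ^ k), Real.log p := by
    rw [← nsmul_eq_mul]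
    refine card_nsmul_le_sum _ _ _ fun p hp => ?_
    rw [mem_sdiff, mem_PP, mem_PP] at hp
    have h2 : 2 ^ k ≤ p := by
      by_contra h
      exact hp.2 ⟨hp.1.1, (not_le.1 h).le⟩
    rw [← Real.log_pow]
    exact Real.log_le_log (by positivity) (by exact_mod_cast h2)
  have h2 : ∑ p ∈ PP (2 ^ (k + 1)) \ PP (2 ^ k), Real.log p ≤ 2 * ((2 ^ (k + 1) : ℕ) : ℝ) := by
    refine le_trans (sum_le_sum_of_subset_of_nonneg sdiff_subset fun p hp _ => ?_)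
      (theta_le _)
    rw [mem_PP] at hp
    exact Real.log_nonneg (by exact_mod_cast hp.1.one_lt.le)
  rw [le_div_iff₀ hk0]
  have h3 : ((PP (2 ^ (k + 1)) \ PP (2 ^ k)).card : ℝ) * (k * Real.log 2) ≤ 4 * 2 ^ k := by
    refine (h1.trans h2).trans (le_of_eq ?_)
    push_cast
    ring
  have h4 : ((PP (2 ^ (k + 1)) \ PP (2 ^ k)).card : ℝ) * k * (2 / 3) ≤ 4 * 2 ^ k := by
    refine le_trans ?_ h3
    rw [← mul_assoc]
    exact mul_le_mul_of_nonneg_left log_two_ge (by positivity)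
  linarith

lemma pi_pow (K : ℕ) (hK : 2 ≤ K) : ((PP (2 ^ K)).card : ℝ) ≤ 18 * 2 ^ K / K := by
  induction K, hK using Nat.le_induction with
  | base =>
    have : (PP (2 ^ 2)).card ≤ 4 := by
      refine (card_filter_le _ _).trans ?_
      simp
    have h : ((PP (2 ^ 2)).card : ℝ) ≤ 4 := by exact_mod_cast this
    norm_num at h ⊢
    linarith
  | succ K hK ih =>
    have hK0 : (2 : ℝ) ≤ K := by exact_mod_cast hK
    have h1 : (PP (2 ^ (K + 1))).card ≤ (PP (2 ^ K)).card + (PP (2 ^ (K + 1)) \ PP (2 ^ K)).card := by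
      have := card_le_card_sdiff_add_card (s := PP (2 ^ (K + 1))) (t := PP (2 ^ K))
      omega
    have h2 : ((PP (2 ^ (K + 1))).card : ℝ) ≤ (PP (2 ^ K)).card +
        (PP (2 ^ (K + 1)) \ PP (2 ^ K)).card := by exact_mod_cast h1
    have h3 := block_card K (by omega)
    have h4 : 18 * (2 : ℝ) ^ K / K + 6 * 2 ^ K / K = 24 * 2 ^ K / K := by ring
    have h5 : 24 * (2 : ℝ) ^ K / K ≤ 18 * 2 ^ (K + 1) / ((K + 1 : ℕ) : ℝ) := by
      push_cast
      rw [div_le_div_iff₀ (by linarith) (by linarith), pow_succ]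
      have : (0 : ℝ) < 2 ^ K := by positivity
      nlinarith
    linarith

/-- the double sum over primes with weight `1 / max (p, q)²` is bounded -/
theorem pair_sum : ∃ C : ℝ, 0 ≤ C ∧ ∀ S : Finset ℕ, (∀ p ∈ S, p.Prime) →
    ∑ p ∈ S, ∑ q ∈ S, 1 / (max (p : ℝ) q) ^ 2 ≤ C := by
  have hs : Summable (fun n : ℕ => 1 / (n : ℝ) ^ 2) := Real.summable_one_div_nat_pow.2 (by norm_num)
  set T : ℕ → ℝ := fun K => ∑ p ∈ PP (2 ^ K), ∑ q ∈ PP (2 ^ K), 1 / (max (p : ℝ) q) ^ 2 with hT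
  have hstep : ∀ K, 2 ≤ K → T (K + 1) ≤ T K + 1296 * (1 / ((K + 1 : ℕ) : ℝ) ^ 2) := by
    intro K hK
    have e1 : T (K + 1) = ∑ z ∈ PP (2 ^ (K + 1)) ×ˢ PP (2 ^ (K + 1)), 1 / (max (z.1 : ℝ) z.2) ^ 2 :=
      (sum_product _ _ (fun z : ℕ × ℕ => 1 / (max (z.1 : ℝ) z.2) ^ 2)).symm
    have e2 : T K = ∑ z ∈ PP (2 ^ K) ×ˢ PP (2 ^ K), 1 / (max (z.1 : ℝ) z.2) ^ 2 :=
      (sum_product _ _ (fun z : ℕ × ℕ => 1 / (max (z.1 : ℝ) z.2) ^ 2)).symm
    have hsub : PP (2 ^ K) ×ˢ PP (2 ^ K) ⊆ PP (2 ^ (K + 1)) ×ˢ PP (2 ^ (K + 1)) :=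
      product_subset_product (PP_mono (Nat.pow_le_pow_right (by norm_num) (by omega)))
        (PP_mono (Nat.pow_le_pow_right (by norm_num) (by omega)))
    rw [e1, e2, ← sum_sdiff hsub, add_comm]
    refine add_le_add le_rfl ?_
    have h1 : ∀ z ∈ (PP (2 ^ (K + 1)) ×ˢ PP (2 ^ (K + 1))) \ (PP (2 ^ K) ×ˢ PP (2 ^ K)),
        1 / (max (z.1 : ℝ) z.2) ^ 2 ≤ 1 / (2 ^ K) ^ 2 := by
      intro z hz
      rw [mem_sdiff, mem_product, mem_product, mem_PP, mem_PP, mem_PP, mem_PP] at hz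
      have h2 : (2 : ℝ) ^ K ≤ max (z.1 : ℝ) z.2 := by
        by_contra h
        rw [not_le, max_lt_iff] at h
        have h3 : z.1 ≤ 2 ^ K := by exact_mod_cast h.1.le
        have h4 : z.2 ≤ 2 ^ K := by exact_mod_cast h.2.le
        exact hz.2 ⟨⟨hz.1.1.1, h3⟩, ⟨hz.1.2.1, h4⟩⟩
      exact one_div_le_one_div_of_le (by positivity) (pow_le_pow_left₀ (by positivity) h2 2)
    refine (sum_le_card_nsmul _ _ _ h1).trans ?_
    rw [nsmul_eq_mul]
    have h5 : (((PP (2 ^ (K + 1)) ×ˢ PP (2 ^ (K + 1))) \ (PP (2 ^ K) ×ˢ PP (2 ^ K))).card : ℝ) ≤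
        ((PP (2 ^ (K + 1))).card : ℝ) ^ 2 := by
      have := card_le_card (sdiff_subset (s := PP (2 ^ (K + 1)) ×ˢ PP (2 ^ (K + 1)))
        (t := PP (2 ^ K) ×ˢ PP (2 ^ K)))
      rw [card_product] at this
      rw [sq]
      exact_mod_cast this
    have h6 := pi_pow (K + 1) (by omega)
    have h7 : ((PP (2 ^ (K + 1))).card : ℝ) ^ 2 ≤ (18 * 2 ^ (K + 1) / ((K + 1 : ℕ) : ℝ)) ^ 2 :=
      pow_le_pow_left₀ (by positivity) h6 2
    calc _ ≤ (18 * 2 ^ (K + 1) / ((K + 1 : ℕ) : ℝ)) ^ 2 * (1 / (2 ^ K) ^ 2) :=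
          mul_le_mul_of_nonneg_right (h5.trans h7) (by positivity)
      _ = 1296 * (1 / ((K + 1 : ℕ) : ℝ) ^ 2) := by
          have : (2 : ℝ) ^ K ≠ 0 := by positivity
          have h8 : ((K + 1 : ℕ) : ℝ) ≠ 0 := by positivity
          field_simp
          ring
  have hT0 : 0 ≤ T 2 := by
    rw [hT]; exact sum_nonneg fun p _ => sum_nonneg fun q _ => by positivity
  have htot : ∀ K, 2 ≤ K → T K ≤ T 2 + 1296 * ∑ n ∈ range (K + 1), 1 / (n : ℝ) ^ 2 := by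
    intro K hK
    induction K, hK using Nat.le_induction with
    | base =>
      have : 0 ≤ 1296 * ∑ n ∈ range (2 + 1), 1 / (n : ℝ) ^ 2 :=
        mul_nonneg (by norm_num) (sum_nonneg fun n _ => by positivity)
      linarith
    | succ K hK ih =>
      rw [sum_range_succ]
      have := hstep K hK
      linarith
  refine ⟨T 2 + 1296 * ∑' n : ℕ, 1 / (n : ℝ) ^ 2, add_nonneg hT0 (mul_nonneg (by norm_num)
    (tsum_nonneg fun n => by positivity)), fun S hS => ?_⟩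
  -- all elements of `S` are at most `2 ^ K`
  set K := S.sup id + 2 with hK
  have hsub : S ⊆ PP (2 ^ K) := by
    intro p hp
    rw [mem_PP]
    refine ⟨hS p hp, ?_⟩
    have h1 : p ≤ S.sup id := le_sup (f := id) hp
    have h2 : K < 2 ^ K := Nat.lt_two_pow_self
    omega
  have h1 : ∑ p ∈ S, ∑ q ∈ S, 1 / (max (p : ℝ) q) ^ 2 ≤ T K := by
    rw [hT]
    calc ∑ p ∈ S, ∑ q ∈ S, 1 / (max (p : ℝ) q) ^ 2
        ≤ ∑ p ∈ S, ∑ q ∈ PP (2 ^ K), 1 / (max (p : ℝ) q) ^ 2 :=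
          sum_le_sum fun p _ => sum_le_sum_of_subset_of_nonneg hsub fun q _ _ => by positivity
      _ ≤ _ := sum_le_sum_of_subset_of_nonneg hsub fun p _ _ =>
          sum_nonneg fun q _ => by positivity
  refine (h1.trans (htot K (by omega))).trans (add_le_add le_rfl ?_)
  exact mul_le_mul_of_nonneg_left (hs.sum_le_tsum _ fun n _ => by positivity) (by norm_num)

lemma sum_three_half : ∃ C : ℝ, 0 ≤ C ∧ ∀ S : Finset ℕ, ∑ p ∈ S, (p : ℝ) ^ (-(3 / 2) : ℝ) ≤ C := by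
  have hs : Summable (fun n : ℕ => (n : ℝ) ^ (-(3 / 2) : ℝ)) :=
    Real.summable_nat_rpow.2 (by norm_num)
  exact ⟨∑' n : ℕ, (n : ℝ) ^ (-(3 / 2) : ℝ), tsum_nonneg fun n => by positivity,
    fun S => hs.sum_le_tsum _ fun n _ => by positivity⟩

end Pool.Agent.U585.RM
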