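import Pool.Agent.U585.RM.Mom

/-!
# The block estimate
-/

set_option autoImplicit false
set_option linter.unusedSectionVars false

open MeasureTheory Filter Topology ProbabilityTheory

namespace Pool.Agent.U585.RM

open Pool.Agent.Helper601.Mertens (PP mertens_log mertens_inv)

variable {Ω : Type} [mΩ : MeasurableSpace Ω] {P : Measure Ω} [IsProbabilityMeasure P]
  {f : ℕ → Ω → ℂ}

/-- Euler product and Dirichlet polynomial -/
lemma prod_DP (S : Finset ℕ) (g : ℕ → ℂ) (s t : ℝ) :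
    ∏ p ∈ S, (1 + g p * Complex.exp (-((s + t * Complex.I) * (Real.log p : ℝ)))) =
      DP S.powerset (fun T => ∏ p ∈ T, g p) (fun T => ∑ p ∈ T, Real.log p) s t := by
  rw [Finset.prod_one_add]
  unfold DP
  refine Finset.sum_congr rfl fun T _ => ?_
  rw [Finset.prod_mul_distrib, ← Complex.exp_sum]
  congr 2
  rw [Finset.sum_neg_distrib, ← Finset.mul_sum]
  push_cast
  rfl

/-- the decay factor -/
noncomputable def rr (d : ℝ) (p : ℕ) : ℝ := Real.exp (-(d * Real.log p))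

lemma rr_pos (d : ℝ) (p : ℕ) : 0 < rr d p := Real.exp_pos _

lemma rr_le {d : ℝ} (hd : 0 ≤ d) (p : ℕ) : rr d p ≤ 1 := by
  unfold rr
  rw [Real.exp_le_one_iff]
  have := Real.log_natCast_nonneg p
  have : 0 ≤ d * Real.log p := by positivity
  linarith

lemma one_sub_rr (d : ℝ) (p : ℕ) : 1 - rr d p ≤ d * Real.log p := by
  unfold rr
  have := Real.add_one_le_exp (-(d * Real.log p))
  linarith

lemma v_rr (d : ℝ) (p : ℕ) (t : ℝ) : v p t * (rr d p : ℂ) =
    Complex.exp (-((((1 / 2 + d : ℝ) : ℂ) + t * Complex.I) * (Real.log p : ℝ))) := by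
  unfold v rr
  rw [Complex.ofReal_exp, ← Complex.exp_add]
  congr 1
  push_cast
  ring

/-- `p ^ (-1/2)` -/
noncomputable def kp (p : ℕ) : ℝ := Real.exp (-(Real.log p / 2))

lemma kp_pos (p : ℕ) : 0 < kp p := Real.exp_pos _

lemma kp_sq {p : ℕ} (hp : 1 ≤ p) : kp p ^ 2 = 1 / p := by
  rw [kp, ← v_norm p 0, v_norm_sq hp]

lemma kp_cube {p : ℕ} (hp : 1 ≤ p) : kp p ^ 3 = (p : ℝ) ^ (-(3 / 2) : ℝ) := by
  have hp0 : (0 : ℝ) < p := by exact_mod_cast hp
  rw [kp, ← Real.exp_nat_mul, Real.rpow_def_of_pos hp0]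
  congr 1
  push_cast
  ring

lemma kp_le {p : ℕ} (hp : p.Prime) : kp p ≤ 3 / 4 := by
  have h1 := kp_sq hp.one_lt.le
  have h2 : (2 : ℝ) ≤ p := by exact_mod_cast hp.two_le
  have h3 : kp p ^ 2 ≤ 1 / 2 := by
    rw [h1]; exact one_div_le_one_div_of_le (by norm_num) h2
  have h4 := kp_pos p
  nlinarith

/-- the random variable of one factor -/
noncomputable def av (f : ℕ → Ω → ℂ) (p : ℕ) (t : ℝ) (ω : Ω) : ℂ := f p ω * v p t

lemma av_fac (h : Model P f) {p : ℕ} (hp : p.Prime) (t : ℝ) {d : ℝ} (hd : 0 ≤ d) :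
    Fac P (av f p t) (kp p) (rr d p) where
  meas := (h.meas p).mul_const _
  bdd ω := by
    unfold av
    rw [norm_mul, v_norm]
    exact mul_le_of_le_one_left (kp_pos p).le (h.bdd p ω)
  k0 := (kp_pos p).le
  k1 := kp_le hp
  mean := by
    unfold av
    rw [integral_mul_const, h.mean, zero_mul]
  r0 := (rr_pos d p).le
  r1 := rr_le hd p

lemma vs_av (h : Model P f) {p : ℕ} (hp : p.Prime) (t : ℝ) : vs P (av f p t) = sg P f p / p := by
  unfold vs av sg
  simp_rw [norm_mul, mul_pow, v_norm_sq hp.one_lt.le]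
  rw [integral_mul_const]
  ring

lemma nm_av (h : Model P f) {p : ℕ} (hp : p.Prime) (t : ℝ) : 1 + vs P (av f p t) = nm P f p := by
  rw [vs_av h hp]; rfl

/-- `E (f p)² p ^ (-1 - 2 i t)` -/
noncomputable def bb (P : Measure Ω) (f : ℕ → Ω → ℂ) (p : ℕ) (t : ℝ) : ℂ := vb P (av f p t)

lemma bb_eq (p : ℕ) (t : ℝ) : bb P f p t = (∫ ω, f p ω ^ 2 ∂P) *
    Complex.exp (-(((1 / 2 : ℝ) + t * Complex.I) * ((2 * Real.log p : ℝ) : ℂ))) := by
  unfold bb vb av
  simp_rw [mul_pow]
  rw [integral_mul_const]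
  congr 1
  unfold v
  rw [← Complex.exp_nat_mul]
  congr 1
  push_cast
  ring

/-- the centred logarithm as a function of the value at `p` -/
noncomputable def Bf (P : Measure Ω) (f : ℕ → Ω → ℂ) (d t : ℝ) (p : ℕ) (z : ℂ) : ℝ :=
  Real.log (‖1 + z * v p t * (rr d p : ℂ)‖ ^ 2) - te P (av f p t) (rr d p)

/-- the density as a function of the value at `p` -/
noncomputable def Af (P : Measure Ω) (f : ℕ → Ω → ℂ) (t : ℝ) (p : ℕ) (z : ℂ) : ℝ :=
  ‖1 + z * v p t‖ ^ 2 / nm P f p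

/-- the variance of the centred logarithm -/
noncomputable def Vf (P : Measure Ω) (f : ℕ → Ω → ℂ) (d t : ℝ) (p : ℕ) : ℝ :=
  ∫ ω, tz P (av f p t) ω * (tx (av f p t) (rr d p) ω - te P (av f p t) (rr d p)) ^ 2 ∂P

lemma Af_tz (h : Model P f) {p : ℕ} (hp : p.Prime) (t : ℝ) (ω : Ω) :
    Af P f t p (f p ω) = tz P (av f p t) ω := by
  unfold Af tz
  rw [nm_av h hp]; rfl

lemma Bf_tx (d t : ℝ) (p : ℕ) (ω : Ω) :
    Bf P f d t p (f p ω) = tx (av f p t) (rr d p) ω - te P (av f p t) (rr d p) := rfl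

/-- the same for a constant function, to get pointwise bounds -/
lemma norm_zv {p : ℕ} (hp : p.Prime) (t : ℝ) {z : ℂ} (hz : ‖z‖ ≤ 1) : ‖z * v p t‖ ≤ 3 / 4 := by
  rw [norm_mul, v_norm]
  exact (mul_le_of_le_one_left (kp_pos p).le hz).trans (kp_le hp)

lemma facs (h : Model P f) (S : Finset ℕ) (hS : ∀ p ∈ S, p.Prime) (t : ℝ) {d : ℝ} (hd : 0 ≤ d) :
    Facs P f (Af P f t) (Bf P f d t) (Vf P f d t) (fun p => 456976 * kp p ^ 3) S where
  mA p _ := by
    unfold Af
    exact ((measurable_const.add (measurable_id.mul_const _)).norm.pow_const 2).div_const _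
  mB p _ := by
    unfold Bf
    exact (Real.measurable_log.comp ((measurable_const.add
      ((measurable_id.mul_const _).mul_const _)).norm.pow_const 2)).sub_const _
  A0 p _ z := div_nonneg (by positivity) (zero_le_one.trans (nm_ge p))
  A4 p hp z hz := fac_le (g := fun _ => z) (fun _ => hz) p t
  B20 p hp z hz := by
    have hF := av_fac h (hS p hp) t hd
    obtain ⟨he, -⟩ := te_bounds hF
    unfold Bf
    refine (abs_sub _ _).trans ?_
    have h1 := (xi_abs (norm_zv (hS p hp) t hz) hF.r0 hF.r1).2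
    have h3 := norm_zv (hS p hp) t hz
    have h2 : 20 * kp p ^ 2 ≤ 20 * (3 / 4) ^ 2 := by
      have := hF.k0
      have := hF.k1
      gcongr
    linarith
  m0 p hp := by
    simp_rw [Af_tz h (hS p hp)]
    exact int_tz (av_fac h (hS p hp) t hd)
  m1 p hp := by
    simp_rw [Af_tz h (hS p hp), Bf_tx]
    exact te_zero (av_fac h (hS p hp) t hd)
  m2 p hp := by
    simp_rw [Af_tz h (hS p hp), Bf_tx]
    rfl
  m4 p hp := by
    simp_rw [Af_tz h (hS p hp), Bf_tx]
    exact tm_bound (av_fac h (hS p hp) t hd)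

lemma ZA_Zg (S : Finset ℕ) (g : ℕ → ℂ) (t : ℝ) : ZA (Af P f t) S g = Zg P f S g t := rfl

/-- the lower bound of `Wg` by the value to the right of the line -/
lemma Wg_ge (h : Model P f) (S : Finset ℕ) (hS : ∀ p ∈ S, p.Prime) {g : ℕ → ℂ}
    (hg : ∀ p, ‖g p‖ ≤ 1) {d T t : ℝ} (hd : 0 < d) (hd1 : d ≤ 1) (ht : |t| ≤ T) :
    Real.exp (∑ p ∈ S, Real.log (‖1 + g p * v p t * (rr d p : ℂ)‖ ^ 2)) ≤
      (5 + 4 * T ^ 2) / d * (Real.exp (∑ p ∈ S, sg P f p / p) * Wg P f S g) := by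
  have h1 : Real.exp (∑ p ∈ S, Real.log (‖1 + g p * v p t * (rr d p : ℂ)‖ ^ 2)) =
      ‖DP S.powerset (fun T => ∏ p ∈ T, g p) (fun T => ∑ p ∈ T, Real.log p) (1 / 2 + d) t‖ ^ 2 := by
    rw [← prod_DP, norm_prod, ← Finset.prod_pow, Real.exp_sum]
    refine Finset.prod_congr rfl fun p hp => ?_
    have h2 : ‖g p * v p t * (rr d p : ℂ)‖ ≤ 3 / 4 := by
      rw [norm_mul, Complex.norm_real, Real.norm_of_nonneg (rr_pos d p).le]
      exact (mul_le_of_le_one_right (norm_nonneg _) (rr_le hd.le p)).trans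
        (norm_zv (hS p hp) t (hg p))
    have h3 : 0 < ‖1 + g p * v p t * (rr d p : ℂ)‖ := by
      have := norm_sub_norm_le (1 : ℂ) (-(g p * v p t * (rr d p : ℂ)))
      rw [norm_neg, norm_one, sub_neg_eq_add] at this
      linarith
    rw [Real.exp_log (by positivity), mul_assoc, v_rr]
  rw [h1]
  refine (DP_shift S.powerset _ _ (fun T _ => Finset.sum_nonneg fun p _ =>
    Real.log_natCast_nonneg p) hd hd1 ht).trans ?_
  have hd' : 0 ≤ (5 + 4 * T ^ 2) / d := by positivity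
  refine mul_le_mul_of_nonneg_left ?_ hd'
  have h4 : ∀ s : ℝ, ‖DP S.powerset (fun T => ∏ p ∈ T, g p) (fun T => ∑ p ∈ T, Real.log p)
      (1 / 2) s‖ ^ 2 = (∏ p ∈ S, nm P f p) * Zg P f S g s := by
    intro s
    rw [← prod_DP, norm_prod, ← Finset.prod_pow]
    unfold Zg
    rw [← Finset.prod_mul_distrib]
    refine Finset.prod_congr rfl fun p _ => ?_
    have : nm P f p ≠ 0 := (zero_lt_one.trans_le (nm_ge p)).ne'
    rw [mul_div_cancel₀ _ this]
    rfl
  simp_rw [h4]
  rw [integral_const_mul]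
  refine mul_le_mul_of_nonneg_right ?_ (Wg_nonneg S g)
  rw [Real.exp_sum]
  refine Finset.prod_le_prod (fun p _ => zero_le_one.trans (nm_ge p)) fun p _ => ?_
  unfold nm
  have := Real.add_one_le_exp (sg P f p / p)
  linarith

set_option maxHeartbeats 2000000 in
/-- **the block estimate** -/
theorem block (h : Model P f) {D : ℝ} (hD : ∀ S : Finset ℕ, (∀ p ∈ S, p.Prime) →
      ∑ p ∈ S, (1 - sg P f p) / p ≤ D) (a : ℕ) (K R T : ℝ) :
    ∀ᶠ b : ℕ in atTop, ∀ t : ℝ, |t| ≤ T → ‖∑ p ∈ PP b \ PP a, bb P f p t‖ ≤ R →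
      ∀ G : Set Ω, MeasurableSet G →
        (∀ ω ∈ G, Wg P f (PP b \ PP a) (fun p => f p ω) ≤ K) →
      ∫ ω, G.indicator (fun _ => (1 : ℝ)) ω * Zg P f (PP b \ PP a) (fun p => f p ω) t ∂P ≤
        1 - 1 / 576 := by
  obtain ⟨C1, hC1⟩ := mertens_inv
  obtain ⟨C2, hC2⟩ := mertens_log
  obtain ⟨C3, hC30, hC3⟩ := sum_three_half
  have hC20 : 0 ≤ C2 := (abs_nonneg _).trans (hC2 1 le_rfl)
  set Aa : ℝ := ∑ p ∈ PP a, (1 : ℝ) / p with hAa
  set c1 : ℝ := C1 + Aa + D with hc1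
  set c2 : ℝ := 2 * c1 + 2 * R + 8 * (1 + C2) + 700 * C3 with hc2
  set c3 : ℝ := c1 + R + 3 * (1 + C2) + 37 * C3 with hc3
  set q : ℝ := c3 + Real.log ((5 + 4 * T ^ 2) * (|K| + 1)) with hq
  set V0 : ℝ := (24 * (|q| + 1)) ^ 2 + 456976 * C3 + 1 with hV0
  have hll : Tendsto (fun b : ℕ => Real.log (Real.log b)) atTop atTop :=
    Real.tendsto_log_atTop.comp (Real.tendsto_log_atTop.comp tendsto_natCast_atTop_atTop)
  filter_upwards [hll.eventually_ge_atTop ((V0 + c2) / 2), eventually_ge_atTop 3,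
    eventually_ge_atTop a] with b hb hb3 hba
  intro t ht hbb G hG hGW
  set S := PP b \ PP a with hS
  have hSp : ∀ p ∈ S, p.Prime := fun p hp => (mem_PP.1 (Finset.mem_sdiff.1 hp).1).1
  have hb3' : (3 : ℝ) ≤ b := by exact_mod_cast hb3
  have hlogb : 1 ≤ Real.log b := by
    have h1 : Real.log 3 ≤ Real.log b := Real.log_le_log (by norm_num) hb3'
    have h2 : 1 ≤ Real.log 3 := by
      rw [Real.le_log_iff_exp_le (by norm_num)]
      have := Real.exp_one_lt_d9
      linarith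
    linarith
  set d : ℝ := 1 / Real.log b with hd
  have hd0 : 0 < d := by rw [hd]; positivity
  have hd1 : d ≤ 1 := by rw [hd]; exact (div_le_one (by linarith)).2 hlogb
  set x : ℝ := Real.log (Real.log b) with hx
  -- sums
  have sR : ∑ p ∈ S, (1 - rr d p) * kp p ^ 2 ≤ 1 + C2 := by
    calc ∑ p ∈ S, (1 - rr d p) * kp p ^ 2 ≤ ∑ p ∈ S, d * (Real.log p / p) := by
          refine Finset.sum_le_sum fun p hp => ?_
          have hp1 := (hSp p hp).one_lt.le
          rw [kp_sq hp1]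
          calc (1 - rr d p) * (1 / p) ≤ (d * Real.log p) * (1 / p) :=
                mul_le_mul_of_nonneg_right (one_sub_rr d p) (by positivity)
            _ = _ := by ring
      _ ≤ ∑ p ∈ PP b, d * (Real.log p / p) := by
          refine Finset.sum_le_sum_of_subset_of_nonneg Finset.sdiff_subset fun p _ _ => ?_
          have := Real.log_natCast_nonneg p
          positivity
      _ = d * ∑ p ∈ PP b, Real.log p / p := by rw [Finset.mul_sum]
      _ ≤ d * (Real.log b + C2) := by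
          have := (abs_le.1 (hC2 b (by omega))).2
          exact mul_le_mul_of_nonneg_left (by linarith) hd0.le
      _ = 1 + d * C2 := by
          rw [hd]
          have : Real.log b ≠ 0 := by positivity
          field_simp
      _ ≤ 1 + 1 * C2 := by gcongr
      _ = _ := by ring
  have sK : ∑ p ∈ S, kp p ^ 3 ≤ C3 := by
    refine le_trans (le_of_eq ?_) (hC3 S)
    exact Finset.sum_congr rfl fun p hp => kp_cube (hSp p hp).one_lt.le
  have sS : x - c1 ≤ ∑ p ∈ S, sg P f p / p := by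
    have h1 : ∑ p ∈ S, sg P f p / p = (∑ p ∈ S, (1 : ℝ) / p) - ∑ p ∈ S, (1 - sg P f p) / p := by
      rw [← Finset.sum_sub_distrib]
      refine Finset.sum_congr rfl fun p _ => ?_
      ring
    have h2 : ∑ p ∈ S, (1 : ℝ) / p = (∑ p ∈ PP b, (1 : ℝ) / p) - Aa := by
      rw [hAa, hS, ← Finset.sum_sdiff (PP_mono hba)]
      ring
    have h3 := (abs_le.1 (hC1 b hb3)).1
    have h4 := hD S hSp
    rw [h1, h2]
    linarith
  have sB : -R ≤ ∑ p ∈ S, (vb P (av f p t)).re := by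
    have h1 : (∑ p ∈ S, bb P f p t).re = ∑ p ∈ S, (vb P (av f p t)).re := by
      rw [Complex.re_sum]; rfl
    rw [← h1]
    have h2 := (abs_le.1 (Complex.abs_re_le_norm (∑ p ∈ S, bb P f p t))).1
    linarith
  have sE : ∑ p ∈ S, te P (av f p t) (rr d p) ≥
      2 * (∑ p ∈ S, sg P f p / p) - R - 3 * (1 + C2) - 37 * C3 := by
    have h1 : ∑ p ∈ S, (2 * (sg P f p / p) + (vb P (av f p t)).re -
        3 * ((1 - rr d p) * kp p ^ 2) - 37 * kp p ^ 3) ≤ ∑ p ∈ S, te P (av f p t) (rr d p) := by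
      refine Finset.sum_le_sum fun p hp => ?_
      have := (te_bounds (av_fac h (hSp p hp) t hd0.le)).2
      rw [vs_av h (hSp p hp)] at this
      linarith
    rw [Finset.sum_sub_distrib, Finset.sum_sub_distrib, Finset.sum_add_distrib,
      ← Finset.mul_sum, ← Finset.mul_sum, ← Finset.mul_sum] at h1
    linarith
  have sV : V0 ≤ ∑ p ∈ S, Vf P f d t p := by
    have h1 : ∑ p ∈ S, (2 * (sg P f p / p + (vb P (av f p t)).re) -
        8 * ((1 - rr d p) * kp p ^ 2) - 700 * kp p ^ 3) ≤ ∑ p ∈ S, Vf P f d t p := by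
      refine Finset.sum_le_sum fun p hp => ?_
      have := tv_bound (av_fac h (hSp p hp) t hd0.le)
      rw [vs_av h (hSp p hp)] at this
      unfold Vf
      linarith
    rw [Finset.sum_sub_distrib, Finset.sum_sub_distrib, ← Finset.mul_sum, ← Finset.mul_sum,
      ← Finset.mul_sum, Finset.sum_add_distrib] at h1
    have h2 : (V0 + c2) / 2 ≤ x := hb
    linarith
  have sM : ∑ p ∈ S, 456976 * kp p ^ 3 ≤ 456976 * C3 := by
    rw [← Finset.mul_sum]; linarith
  have hV00 : 0 < V0 := by rw [hV0]; positivity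
  set V := ∑ p ∈ S, Vf P f d t p with hV
  have hVpos : 0 < V := lt_of_lt_of_le hV00 sV
  obtain ⟨n0, n1, n2, n4⟩ := moments h S (facs h S hSp t hd0.le)
  have hint := (facs h S hSp t hd0.le).intk h
  have hMV : ∑ p ∈ S, 456976 * kp p ^ 3 ≤ V ^ 2 := by
    have h1 : 1 ≤ V0 := by
      rw [hV0]
      have : 0 ≤ (24 * (|q| + 1)) ^ 2 := by positivity
      linarith
    have h2 : 456976 * C3 ≤ V0 := by
      rw [hV0]
      have : 0 ≤ (24 * (|q| + 1)) ^ 2 := by positivity
      linarith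
    nlinarith
  refine anti (P := P) (Z := fun ω => Zg P f S (fun p => f p ω) t)
    (Y := fun ω => YB (Bf P f d t) S (fun p => f p ω)) (V := V)
    (M := ∑ p ∈ S, 456976 * kp p ^ 3) (fun ω => Zg_nonneg S _ t) hG hVpos hMV
    (fun k => hint k) n0 n1 n2 n4 fun ω hω => ?_
  by_contra hcon
  rw [not_lt] at hcon
  have hW := hGW ω hω
  have hg : ∀ p, ‖(fun p => f p ω) p‖ ≤ 1 := fun p => h.bdd p ω
  have hge := Wg_ge h S hSp hg hd0 hd1 ht
  -- the sum of the logarithms
  have hL : ∑ p ∈ S, Real.log (‖1 + f p ω * v p t * (rr d p : ℂ)‖ ^ 2) =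
      YB (Bf P f d t) S (fun p => f p ω) + ∑ p ∈ S, te P (av f p t) (rr d p) := by
    unfold YB Bf
    rw [Finset.sum_sub_distrib]
    ring
  rw [hL] at hge
  have hsq : |q| + 1 ≤ Real.sqrt V / 24 := by
    rw [le_div_iff₀ (by norm_num), mul_comm]
    refine Real.le_sqrt_of_sq_le ?_
    refine le_trans ?_ sV
    rw [hV0]
    have : 0 ≤ 456976 * C3 := by positivity
    linarith
  set ss := ∑ p ∈ S, sg P f p / p with hss
  set W := Wg P f S (fun p => f p ω) with hWdef
  have hW0 : 0 ≤ W := Wg_nonneg S _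
  have e1 : |q| + 1 + (2 * ss - R - 3 * (1 + C2) - 37 * C3) ≤
      YB (Bf P f d t) S (fun p => f p ω) + ∑ p ∈ S, te P (av f p t) (rr d p) := by
    linarith
  have e2 := (Real.exp_le_exp.2 e1).trans hge
  have e3 : (5 + 4 * T ^ 2) / d * (Real.exp ss * W) = (5 + 4 * T ^ 2) * W * Real.exp (x + ss) := by
    have : 1 / d = Real.exp x := by
      rw [hx, Real.exp_log (by linarith), hd, one_div_one_div]
    rw [Real.exp_add, ← this]
    ring
  rw [e3] at e2
  have e4 : Real.exp (q + 1) ≤ (5 + 4 * T ^ 2) * W * Real.exp c3 := by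
    have h5 : |q| + 1 + (2 * ss - R - 3 * (1 + C2) - 37 * C3) ≥ (q + 1 - c3) + (x + ss) := by
      have := le_abs_self q
      linarith
    have h6 := (Real.exp_le_exp.2 h5).trans e2
    rw [Real.exp_add] at h6
    have h7 := le_of_mul_le_mul_right h6 (Real.exp_pos (x + ss))
    calc Real.exp (q + 1) = Real.exp (q + 1 - c3) * Real.exp c3 := by
          rw [← Real.exp_add]; congr 1; ring
      _ ≤ _ := mul_le_mul_of_nonneg_right h7 (Real.exp_pos _).le
  have e5 : Real.exp (q + 1) = Real.exp 1 * ((5 + 4 * T ^ 2) * (|K| + 1)) * Real.exp c3 := by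
    have h8 : 0 < (5 + 4 * T ^ 2) * (|K| + 1) := by positivity
    rw [hq, Real.exp_add, Real.exp_add, Real.exp_log h8]
    ring
  rw [e5] at e4
  have e6 := le_of_mul_le_mul_right e4 (Real.exp_pos c3)
  have h9 : (1 : ℝ) < Real.exp 1 := by
    have := Real.add_one_lt_exp (x := 1) (by norm_num)
    linarith
  have h10 : 0 < 5 + 4 * T ^ 2 := by positivity
  have h11 : |K| + 1 < W := by
    have : (5 + 4 * T ^ 2) * (|K| + 1) < (5 + 4 * T ^ 2) * W := by
      refine lt_of_lt_of_le ?_ e6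
      have : 0 < (5 + 4 * T ^ 2) * (|K| + 1) := by positivity
      nlinarith
    exact lt_of_mul_lt_mul_left this h10.le
  have := le_abs_self K
  linarith

end Pool.Agent.U585.RM
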