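import Pool.Agent.U585.RM.Fin

/-!
# Corollaries
-/

set_option autoImplicit false
set_option linter.unusedSectionVars false

open MeasureTheory Filter Topology ProbabilityTheory
open scoped ENNReal

namespace Pool.Agent.U585.RM

lemma msq_meas (g : ℕ → ℂ) :
    Measurable fun u : ℝ => (‖∑ n ∈ Finset.Icc 1 ⌊u⌋₊, coef g n‖ / u) ^ 2 := by
  have h1 : Measurable fun u : ℝ => ∑ n ∈ Finset.Icc 1 ⌊u⌋₊, coef g n :=
    Measurable.comp (g := fun N : ℕ => ∑ n ∈ Finset.Icc 1 N, coef g n)
      (measurable_from_nat) Nat.measurable_floor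
  exact (h1.norm.div measurable_id).pow_const 2

lemma msq_intble (g : ℕ → ℂ) {x : ℝ} (hx : 1 ≤ x) :
    IntervalIntegrable (fun u : ℝ => (‖∑ n ∈ Finset.Icc 1 ⌊u⌋₊, coef g n‖ / u) ^ 2) volume 1 x := by
  rw [intervalIntegrable_iff_integrableOn_Ioc_of_le hx]
  refine Measure.integrableOn_of_bounded (M := (∑ n ∈ Finset.Icc 1 ⌊x⌋₊, ‖coef g n‖) ^ 2)
    (by simp) (msq_meas g).aestronglyMeasurable ?_
  refine (ae_restrict_mem measurableSet_Ioc).mono fun u hu => ?_
  have hu1 : (1 : ℝ) ≤ u := hu.1.le
  rw [Real.norm_of_nonneg (by positivity)]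
  refine pow_le_pow_left₀ (by positivity) ?_ 2
  refine (div_le_self (norm_nonneg _) hu1).trans ?_
  refine (norm_sum_le _ _).trans ?_
  refine Finset.sum_le_sum_of_subset_of_nonneg ?_ fun n _ _ => norm_nonneg _
  exact Finset.Icc_subset_Icc_right (Nat.floor_mono hu.2)

lemma msq_mono (g : ℕ → ℂ) {x y : ℝ} (hx : 1 ≤ x) (hxy : x ≤ y) : msq g x ≤ msq g y := by
  unfold msq
  refine intervalIntegral.integral_mono_interval le_rfl hx hxy
    (ae_of_all _ fun u => ?_) (msq_intble g (hx.trans hxy))
  simp only [Pi.zero_apply]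
  positivity

/-- a mean square which is `o(log x)` is bounded by a multiple of `log x` for all `x ≥ 2` -/
lemma bound_of_tendsto {g : ℕ → ℂ}
    (h : Tendsto (fun x : ℝ => msq g x / Real.log x) atTop (𝓝 0)) :
    ∃ C : ℝ, ∀ x : ℝ, 2 ≤ x → msq g x ≤ C * Real.log x := by
  have h1 := h.eventually (gt_mem_nhds (zero_lt_one))
  obtain ⟨X, hX⟩ := (h1.and (eventually_ge_atTop 2)).exists_forall_of_atTop
  have hX2 : 2 ≤ X := (hX X le_rfl).2
  have hl2 : 0 < Real.log 2 := Real.log_pos (by norm_num)
  have hm : 0 ≤ msq g X := by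
    unfold msq
    exact intervalIntegral.integral_nonneg (by linarith) fun u _ => by positivity
  refine ⟨1 + msq g X / Real.log 2, fun x hx => ?_⟩
  have hlx : Real.log 2 ≤ Real.log x := Real.log_le_log (by norm_num) hx
  rcases le_total X x with hc | hc
  · have h2 := (hX x hc).1
    rw [div_lt_one (by linarith)] at h2
    have : 0 ≤ msq g X / Real.log 2 * Real.log x :=
      mul_nonneg (div_nonneg hm hl2.le) (by linarith)
    linarith
  · have h3 := msq_mono g (by linarith : (1 : ℝ) ≤ x) hc
    have h4 : msq g X ≤ msq g X / Real.log 2 * Real.log x := by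
      rw [div_mul_eq_mul_div, le_div_iff₀ hl2]
      exact mul_le_mul_of_nonneg_left hlx hm
    linarith

/-- for `g = -1` the coefficients are the values of the Moebius function -/
lemma coef_neg_one {n : ℕ} (hn : n ≠ 0) :
    coef (fun _ => -1) n = ((ArithmeticFunction.moebius n : ℤ) : ℂ) := by
  unfold coef
  by_cases h : Squarefree n
  · have h1 : n.primeFactors.card = n.primeFactorsList.length := by
      have := List.card_toFinset n.primeFactorsList
      rw [(Squarefree.nodup_primeFactorsList h).dedup] at this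
      exact this
    rw [if_pos h, ArithmeticFunction.moebius_apply_of_squarefree h, Finset.prod_const,
      ArithmeticFunction.cardFactors_apply, h1]
    push_cast
    rfl
  · rw [if_neg h, ArithmeticFunction.moebius_eq_zero_of_not_squarefree h]
    simp

end Pool.Agent.U585.RM
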