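import Pool.Agent.U585.RM.Ker

/-!
# Dirichlet polynomials: mean squares with the Cauchy weight
-/

set_option autoImplicit false

open MeasureTheory Filter Topology Set
open scoped Real ComplexConjugate

namespace Pool.Agent.U585.RM

/-- the Cauchy distribution with density `1 / (2π (1/4 + t²))` -/
noncomputable def nu : Measure ℝ := volume.withDensity (fun t => ENNReal.ofReal (Pk (1 / 2) t))

lemma nu_int {E : Type} [NormedAddCommGroup E] [NormedSpace ℝ E] (g : ℝ → E) :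
    ∫ t, g t ∂nu = ∫ t, Pk (1 / 2) t • g t := by
  unfold nu
  rw [integral_withDensity_eq_integral_toReal_smul₀
    (Pk_int (by norm_num)).aemeasurable.ennreal_ofReal
    (ae_of_all _ fun x => ENNReal.ofReal_lt_top)]
  refine integral_congr_ae (ae_of_all _ fun x => ?_)
  beta_reduce
  rw [ENNReal.toReal_ofReal (Pk_pos (by norm_num) x).le]

instance nu_prob : IsProbabilityMeasure nu := by
  constructor
  unfold nu
  rw [withDensity_apply _ MeasurableSet.univ, Measure.restrict_univ,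
    ← ofReal_integral_eq_lintegral_ofReal (Pk_int (by norm_num))
      (ae_of_all _ fun x => (Pk_pos (by norm_num) x).le), Pk_integral (by norm_num),
    ENNReal.ofReal_one]

lemma nu_FT (x : ℝ) : ∫ t : ℝ, Complex.exp (-(t * x * Complex.I)) ∂nu =
    (Real.exp (-(|x| / 2)) : ℝ) := by
  rw [nu_int]
  have h := cauchyFT (d := 1 / 2) (by norm_num) x
  have h2 : -(1 / 2 * |x|) = -(|x| / 2) := by ring
  rw [h2] at h
  rw [← h]
  refine integral_congr_ae (ae_of_all _ fun t => ?_)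
  beta_reduce
  rw [Complex.real_smul]

section Pair

variable {ι X : Type} [MeasurableSpace X]

lemma normSq_sum (S : Finset ι) (z : ι → ℂ) :
    ((‖∑ i ∈ S, z i‖ ^ 2 : ℝ) : ℂ) = ∑ i ∈ S, ∑ j ∈ S, z i * conj (z j) := by
  rw [← Finset.sum_mul_sum, ← map_sum, Complex.mul_conj, Complex.normSq_eq_norm_sq]

lemma int_normSq (μ : Measure X) (S : Finset ι) (c : ι → ℂ) (φ : ι → X → ℂ)
    (hint : ∀ i ∈ S, ∀ j ∈ S, Integrable (fun x => φ i x * conj (φ j x)) μ) :
    Integrable (fun x => ‖∑ i ∈ S, c i * φ i x‖ ^ 2) μ ∧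
    ((∫ x, ‖∑ i ∈ S, c i * φ i x‖ ^ 2 ∂μ : ℝ) : ℂ) =
      ∑ i ∈ S, ∑ j ∈ S, c i * conj (c j) * ∫ x, φ i x * conj (φ j x) ∂μ := by
  have e1 : ∀ x, ((‖∑ i ∈ S, c i * φ i x‖ ^ 2 : ℝ) : ℂ) =
      ∑ i ∈ S, ∑ j ∈ S, c i * conj (c j) * (φ i x * conj (φ j x)) := by
    intro x
    rw [normSq_sum]
    refine Finset.sum_congr rfl fun i _ => Finset.sum_congr rfl fun j _ => ?_
    rw [map_mul]
    ring
  have i1 : ∀ i ∈ S, Integrable (fun x => ∑ j ∈ S, c i * conj (c j) * (φ i x * conj (φ j x))) μ :=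
    fun i hi => integrable_finsetSum _ fun j hj => (hint i hi j hj).const_mul _
  have i2 : Integrable (fun x => ((‖∑ i ∈ S, c i * φ i x‖ ^ 2 : ℝ) : ℂ)) μ := by
    simp_rw [e1]
    exact integrable_finsetSum _ i1
  refine ⟨?_, ?_⟩
  · exact i2.re.congr (ae_of_all _ fun x => by simp only [RCLike.re_to_complex, Complex.ofReal_re])
  · rw [show ((∫ x, ‖∑ i ∈ S, c i * φ i x‖ ^ 2 ∂μ : ℝ) : ℂ) =
      ∫ x, ((‖∑ i ∈ S, c i * φ i x‖ ^ 2 : ℝ) : ℂ) ∂μ from integral_ofReal.symm]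
    simp_rw [e1]
    rw [integral_finsetSum _ i1]
    refine Finset.sum_congr rfl fun i hi => ?_
    rw [integral_finsetSum _ fun j hj => (hint i hi j hj).const_mul _]
    refine Finset.sum_congr rfl fun j hj => ?_
    rw [integral_const_mul]

end Pair

section DP

variable {ι : Type}

/-- `∑ c_i exp (-(s + i t) l_i)` -/
noncomputable def DP (S : Finset ι) (c : ι → ℂ) (l : ι → ℝ) (s t : ℝ) : ℂ :=
  ∑ i ∈ S, c i * Complex.exp (-((s + t * Complex.I) * l i))

lemma DP_cont (S : Finset ι) (c : ι → ℂ) (l : ι → ℝ) (s : ℝ) : Continuous (DP S c l s) := by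
  unfold DP
  fun_prop

lemma norm_cexp_le {s t l : ℝ} (hs : 0 ≤ s) (hl : 0 ≤ l) :
    ‖Complex.exp (-((s + t * Complex.I) * l))‖ ≤ 1 := by
  rw [Complex.norm_exp, Real.exp_le_one_iff]
  simp
  positivity

lemma DP_norm_le (S : Finset ι) (c : ι → ℂ) (l : ι → ℝ) (hl : ∀ i ∈ S, 0 ≤ l i) {s : ℝ}
    (hs : 0 ≤ s) (t : ℝ) : ‖DP S c l s t‖ ≤ ∑ i ∈ S, ‖c i‖ := by
  unfold DP
  refine (norm_sum_le _ _).trans (Finset.sum_le_sum fun i hi => ?_)
  rw [norm_mul]
  exact mul_le_of_le_one_right (norm_nonneg _) (norm_cexp_le hs (hl i hi))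

theorem DP_nu (S : Finset ι) (c : ι → ℂ) (l : ι → ℝ) :
    Integrable (fun t => ‖DP S c l (1 / 2) t‖ ^ 2) nu ∧
    ((∫ t, ‖DP S c l (1 / 2) t‖ ^ 2 ∂nu : ℝ) : ℂ) =
      ∑ i ∈ S, ∑ j ∈ S, c i * conj (c j) * ((Real.exp (-max (l i) (l j)) : ℝ) : ℂ) := by
  have e0 : ∀ i j : ι, ∀ t : ℝ, Complex.exp (-(((1 / 2 : ℝ) + t * Complex.I) * l i)) *
      conj (Complex.exp (-(((1 / 2 : ℝ) + t * Complex.I) * l j))) =
      ((Real.exp (-((l i + l j) / 2)) : ℝ) : ℂ) *
        Complex.exp (-(t * ((l i - l j : ℝ) : ℂ) * Complex.I)) := by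
    intro i j t
    rw [← Complex.exp_conj, ← Complex.exp_add, Complex.ofReal_exp, ← Complex.exp_add]
    congr 1
    simp only [map_neg, map_mul, map_add, Complex.conj_ofReal, Complex.conj_I]
    push_cast
    ring
  have hint : ∀ i ∈ S, ∀ j ∈ S, Integrable (fun t : ℝ =>
      Complex.exp (-(((1 / 2 : ℝ) + t * Complex.I) * l i)) *
      conj (Complex.exp (-(((1 / 2 : ℝ) + t * Complex.I) * l j)))) nu := by
    intro i _ j _
    simp_rw [e0]
    refine Integrable.const_mul ?_ _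
    refine Integrable.mono' (g := fun _ => (1 : ℝ)) (integrable_const _)
      (by fun_prop) (ae_of_all _ fun t => ?_)
    rw [Complex.norm_exp]
    simp
  obtain ⟨h1, h2⟩ := int_normSq nu S c (fun i (t : ℝ) =>
    Complex.exp (-(((1 / 2 : ℝ) + t * Complex.I) * l i))) hint
  refine ⟨h1, ?_⟩
  unfold DP
  rw [h2]
  refine Finset.sum_congr rfl fun i _ => Finset.sum_congr rfl fun j _ => ?_
  simp_rw [e0]
  rw [integral_const_mul, nu_FT, ← Complex.ofReal_mul, ← Real.exp_add]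
  congr 3
  rcases le_total (l i) (l j) with h | h
  · rw [max_eq_right h, abs_of_nonpos (by linarith)]
    ring
  · rw [max_eq_left h, abs_of_nonneg (by linarith)]
    ring

/-- the mean square of the partial sums is the same number -/
theorem DP_step (S : Finset ι) (c : ι → ℂ) (n : ι → ℝ) (hn : ∀ i ∈ S, 1 ≤ n i) (x : ℝ) (hx : 1 ≤ x) :
    ∫ u in (1 : ℝ)..x, ‖∑ i ∈ S.filter (fun i => n i ≤ u), c i‖ ^ 2 / u ^ 2 ≤
      ∫ t, ‖DP S c (fun i => Real.log (n i)) (1 / 2) t‖ ^ 2 ∂nu := by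
  classical
  -- indicator functions
  set φ : ι → ℝ → ℂ := fun i u => if n i ≤ u then ((u⁻¹ : ℝ) : ℂ) else 0 with hφ
  have e0 : ∀ i j : ι, ∀ u : ℝ, φ i u * conj (φ j u) =
      ((indicator (Ici (max (n i) (n j))) (fun u : ℝ => u ^ (-2 : ℝ)) u : ℝ) : ℂ) := by
    intro i j u
    rw [hφ]
    beta_reduce
    by_cases h1 : n i ≤ u <;> by_cases h2 : n j ≤ u
    · rw [if_pos h1, if_pos h2, indicator_of_mem (by exact max_le h1 h2), Complex.conj_ofReal,
        ← Complex.ofReal_mul]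
      congr 1
      rw [Real.rpow_neg_ofNat]
      simp [sq]
    · rw [if_neg h2, indicator_of_notMem (by
        intro h; exact h2 ((le_max_right _ _).trans h))]
      simp
    · rw [if_neg h1, indicator_of_notMem (by
        intro h; exact h1 ((le_max_left _ _).trans h))]
      simp
    · rw [if_neg h1, indicator_of_notMem (by
        intro h; exact h1 ((le_max_left _ _).trans h))]
      simp
  have hI : ∀ i ∈ S, ∀ j ∈ S, IntegrableOn (fun u : ℝ =>
      indicator (Ici (max (n i) (n j))) (fun u : ℝ => u ^ (-2 : ℝ)) u) (Ioi 1) ∧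
      ∫ u in Ioi 1, indicator (Ici (max (n i) (n j))) (fun u : ℝ => u ^ (-2 : ℝ)) u =
        Real.exp (- max (Real.log (n i)) (Real.log (n j))) := by
    intro i hi j hj
    have hM : 1 ≤ max (n i) (n j) := (hn i hi).trans (le_max_left _ _)
    have hM0 : 0 < max (n i) (n j) := by linarith
    have h1 : IntegrableOn (fun u : ℝ => u ^ (-2 : ℝ)) (Ici (max (n i) (n j))) := by
      rw [integrableOn_Ici_iff_integrableOn_Ioi]
      exact integrableOn_Ioi_rpow_of_lt (by norm_num) hM0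
    refine ⟨(h1.integrable_indicator measurableSet_Ici).integrableOn, ?_⟩
    rw [← integral_indicator measurableSet_Ioi]
    have h2 : (indicator (Ioi (1 : ℝ)) fun u =>
        indicator (Ici (max (n i) (n j))) (fun u : ℝ => u ^ (-2 : ℝ)) u) =ᵐ[volume]
        indicator (Ioi (max (n i) (n j))) (fun u : ℝ => u ^ (-2 : ℝ)) := by
      have h3 : ∀ᵐ u : ℝ, u ≠ max (n i) (n j) := by
        rw [ae_iff]; simp
      filter_upwards [h3] with u hu
      by_cases h4 : max (n i) (n j) < u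
      · rw [indicator_of_mem (show u ∈ Ioi (1 : ℝ) from lt_of_le_of_lt hM h4),
          indicator_of_mem (show u ∈ Ici (max (n i) (n j)) from h4.le),
          indicator_of_mem (show u ∈ Ioi (max (n i) (n j)) from h4)]
      · rw [indicator_of_notMem (show u ∉ Ioi (max (n i) (n j)) from h4)]
        by_cases h5 : u ∈ Ioi (1 : ℝ)
        · rw [indicator_of_mem h5, indicator_of_notMem]
          intro h6
          exact h4 (lt_of_le_of_ne h6 (Ne.symm hu))
        · rw [indicator_of_notMem h5]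
    rw [integral_congr_ae h2, integral_indicator measurableSet_Ioi,
      integral_Ioi_rpow_of_lt (by norm_num) hM0]
    have h6 : max (Real.log (n i)) (Real.log (n j)) = Real.log (max (n i) (n j)) := by
      have hi0 : 0 < n i := by linarith [hn i hi]
      have hj0 : 0 < n j := by linarith [hn j hj]
      rcases le_total (n i) (n j) with h | h
      · rw [max_eq_right h, max_eq_right (Real.log_le_log hi0 h)]
      · rw [max_eq_left h, max_eq_left (Real.log_le_log hj0 h)]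
    rw [h6, Real.exp_neg, Real.exp_log hM0]
    norm_num
    rw [Real.rpow_neg_one]
  have hint : ∀ i ∈ S, ∀ j ∈ S, Integrable (fun u => φ i u * conj (φ j u))
      (volume.restrict (Ioi 1)) := by
    intro i hi j hj
    simp_rw [e0]
    exact (hI i hi j hj).1.ofReal
  obtain ⟨h1, h2⟩ := int_normSq (volume.restrict (Ioi (1 : ℝ))) S c φ hint
  have h3 : (∫ u in Ioi (1 : ℝ), ‖∑ i ∈ S, c i * φ i u‖ ^ 2) =
      ∫ t, ‖DP S c (fun i => Real.log (n i)) (1 / 2) t‖ ^ 2 ∂nu := by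
    have h4 := (DP_nu S c (fun i => Real.log (n i))).2
    have h5 : (((∫ u in Ioi (1 : ℝ), ‖∑ i ∈ S, c i * φ i u‖ ^ 2 : ℝ)) : ℂ) =
        ((∫ t, ‖DP S c (fun i => Real.log (n i)) (1 / 2) t‖ ^ 2 ∂nu : ℝ) : ℂ) := by
      rw [h2, h4]
      refine Finset.sum_congr rfl fun i hi => Finset.sum_congr rfl fun j hj => ?_
      simp_rw [e0]
      congr 1
      rw [← (hI i hi j hj).2]
      exact integral_ofReal
    exact_mod_cast h5
  rw [← h3, intervalIntegral.integral_of_le hx]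
  have e6 : ∀ u ∈ Ioi (1 : ℝ), ‖∑ i ∈ S.filter (fun i => n i ≤ u), c i‖ ^ 2 / u ^ 2 =
      ‖∑ i ∈ S, c i * φ i u‖ ^ 2 := by
    intro u hu
    have hu0 : (0 : ℝ) < u := lt_trans one_pos hu
    have h7 : ∑ i ∈ S, c i * φ i u = (∑ i ∈ S.filter (fun i => n i ≤ u), c i) * ((u⁻¹ : ℝ) : ℂ) := by
      rw [Finset.sum_filter, Finset.sum_mul]
      refine Finset.sum_congr rfl fun i _ => ?_
      rw [hφ]
      beta_reduce
      split_ifs <;> simp
    rw [h7, norm_mul, mul_pow, Complex.norm_real, Real.norm_of_nonneg (by positivity)]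
    field_simp
  calc ∫ u in Ioc 1 x, ‖∑ i ∈ S.filter (fun i => n i ≤ u), c i‖ ^ 2 / u ^ 2
      = ∫ u in Ioc 1 x, ‖∑ i ∈ S, c i * φ i u‖ ^ 2 :=
        setIntegral_congr_fun measurableSet_Ioc fun u hu => e6 u hu.1
    _ ≤ ∫ u in Ioi (1 : ℝ), ‖∑ i ∈ S, c i * φ i u‖ ^ 2 :=
        setIntegral_mono_set h1 (ae_of_all _ fun u => by positivity)
          (ae_of_all _ fun u hu => hu.1)

/-- the values to the right of the critical line are controlled by the mean square -/
theorem DP_shift (S : Finset ι) (c : ι → ℂ) (l : ι → ℝ) (hl : ∀ i ∈ S, 0 ≤ l i) {d T t : ℝ}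
    (hd : 0 < d) (hd1 : d ≤ 1) (ht : |t| ≤ T) :
    ‖DP S c l (1 / 2 + d) t‖ ^ 2 ≤ (5 + 4 * T ^ 2) / d * ∫ s, ‖DP S c l (1 / 2) s‖ ^ 2 ∂nu := by
  set H := DP S c l (1 / 2) with hH
  have hHc : Continuous H := DP_cont S c l (1 / 2)
  set A := ∑ i ∈ S, ‖c i‖ with hA
  have hHb : ∀ s, ‖H s‖ ≤ A := fun s => DP_norm_le S c l hl (by norm_num) s
  have hA0 : 0 ≤ A := Finset.sum_nonneg fun i _ => norm_nonneg _
  have hPi := Pk_int hd
  -- integral representation
  have rep : DP S c l (1 / 2 + d) t = ∫ h : ℝ, (Pk d h : ℂ) * H (t + h) := by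
    have e1 : ∀ h : ℝ, (Pk d h : ℂ) * H (t + h) = ∑ i ∈ S,
        (c i * Complex.exp (-(((1 / 2 : ℝ) + t * Complex.I) * l i))) *
          ((Pk d h : ℂ) * Complex.exp (-(h * l i * Complex.I))) := by
      intro h
      rw [hH]
      unfold DP
      rw [Finset.mul_sum]
      refine Finset.sum_congr rfl fun i _ => ?_
      have : Complex.exp (-(((1 / 2 : ℝ) + ((t + h : ℝ) : ℂ) * Complex.I) * l i)) =
          Complex.exp (-(((1 / 2 : ℝ) + t * Complex.I) * l i)) *
            Complex.exp (-(h * l i * Complex.I)) := by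
        rw [← Complex.exp_add]
        congr 1
        push_cast
        ring
      rw [this]
      ring
    simp_rw [e1]
    have i1 : ∀ i ∈ S, Integrable (fun h : ℝ =>
        (c i * Complex.exp (-(((1 / 2 : ℝ) + t * Complex.I) * l i))) *
          ((Pk d h : ℂ) * Complex.exp (-(h * l i * Complex.I)))) := by
      intro i _
      refine Integrable.const_mul ?_ _
      refine hPi.ofReal.mul_bdd (c := 1) (by fun_prop) (ae_of_all _ fun h => ?_)
      rw [Complex.norm_exp]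
      simp
    rw [integral_finsetSum _ i1]
    unfold DP
    refine Finset.sum_congr rfl fun i hi => ?_
    rw [integral_const_mul, cauchyFT hd, mul_assoc, Complex.ofReal_exp, ← Complex.exp_add,
      abs_of_nonneg (hl i hi)]
    congr 2
    push_cast
    ring
  have hn1 : Integrable (fun h : ℝ => Pk d h * ‖H (t + h)‖) := by
    refine hPi.mul_bdd (c := A) (by fun_prop) (ae_of_all _ fun h => ?_)
    rw [norm_norm]
    exact hHb _
  have hn2 : Integrable (fun h : ℝ => Pk d h * ‖H (t + h)‖ ^ 2) := by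
    refine hPi.mul_bdd (c := A ^ 2) (by fun_prop) (ae_of_all _ fun h => ?_)
    rw [norm_pow, norm_norm]
    exact pow_le_pow_left₀ (norm_nonneg _) (hHb _) 2
  set a := ∫ h : ℝ, Pk d h * ‖H (t + h)‖ with ha
  have h1 : ‖DP S c l (1 / 2 + d) t‖ ≤ a := by
    rw [rep]
    refine (norm_integral_le_integral_norm _).trans (le_of_eq ?_)
    refine integral_congr_ae (ae_of_all _ fun h => ?_)
    beta_reduce
    rw [norm_mul, Complex.norm_real, Real.norm_of_nonneg (Pk_pos hd h).le]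
  have h2 : a ^ 2 ≤ ∫ h : ℝ, Pk d h * ‖H (t + h)‖ ^ 2 := by
    have h3 : 0 ≤ ∫ h : ℝ, Pk d h * (‖H (t + h)‖ - a) ^ 2 :=
      integral_nonneg fun h => mul_nonneg (Pk_pos hd h).le (sq_nonneg _)
    have h4 : ∫ h : ℝ, Pk d h * (‖H (t + h)‖ - a) ^ 2 =
        (∫ h : ℝ, Pk d h * ‖H (t + h)‖ ^ 2) - a ^ 2 := by
      have h5 : ∀ h : ℝ, Pk d h * (‖H (t + h)‖ - a) ^ 2 =
          (Pk d h * ‖H (t + h)‖ ^ 2 - 2 * a * (Pk d h * ‖H (t + h)‖)) + a ^ 2 * Pk d h := by
        intro h; ring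
      simp_rw [h5]
      have i5 : Integrable (fun h : ℝ => Pk d h * ‖H (t + h)‖ ^ 2 -
        2 * a * (Pk d h * ‖H (t + h)‖)) := hn2.sub (hn1.const_mul _)
      rw [integral_add i5 (hPi.const_mul _),
        integral_sub hn2 (hn1.const_mul _), integral_const_mul, integral_const_mul, ← ha,
        Pk_integral hd]
      ring
    linarith
  have h3 : ∫ h : ℝ, Pk d h * ‖H (t + h)‖ ^ 2 = ∫ s : ℝ, Pk d (s - t) * ‖H s‖ ^ 2 := by
    have := integral_add_left_eq_self (μ := volume) (fun s : ℝ => Pk d (s - t) * ‖H s‖ ^ 2) t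
    rw [← this]
    refine integral_congr_ae (ae_of_all _ fun h => ?_)
    beta_reduce
    rw [add_sub_cancel_left]
  have hP2 : Integrable (Pk (1 / 2)) := Pk_int (by norm_num)
  have h4 : ∫ s : ℝ, Pk d (s - t) * ‖H s‖ ^ 2 ≤
      ∫ s : ℝ, (5 + 4 * T ^ 2) / d * (Pk (1 / 2) s * ‖H s‖ ^ 2) := by
    refine integral_mono ?_ ?_ fun s => ?_
    · refine (hPi.comp_sub_right t).mul_bdd (c := A ^ 2) (by fun_prop) (ae_of_all _ fun h => ?_)
      rw [norm_pow, norm_norm]
      exact pow_le_pow_left₀ (norm_nonneg _) (hHb _) 2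
    · refine Integrable.const_mul ?_ _
      refine hP2.mul_bdd (c := A ^ 2) (by fun_prop) (ae_of_all _ fun h => ?_)
      rw [norm_pow, norm_norm]
      exact pow_le_pow_left₀ (norm_nonneg _) (hHb _) 2
    · beta_reduce
      rw [← mul_assoc]
      refine mul_le_mul_of_nonneg_right ?_ (by positivity)
      unfold Pk
      have hpi := Real.pi_pos
      have ht2 : t ^ 2 ≤ T ^ 2 := sq_le_sq.2 (ht.trans (le_abs_self T))
      have q1 : 0 < d ^ 2 + (s - t) ^ 2 := by positivity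
      have q2 : (0 : ℝ) < (1 / 2) ^ 2 + s ^ 2 := by positivity
      rw [div_div, div_div, div_mul_div_comm, div_le_div_iff₀ (by positivity) (by positivity)]
      have q3 : 2 * d ^ 2 * (1 / 4 + s ^ 2) ≤ (5 + 4 * T ^ 2) * (d ^ 2 + (s - t) ^ 2) := by
        have w1 : s ^ 2 ≤ 2 * (s - t) ^ 2 + 2 * t ^ 2 := by nlinarith [sq_nonneg (s - 2 * t)]
        have w2 : d ^ 2 ≤ 1 := by nlinarith
        have w3 : d ^ 2 * (s - t) ^ 2 ≤ (s - t) ^ 2 := by nlinarith [sq_nonneg (s - t)]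
        have w4 : 0 ≤ T ^ 2 * (s - t) ^ 2 := by positivity
        have w5 : d ^ 2 * t ^ 2 ≤ d ^ 2 * T ^ 2 := by nlinarith [sq_nonneg d]
        nlinarith [sq_nonneg d, sq_nonneg (s - t)]
      nlinarith [mul_le_mul_of_nonneg_left q3 hpi.le]
  calc ‖DP S c l (1 / 2 + d) t‖ ^ 2 ≤ a ^ 2 := pow_le_pow_left₀ (norm_nonneg _) h1 2
    _ ≤ ∫ s : ℝ, Pk d (s - t) * ‖H s‖ ^ 2 := h3 ▸ h2
    _ ≤ _ := h4
    _ = _ := by
      rw [integral_const_mul, nu_int]
      simp_rw [smul_eq_mul]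

end DP

end Pool.Agent.U585.RM
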