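import Pool.Agent.U585.RM.Lim

/-!
# The mean square of the summatory function
-/

set_option autoImplicit false
set_option linter.unusedSectionVars false

open MeasureTheory Filter Topology ProbabilityTheory
open scoped ENNReal

namespace Pool.Agent.U585.RM

open Pool.Agent.Helper601.Mertens (PP mertens_log mertens_inv)

/-- the multiplicative function supported on the squarefree numbers with values `g p` at the primes -/
noncomputable def coef (g : ℕ → ℂ) (n : ℕ) : ℂ :=
  open Classical in if Squarefree n then ∏ p ∈ n.primeFactors, g p else 0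

/-- `∫_1^x |∑_{n ≤ u} g(n)|² du / u²` -/
noncomputable def msq (g : ℕ → ℂ) (x : ℝ) : ℝ :=
  ∫ u in (1 : ℝ)..x, (‖∑ n ∈ Finset.Icc 1 ⌊u⌋₊, coef g n‖ / u) ^ 2

lemma squarefree_prod {T : Finset ℕ} (hT : ∀ p ∈ T, p.Prime) : Squarefree (∏ p ∈ T, p) := by
  refine Finset.squarefree_prod_of_pairwise_isCoprime (fun p hp q hq hpq => ?_)
    (fun p hp => (hT p hp).squarefree)
  rw [Function.onFun, ← Nat.coprime_iff_isRelPrime]
  exact (Nat.coprime_primes (hT p hp) (hT q hq)).2 hpq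

lemma sum_coef (g : ℕ → ℂ) {N : ℕ} {u : ℝ} (hu0 : 0 ≤ u) (hu : u ≤ N) :
    ∑ n ∈ Finset.Icc 1 ⌊u⌋₊, coef g n =
      ∑ T ∈ (PP N).powerset.filter (fun T => ((∏ p ∈ T, p : ℕ) : ℝ) ≤ u), ∏ p ∈ T, g p := by
  classical
  unfold coef
  rw [← Finset.sum_filter]
  refine Finset.sum_nbij' (fun n => n.primeFactors) (fun T => ∏ p ∈ T, p) ?_ ?_ ?_ ?_ ?_
  · intro n hn
    rw [Finset.mem_filter, Finset.mem_Icc] at hn
    rw [Finset.mem_filter, Finset.mem_powerset]
    have hn1 : (n : ℝ) ≤ u := (Nat.le_floor_iff hu0).1 hn.1.2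
    refine ⟨fun p hp => ?_, ?_⟩
    · rw [mem_PP]
      refine ⟨Nat.prime_of_mem_primeFactors hp, ?_⟩
      have h1 : p ≤ n := Nat.le_of_mem_primeFactors hp
      have h2 : (n : ℝ) ≤ N := hn1.trans hu
      have h3 : n ≤ N := by exact_mod_cast h2
      omega
    · rw [Nat.prod_primeFactors_of_squarefree hn.2]
      exact hn1
  · intro T hT
    rw [Finset.mem_filter, Finset.mem_powerset] at hT
    have hp : ∀ p ∈ T, p.Prime := fun p hp => (mem_PP.1 (hT.1 hp)).1
    rw [Finset.mem_filter, Finset.mem_Icc]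
    exact ⟨⟨Finset.prod_pos fun p h => (hp p h).pos, (Nat.le_floor_iff hu0).2 hT.2⟩,
      squarefree_prod hp⟩
  · intro n hn
    rw [Finset.mem_filter] at hn
    exact Nat.prod_primeFactors_of_squarefree hn.2
  · intro T hT
    rw [Finset.mem_filter, Finset.mem_powerset] at hT
    exact Nat.primeFactors_prod fun p hp => (mem_PP.1 (hT.1 hp)).1
  · intro n _
    rfl

/-- the mean square is bounded by the mean of the square of the Euler product -/
theorem msq_le (g : ℕ → ℂ) {N : ℕ} {x : ℝ} (hx : 1 ≤ x) (hN : x ≤ N) :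
    msq g x ≤ ∫ t, ‖∏ p ∈ PP N, (1 + g p * v p t)‖ ^ 2 ∂nu := by
  have h1 := DP_step (PP N).powerset (fun T => ∏ p ∈ T, g p)
    (fun T => ((∏ p ∈ T, p : ℕ) : ℝ)) (fun T hT => by
      rw [Finset.mem_powerset] at hT
      have : 1 ≤ ∏ p ∈ T, p := Finset.prod_pos fun p h => (mem_PP.1 (hT h)).1.pos
      exact_mod_cast this) x hx
  have h2 : msq g x = ∫ u in (1 : ℝ)..x, ‖∑ T ∈ (PP N).powerset.filter
      (fun T => ((∏ p ∈ T, p : ℕ) : ℝ) ≤ u), ∏ p ∈ T, g p‖ ^ 2 / u ^ 2 := by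
    unfold msq
    refine intervalIntegral.integral_congr fun u hu => ?_
    rw [Set.uIcc_of_le hx] at hu
    rw [sum_coef g (by linarith [hu.1]) (hu.2.trans hN), div_pow]
  rw [h2]
  refine h1.trans (le_of_eq ?_)
  refine integral_congr_ae (ae_of_all _ fun t => ?_)
  beta_reduce
  congr 2
  have h3 := prod_DP (PP N) g (1 / 2) t
  have h4 : ∏ p ∈ PP N, (1 + g p * v p t) =
      ∏ p ∈ PP N, (1 + g p * Complex.exp (-((((1 / 2 : ℝ) : ℂ) + t * Complex.I) *
        (Real.log p : ℝ)))) := rfl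
  rw [h4, h3]
  unfold DP
  refine Finset.sum_congr rfl fun T hT => ?_
  rw [Finset.mem_powerset] at hT
  have h5 : Real.log ((∏ p ∈ T, p : ℕ) : ℝ) = ∑ p ∈ T, Real.log p := by
    rw [Nat.cast_prod, Real.log_prod]
    intro p hp
    have := (mem_PP.1 (hT hp)).1.pos
    positivity
  beta_reduce
  rw [h5]

lemma kp_eq (p : ℕ) (hp : 1 ≤ p) : kp p = 1 / √(p : ℝ) := by
  have hp0 : (0 : ℝ) < p := by exact_mod_cast hp
  have h1 : √(p : ℝ) = Real.exp (Real.log p / 2) := by
    rw [Real.sqrt_eq_rpow, Real.rpow_def_of_pos hp0]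
    congr 1
    ring
  rw [h1, kp, Real.exp_neg, one_div]

lemma sum_le_all {F : Nat.Primes → ℝ} (hF : Summable F) (h0 : ∀ p, 0 ≤ F p)
    (S : Finset Nat.Primes) : ∑ p ∈ S, F p ≤ ∑' p, F p :=
  hF.sum_le_tsum S fun p _ => h0 p

/-- a small change of the values at the primes -/
lemma prod_change {g g' : ℕ → ℂ} (hg : ∀ p, ‖g p‖ ≤ 1)
    (hs : Summable fun p : Nat.Primes => ‖g' p - g p‖ / √((p : ℕ) : ℝ)) :
    ∃ C : ℝ, 0 < C ∧ ∀ (N : ℕ) (t : ℝ), ‖∏ p ∈ PP N, (1 + g' p * v p t)‖ ^ 2 ≤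
      C * ‖∏ p ∈ PP N, (1 + g p * v p t)‖ ^ 2 := by
  set s := ∑' p : Nat.Primes, ‖g' p - g p‖ / √((p : ℕ) : ℝ) with hsdef
  refine ⟨Real.exp (4 * s) ^ 2, by positivity, fun N t => ?_⟩
  rw [← mul_pow]
  refine pow_le_pow_left₀ (norm_nonneg _) ?_ 2
  rw [norm_prod, norm_prod]
  have h1 : ∀ p ∈ PP N, ‖1 + g' p * v p t‖ ≤
      Real.exp (4 * (‖g' p - g p‖ / √(p : ℝ))) * ‖1 + g p * v p t‖ := by
    intro p hp
    have hpp := (mem_PP.1 hp).1
    have h2 : 1 / 4 ≤ ‖1 + g p * v p t‖ := by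
      have := norm_sub_norm_le (1 : ℂ) (-(g p * v p t))
      rw [norm_neg, norm_one, sub_neg_eq_add] at this
      have h3 := norm_zv hpp t (hg p)
      linarith
    have h3 : ‖1 + g' p * v p t‖ ≤ ‖1 + g p * v p t‖ + ‖g' p - g p‖ / √(p : ℝ) := by
      have e : 1 + g' p * v p t = (1 + g p * v p t) + (g' p - g p) * v p t := by ring
      rw [e]
      refine (norm_add_le _ _).trans (le_of_eq ?_)
      have h5 : ‖v p t‖ = 1 / √(p : ℝ) := by
        rw [v_norm]; exact kp_eq p hpp.one_lt.le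
      rw [norm_mul, h5]
      ring
    have h4 := Real.add_one_le_exp (4 * (‖g' p - g p‖ / √(p : ℝ)))
    set y := ‖g' p - g p‖ / √(p : ℝ) with hy
    have hy0 : 0 ≤ y := by positivity
    calc ‖1 + g' p * v p t‖ ≤ ‖1 + g p * v p t‖ + y := h3
      _ ≤ (4 * y + 1) * ‖1 + g p * v p t‖ := by nlinarith
      _ ≤ _ := mul_le_mul_of_nonneg_right h4 (norm_nonneg _)
  refine (Finset.prod_le_prod (fun p _ => norm_nonneg _) h1).trans ?_
  rw [Finset.prod_mul_distrib]
  refine mul_le_mul_of_nonneg_right ?_ (Finset.prod_nonneg fun p _ => norm_nonneg _)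
  rw [← Real.exp_sum, Real.exp_le_exp, ← Finset.mul_sum]
  refine mul_le_mul_of_nonneg_left ?_ (by norm_num)
  have h6 : ∑ p ∈ PP N, ‖g' p - g p‖ / √(p : ℝ) =
      ∑ p ∈ (PP N).subtype Nat.Prime, ‖g' p - g p‖ / √((p : ℕ) : ℝ) := by
    rw [Finset.sum_subtype_of_mem (fun p => ‖g' p - g p‖ / √(p : ℝ)) fun p hp => (mem_PP.1 hp).1]
  rw [h6]
  exact sum_le_all hs (fun p => by positivity) _

variable {Ω : Type} [mΩ : MeasurableSpace Ω] {P : Measure Ω} [IsProbabilityMeasure P]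
  {f : ℕ → Ω → ℂ}

lemma Nm_le (S : Finset ℕ) : ∏ p ∈ S, nm P f p ≤ Real.exp (∑ p ∈ S, sg P f p / p) := by
  rw [Real.exp_sum]
  refine Finset.prod_le_prod (fun p _ => zero_le_one.trans (nm_ge p)) fun p _ => ?_
  unfold nm
  have := Real.add_one_le_exp (sg P f p / p)
  linarith

/-- the deterministic conclusion -/
theorem final (h : Model P f) : ∀ᵐ ω ∂P, ∀ g : ℕ → ℂ,
    (Summable fun p : Nat.Primes => ‖g p - f p ω‖ / √((p : ℕ) : ℝ)) →
      Tendsto (fun x : ℝ => msq g x / Real.log x) atTop (𝓝 0) := by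
  obtain ⟨C1, hC1⟩ := mertens_inv
  set Δ : ℕ → ℝ := fun N => ∑ p ∈ PP N, (1 - sg P f p) / p with hΔ
  have hterm : ∀ p : ℕ, 0 ≤ (1 - sg P f p) / (p : ℝ) := fun p => by
    have := sg_le h p
    exact div_nonneg (by linarith) (Nat.cast_nonneg _)
  have hΔmono : Monotone Δ := by
    intro M N hMN
    exact Finset.sum_le_sum_of_subset_of_nonneg (PP_mono hMN) fun p _ _ => hterm p
  have hΔ0 : ∀ N, 0 ≤ Δ N := fun N => Finset.sum_nonneg fun p _ => hterm p
  -- the key almost sure statement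
  have key : ∀ᵐ ω ∂P, Tendsto (fun N => Real.exp (-Δ N) * Wg P f (PP N) (fun p => f p ω)) atTop
      (𝓝 0) := by
    by_cases hb : ∃ D, ∀ N, Δ N ≤ D
    · obtain ⟨D, hD⟩ := hb
      have hD' : ∀ S : Finset ℕ, (∀ p ∈ S, p.Prime) → ∑ p ∈ S, (1 - sg P f p) / p ≤ D := by
        intro S hS
        refine le_trans ?_ (hD (S.sup id))
        refine Finset.sum_le_sum_of_subset_of_nonneg (fun p hp => ?_) fun p _ _ => hterm p
        exact mem_PP.2 ⟨hS p hp, Finset.le_sup (f := id) hp⟩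
      filter_upwards [Wg_zero h hD'] with ω hω
      refine squeeze_zero (fun N => mul_nonneg (Real.exp_pos _).le (Wg_nonneg _ _)) (fun N => ?_) hω
      refine mul_le_of_le_one_left (Wg_nonneg _ _) ?_
      rw [Real.exp_le_one_iff]
      linarith [hΔ0 N]
    · push Not at hb
      have hinf : Tendsto Δ atTop atTop := by
        rw [tendsto_atTop_atTop]
        intro b
        obtain ⟨N, hN⟩ := hb b
        exact ⟨N, fun M hM => hN.le.trans (hΔmono hM)⟩
      filter_upwards [Wg_conv h] with ω ⟨c, hc⟩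
      have h1 : Tendsto (fun N => Real.exp (-Δ N)) atTop (𝓝 0) :=
        Real.tendsto_exp_atBot.comp (tendsto_neg_atTop_atBot.comp hinf)
      have := h1.mul hc
      rwa [zero_mul] at this
  filter_upwards [key] with ω hω
  intro g hg
  obtain ⟨C, hC, hch⟩ := prod_change (fun p => h.bdd p ω) hg
  -- bound of the mean square
  have hbound : ∀ x : ℝ, 3 ≤ x → msq g x / Real.log x ≤
      (2 * C * Real.exp C1) * (Real.exp (-Δ ⌈x⌉₊) * Wg P f (PP ⌈x⌉₊) (fun p => f p ω)) := by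
    intro x hx
    set N := ⌈x⌉₊ with hN
    have hxN : x ≤ N := Nat.le_ceil x
    have hN3 : 3 ≤ N := by
      have : (3 : ℝ) ≤ N := hx.trans hxN
      exact_mod_cast this
    have hlogx : 0 < Real.log x := Real.log_pos (by linarith)
    have h1 := msq_le g (by linarith : (1 : ℝ) ≤ x) hxN
    have hgf : ∀ p, ‖(fun p => f p ω) p‖ ≤ 1 := fun p => h.bdd p ω
    have h4 : ∀ s : ℝ, ‖∏ p ∈ PP N, (1 + f p ω * v p s)‖ ^ 2 =
        (∏ p ∈ PP N, nm P f p) * Zg P f (PP N) (fun p => f p ω) s := by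
      intro s
      rw [norm_prod, ← Finset.prod_pow]
      unfold Zg
      rw [← Finset.prod_mul_distrib]
      refine Finset.prod_congr rfl fun p _ => ?_
      have : nm P f p ≠ 0 := (zero_lt_one.trans_le (nm_ge p)).ne'
      rw [mul_div_cancel₀ _ this]
    have h2 : ∫ t, ‖∏ p ∈ PP N, (1 + g p * v p t)‖ ^ 2 ∂nu ≤
        C * ((∏ p ∈ PP N, nm P f p) * Wg P f (PP N) (fun p => f p ω)) := by
      calc ∫ t, ‖∏ p ∈ PP N, (1 + g p * v p t)‖ ^ 2 ∂nu
          ≤ ∫ t, C * ((∏ p ∈ PP N, nm P f p) * Zg P f (PP N) (fun p => f p ω) t) ∂nu := by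
            refine integral_mono_of_nonneg (ae_of_all _ fun t => by positivity)
              (((Zg_int (PP N) hgf).const_mul _).const_mul _) (ae_of_all _ fun t => ?_)
            beta_reduce
            rw [← h4]
            exact hch N t
        _ = _ := by rw [integral_const_mul, integral_const_mul]; rfl
    have h5 : ∏ p ∈ PP N, nm P f p ≤ Real.exp C1 * Real.log N * Real.exp (-Δ N) := by
      refine (Nm_le (PP N)).trans ?_
      have h6 : ∑ p ∈ PP N, sg P f p / p = (∑ p ∈ PP N, (1 : ℝ) / p) - Δ N := by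
        rw [hΔ, ← Finset.sum_sub_distrib]
        refine Finset.sum_congr rfl fun p _ => ?_
        ring
      have h7 := (abs_le.1 (hC1 N hN3)).2
      have h8 : ∑ p ∈ PP N, sg P f p / p ≤ C1 + Real.log (Real.log N) + (-Δ N) := by
        rw [h6]; linarith
      refine (Real.exp_le_exp.2 h8).trans (le_of_eq ?_)
      have h9 : 0 < Real.log N := Real.log_pos (by linarith)
      rw [Real.exp_add, Real.exp_add, Real.exp_log h9]
    have h10 : Real.log N ≤ 2 * Real.log x := by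
      have h11 : (N : ℝ) ≤ x ^ 2 := by
        have := (Nat.ceil_lt_add_one (by linarith : (0 : ℝ) ≤ x)).le
        nlinarith
      have h12 := Real.log_le_log (by linarith : (0 : ℝ) < N) h11
      rw [Real.log_pow] at h12
      exact_mod_cast h12
    have hW := Wg_nonneg (P := P) (f := f) (PP N) (fun p => f p ω)
    rw [div_le_iff₀ hlogx]
    calc msq g x ≤ C * ((∏ p ∈ PP N, nm P f p) * Wg P f (PP N) (fun p => f p ω)) := h1.trans h2
      _ ≤ C * ((Real.exp C1 * (2 * Real.log x) * Real.exp (-Δ N)) *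
            Wg P f (PP N) (fun p => f p ω)) := by
          refine mul_le_mul_of_nonneg_left (mul_le_mul_of_nonneg_right (h5.trans ?_) hW) hC.le
          refine mul_le_mul_of_nonneg_right ?_ (Real.exp_pos _).le
          exact mul_le_mul_of_nonneg_left h10 (Real.exp_pos _).le
      _ = _ := by ring
  have hlim : Tendsto (fun x : ℝ => (2 * C * Real.exp C1) *
      (Real.exp (-Δ ⌈x⌉₊) * Wg P f (PP ⌈x⌉₊) (fun p => f p ω))) atTop (𝓝 0) := by
    have h1 := (hω.comp (tendsto_nat_ceil_atTop (α := ℝ))).const_mul (2 * C * Real.exp C1)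
    rw [mul_zero] at h1
    exact h1
  refine squeeze_zero' ?_ ?_ hlim
  · filter_upwards [eventually_ge_atTop 3] with x hx
    refine div_nonneg ?_ (Real.log_pos (by linarith)).le
    unfold msq
    exact intervalIntegral.integral_nonneg (by linarith) fun u _ => by positivity
  · filter_upwards [eventually_ge_atTop 3] with x hx
    exact hbound x hx

end Pool.Agent.U585.RM
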