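import Mathlib

/-!
# The Cauchy (Poisson) kernel on the line and Dirichlet polynomials
-/

set_option autoImplicit false

open MeasureTheory Filter Topology Set
open scoped Real

namespace Pool.Agent.U585.RM

/-- the Cauchy kernel with parameter `d` -/
noncomputable def Pk (d t : ℝ) : ℝ := d / π / (d ^ 2 + t ^ 2)

lemma Pk_pos {d : ℝ} (hd : 0 < d) (t : ℝ) : 0 < Pk d t := by
  unfold Pk; positivity

lemma Pk_neg (d t : ℝ) : Pk d (-t) = Pk d t := by
  unfold Pk; rw [neg_sq]

lemma Pk_cont {d : ℝ} (hd : 0 < d) : Continuous (Pk d) := by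
  unfold Pk
  refine continuous_const.div (by fun_prop) fun t => ?_
  positivity

lemma char_exp (m p : ℝ) (hm : 0 < m) : Integrable (fun x : ℝ => Real.exp (-(m * |x|))) ∧
    ∫ x : ℝ, ((Real.exp (-(m * |x|)) : ℝ) : ℂ) * Complex.exp (Complex.I * p * x) =
      ((2 * m / (m ^ 2 + p ^ 2) : ℝ) : ℂ) := by
  have e1 : ∀ x ∈ Iic (0 : ℝ), Real.exp (-(m * |x|)) = Real.exp (m * x) := by
    intro x hx
    have hx' : x ≤ 0 := hx
    rw [abs_of_nonpos hx']
    congr 1
    ring
  have e2 : ∀ x ∈ Ioi (0 : ℝ), Real.exp (-(m * |x|)) = Real.exp (-m * x) := by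
    intro x hx
    have hx' : 0 < x := hx
    rw [abs_of_pos hx']
    congr 1
    ring
  have hint : Integrable (fun x : ℝ => Real.exp (-(m * |x|))) := by
    rw [← integrableOn_univ, ← Iic_union_Ioi (a := (0 : ℝ))]
    exact ((integrableOn_exp_mul_Iic hm 0).congr_fun (fun x hx => (e1 x hx).symm)
      measurableSet_Iic).union ((integrableOn_exp_mul_Ioi (by linarith : -m < 0) 0).congr_fun
      (fun x hx => (e2 x hx).symm) measurableSet_Ioi)
  refine ⟨hint, ?_⟩
  have r1 : 0 < ((m : ℂ) + Complex.I * p).re := by simpa using hm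
  have r2 : (-(m : ℂ) + Complex.I * p).re < 0 := by simpa using hm
  have g1 : ∀ x ∈ Iic (0 : ℝ), ((Real.exp (-(m * |x|)) : ℝ) : ℂ) * Complex.exp (Complex.I * p * x) =
      Complex.exp (((m : ℂ) + Complex.I * p) * x) := by
    intro x hx
    rw [e1 x hx]
    rw [Complex.ofReal_exp, ← Complex.exp_add]
    congr 1
    push_cast
    ring
  have g2 : ∀ x ∈ Ioi (0 : ℝ), ((Real.exp (-(m * |x|)) : ℝ) : ℂ) * Complex.exp (Complex.I * p * x) =
      Complex.exp ((-(m : ℂ) + Complex.I * p) * x) := by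
    intro x hx
    rw [e2 x hx]
    rw [Complex.ofReal_exp, ← Complex.exp_add]
    congr 1
    push_cast
    ring
  have j1 : IntegrableOn (fun x : ℝ => ((Real.exp (-(m * |x|)) : ℝ) : ℂ) *
      Complex.exp (Complex.I * p * x)) (Iic 0) :=
    (integrableOn_exp_mul_complex_Iic r1 0).congr_fun (fun x hx => (g1 x hx).symm)
      measurableSet_Iic
  have j2 : IntegrableOn (fun x : ℝ => ((Real.exp (-(m * |x|)) : ℝ) : ℂ) *
      Complex.exp (Complex.I * p * x)) (Ioi 0) :=
    (integrableOn_exp_mul_complex_Ioi r2 0).congr_fun (fun x hx => (g2 x hx).symm)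
      measurableSet_Ioi
  rw [← intervalIntegral.integral_Iic_add_Ioi j1 j2, setIntegral_congr_fun measurableSet_Iic g1,
    setIntegral_congr_fun measurableSet_Ioi g2, integral_exp_mul_complex_Iic r1,
    integral_exp_mul_complex_Ioi r2]
  have n1 : (m : ℂ) + Complex.I * p ≠ 0 := fun h => by rw [h] at r1; simp at r1
  have n2 : -(m : ℂ) + Complex.I * p ≠ 0 := fun h => by rw [h] at r2; simp at r2
  have n3 : (m : ℂ) ^ 2 + (p : ℂ) ^ 2 ≠ 0 := by
    have : 0 < m ^ 2 + p ^ 2 := by positivity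
    exact_mod_cast this.ne'
  have hI := Complex.I_sq
  simp only [Complex.ofReal_zero, mul_zero, Complex.exp_zero]
  push_cast
  rw [div_add_div _ _ n1 n2, div_eq_div_iff (mul_ne_zero n1 n2) n3]
  linear_combination (-2 * (m : ℂ) * (p : ℂ) ^ 2) * hI

lemma Pk_int {d : ℝ} (hd : 0 < d) : Integrable (Pk d) := by
  have h1 : Integrable (fun t : ℝ => (1 + (t / d) ^ 2)⁻¹) :=
    (integrable_inv_one_add_sq).comp_div hd.ne'
  refine (h1.const_mul (1 / π / d)).congr (Eventually.of_forall fun t => ?_)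
  unfold Pk
  have hd' := hd.ne'
  have hpi := Real.pi_pos.ne'
  have h2 : d ^ 2 + t ^ 2 ≠ 0 := by positivity
  beta_reduce
  have h3 : 1 + (t / d) ^ 2 = (d ^ 2 + t ^ 2) / d ^ 2 := by field_simp
  rw [h3]
  field_simp

/-- the Fourier transform of the Cauchy kernel -/
theorem cauchyFT {d : ℝ} (hd : 0 < d) (x : ℝ) :
    ∫ t : ℝ, (Pk d t : ℂ) * Complex.exp (-(t * x * Complex.I)) = (Real.exp (-(d * |x|)) : ℝ) := by
  set g : ℝ → ℂ := fun x => ((Real.exp (-(d * |x|)) : ℝ) : ℂ) with hg
  have hgi : Integrable g := (char_exp d 0 hd).1.ofReal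
  have hgc : Continuous g := by
    rw [hg]
    exact Complex.continuous_ofReal.comp (Real.continuous_exp.comp
      ((continuous_const.mul continuous_abs).neg))
  have hF : FourierTransform.fourier g = fun w : ℝ =>
      ((2 * d / (d ^ 2 + (2 * π * w) ^ 2) : ℝ) : ℂ) := by
    funext w
    rw [Real.fourier_real_eq_integral_exp_smul]
    have h1 := (char_exp d (-(2 * π * w)) hd).2
    rw [neg_sq] at h1
    rw [← h1]
    refine integral_congr_ae (Eventually.of_forall fun v => ?_)
    beta_reduce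
    rw [hg, smul_eq_mul, mul_comm]
    congr 2
    push_cast
    ring
  have hFi : Integrable (FourierTransform.fourier g) := by
    rw [hF]
    have key : Integrable (fun w : ℝ => 2 * d / (d ^ 2 + (2 * π * w) ^ 2)) := by
      have h1 := (Pk_int hd).comp_mul_left' (show 2 * π ≠ 0 by positivity)
      refine (h1.const_mul (2 * π)).congr (Eventually.of_forall fun t => ?_)
      unfold Pk
      have hpi := Real.pi_pos.ne'
      have h2 : d ^ 2 + (2 * π * t) ^ 2 ≠ 0 := by positivity
      beta_reduce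
      field_simp
    exact key.ofReal
  have hinv := hgi.fourierInv_fourier_eq hFi (v := -x) hgc.continuousAt
  rw [Real.fourierInv_eq', hF] at hinv
  have hsub := Measure.integral_comp_mul_left
    (fun t : ℝ => (Pk d t : ℂ) * Complex.exp (-(t * x * Complex.I))) (2 * π)
  have h3 : ∫ w : ℝ, (Pk d (2 * π * w) : ℂ) * Complex.exp (-(((2 * π * w : ℝ) : ℂ) * x * Complex.I)) =
      (1 / (2 * π) : ℂ) * g (-x) := by
    rw [← hinv, ← integral_const_mul]
    refine integral_congr_ae (Eventually.of_forall fun w => ?_)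
    beta_reduce
    rw [smul_eq_mul]
    have h4 : Complex.exp (((2 * π * inner ℝ w (-x) : ℝ) : ℂ) * Complex.I) =
        Complex.exp (-(((2 * π * w : ℝ) : ℂ) * x * Complex.I)) := by
      congr 1
      have : inner ℝ w (-x) = -(w * x) := by
        simp [mul_comm]
      rw [this]
      push_cast
      ring
    rw [h4]
    have h5 : (Pk d (2 * π * w) : ℂ) = (1 / (2 * π) : ℂ) *
        ((2 * d / (d ^ 2 + (2 * π * w) ^ 2) : ℝ) : ℂ) := by
      have : Pk d (2 * π * w) = 1 / (2 * π) * (2 * d / (d ^ 2 + (2 * π * w) ^ 2)) := by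
        unfold Pk
        have hpi := Real.pi_pos.ne'
        have h2 : d ^ 2 + (2 * π * w) ^ 2 ≠ 0 := by positivity
        field_simp
      rw [this]
      push_cast
      ring
    rw [h5]
    ring
  rw [h3] at hsub
  have hp : |(2 * π)⁻¹| = (2 * π)⁻¹ := abs_of_pos (by positivity)
  rw [hp, Complex.real_smul] at hsub
  have h6 : ((2 * π : ℝ) : ℂ) ≠ 0 := by
    have : (2 * π : ℝ) ≠ 0 := by positivity
    exact_mod_cast this
  have h7 : (∫ t : ℝ, (Pk d t : ℂ) * Complex.exp (-(t * x * Complex.I))) = g (-x) := by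
    have h8 : ((2 * π : ℝ) : ℂ) * (((2 * π)⁻¹ : ℝ) : ℂ) = 1 := by
      rw [← Complex.ofReal_mul, mul_inv_cancel₀ (by positivity), Complex.ofReal_one]
    have h9 : ((2 * π : ℝ) : ℂ) * (1 / (2 * π) : ℂ) = 1 := by
      rw [one_div]
      push_cast at h6 ⊢
      exact mul_inv_cancel₀ h6
    have h10 := congrArg (fun z => ((2 * π : ℝ) : ℂ) * z) hsub
    beta_reduce at h10
    rw [← mul_assoc, ← mul_assoc, h8, h9, one_mul, one_mul] at h10
    exact h10.symm
  rw [h7, hg]
  simp only [abs_neg]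

lemma Pk_integral {d : ℝ} (hd : 0 < d) : ∫ t : ℝ, Pk d t = 1 := by
  have h := cauchyFT hd 0
  simp only [Complex.ofReal_zero, mul_zero, zero_mul, neg_zero, Complex.exp_zero, mul_one, abs_zero,
    Real.exp_zero, Complex.ofReal_one] at h
  have h2 : ((∫ t : ℝ, Pk d t : ℝ) : ℂ) = 1 := by
    rw [← h]; exact integral_ofReal.symm
  exact_mod_cast h2

end Pool.Agent.U585.RM
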