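import Pool.Agent.U585.RM.Block

/-!
# The limit is zero
-/

set_option autoImplicit false
set_option linter.unusedSectionVars false

open MeasureTheory Filter Topology ProbabilityTheory
open scoped ENNReal

namespace Pool.Agent.U585.RM

open Pool.Agent.Helper601.Mertens (PP mertens_log mertens_inv)

variable {Ω : Type} [mΩ : MeasurableSpace Ω] {P : Measure Ω} [IsProbabilityMeasure P]
  {f : ℕ → Ω → ℂ}

lemma bb_DP (S : Finset ℕ) (t : ℝ) : ∑ p ∈ S, bb P f p t =
    DP S (fun p => ∫ ω, f p ω ^ 2 ∂P) (fun p => 2 * Real.log p) (1 / 2) t := by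
  unfold DP
  exact Finset.sum_congr rfl fun p _ => bb_eq p t

lemma beta_le (h : Model P f) (p : ℕ) : ‖∫ ω, f p ω ^ 2 ∂P‖ ≤ 1 := by
  refine (norm_integral_le_integral_norm _).trans ?_
  calc ∫ ω, ‖f p ω ^ 2‖ ∂P ≤ ∫ _, (1 : ℝ) ∂P := by
        refine integral_mono_of_nonneg (ae_of_all _ fun ω => norm_nonneg _) (integrable_const _)
          (ae_of_all _ fun ω => ?_)
        beta_reduce
        rw [norm_pow]
        exact pow_le_one₀ (norm_nonneg _) (h.bdd p ω)
    _ = 1 := by simp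

/-- the exceptional `t` have small measure, uniformly -/
theorem bad_small (h : Model P f) {η : ℝ} (hη : 0 < η) : ∃ R T : ℝ, 0 < R ∧
    ∀ S : Finset ℕ, (∀ p ∈ S, p.Prime) →
      MeasurableSet {t : ℝ | ¬ (|t| ≤ T ∧ ‖∑ p ∈ S, bb P f p t‖ ≤ R)} ∧
      nu.real {t : ℝ | ¬ (|t| ≤ T ∧ ‖∑ p ∈ S, bb P f p t‖ ≤ R)} ≤ η := by
  obtain ⟨C, hC0, hC⟩ := pair_sum
  -- large `t`
  have hT : ∃ T : ℝ, nu.real {t : ℝ | ¬ |t| ≤ T} ≤ η / 2 := by
    have h1 : Tendsto (fun n : ℕ => nu {t : ℝ | ¬ |t| ≤ (n : ℝ)}) atTop (𝓝 (nu (⋂ n : ℕ,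
        {t : ℝ | ¬ |t| ≤ (n : ℝ)}))) := by
      refine tendsto_measure_iInter_atTop (fun n => ?_) ?_ ⟨0, measure_ne_top _ _⟩
      · exact (measurableSet_le continuous_abs.measurable measurable_const).compl.nullMeasurableSet
      · intro m n hmn t ht
        simp only [Set.mem_setOf_eq, not_le] at ht ⊢
        exact lt_of_le_of_lt (by exact_mod_cast hmn) ht
    have h2 : (⋂ n : ℕ, {t : ℝ | ¬ |t| ≤ (n : ℝ)}) = ∅ := by
      ext t
      simp only [Set.mem_iInter, Set.mem_setOf_eq, not_le, Set.mem_empty_iff_false, iff_false,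
        not_forall, not_lt]
      exact exists_nat_ge |t|
    rw [h2, measure_empty] at h1
    have h3 := (ENNReal.tendsto_toReal ENNReal.zero_ne_top).comp h1
    rw [ENNReal.toReal_zero] at h3
    obtain ⟨n, hn⟩ := (h3.eventually_lt_const (show (0 : ℝ) < η / 2 by linarith)).exists
    exact ⟨n, hn.le⟩
  obtain ⟨T, hT⟩ := hT
  set R : ℝ := Real.sqrt (2 * (C + 1) / η) with hR
  have hR0 : 0 < R := Real.sqrt_pos.2 (by positivity)
  refine ⟨R, T, hR0, fun S hS => ?_⟩
  have hcont : Continuous fun t : ℝ => ‖∑ p ∈ S, bb P f p t‖ := by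
    simp_rw [bb_DP]
    exact (DP_cont _ _ _ _).norm
  have m1 : MeasurableSet {t : ℝ | |t| ≤ T} :=
    measurableSet_le continuous_abs.measurable measurable_const
  have m2 : MeasurableSet {t : ℝ | ‖∑ p ∈ S, bb P f p t‖ ≤ R} :=
    measurableSet_le hcont.measurable measurable_const
  refine ⟨(m1.inter m2).compl, ?_⟩
  -- the mean square
  obtain ⟨hi, hsq⟩ := DP_nu S (fun p => ∫ ω, f p ω ^ 2 ∂P) (fun p => 2 * Real.log p)
  have h5 : ∫ t, ‖∑ p ∈ S, bb P f p t‖ ^ 2 ∂nu ≤ C := by
    simp_rw [bb_DP]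
    have h6 : (∫ t, ‖DP S (fun p => ∫ ω, f p ω ^ 2 ∂P) (fun p => 2 * Real.log p) (1 / 2) t‖ ^ 2
        ∂nu) ≤ ∑ p ∈ S, ∑ q ∈ S, 1 / (max (p : ℝ) q) ^ 2 := by
      have h7 := congrArg norm hsq
      rw [Complex.norm_real, Real.norm_of_nonneg (integral_nonneg fun t => by positivity)] at h7
      rw [h7]
      refine (norm_sum_le _ _).trans (Finset.sum_le_sum fun p hp => ?_)
      refine (norm_sum_le _ _).trans (Finset.sum_le_sum fun q hq => ?_)
      rw [norm_mul, norm_mul, RCLike.norm_conj, Complex.norm_real,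
        Real.norm_of_nonneg (Real.exp_pos _).le]
      have hp0 : (0 : ℝ) < p := by exact_mod_cast (hS p hp).pos
      have hq0 : (0 : ℝ) < q := by exact_mod_cast (hS q hq).pos
      have h8 : Real.exp (-max (2 * Real.log p) (2 * Real.log q)) = 1 / (max (p : ℝ) q) ^ 2 := by
        have h9 : max (2 * Real.log p) (2 * Real.log q) = 2 * Real.log (max (p : ℝ) q) := by
          rcases le_total (p : ℝ) q with h | h
          · rw [max_eq_right h, max_eq_right]
            exact mul_le_mul_of_nonneg_left (Real.log_le_log hp0 h) (by norm_num)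
          · rw [max_eq_left h, max_eq_left]
            exact mul_le_mul_of_nonneg_left (Real.log_le_log hq0 h) (by norm_num)
        have h10 : 0 < max (p : ℝ) q := lt_max_of_lt_left hp0
        rw [h9, Real.exp_neg, two_mul, Real.exp_add, Real.exp_log h10, one_div, sq]
      rw [h8]
      have h11 : ‖∫ ω, f p ω ^ 2 ∂P‖ * ‖∫ ω, f q ω ^ 2 ∂P‖ ≤ 1 :=
        mul_le_one₀ (beta_le h p) (norm_nonneg _) (beta_le h q)
      exact mul_le_of_le_one_left (by positivity) h11
    exact h6.trans (hC S hS)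
  have h12 : nu.real {t : ℝ | ¬ ‖∑ p ∈ S, bb P f p t‖ ≤ R} ≤ η / 2 := by
    have hi' : Integrable (fun t => ‖∑ p ∈ S, bb P f p t‖ ^ 2) nu := by
      simp_rw [bb_DP]; exact hi
    have h13 := mul_meas_ge_le_integral_of_nonneg (μ := nu)
      (f := fun t => ‖∑ p ∈ S, bb P f p t‖ ^ 2) (ae_of_all _ fun t => by positivity) hi' (R ^ 2)
    have h14 : R ^ 2 = 2 * (C + 1) / η := Real.sq_sqrt (by positivity)
    have h15 : {t : ℝ | ¬ ‖∑ p ∈ S, bb P f p t‖ ≤ R} ⊆ {t : ℝ | R ^ 2 ≤ ‖∑ p ∈ S, bb P f p t‖ ^ 2} := by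
      intro t ht
      simp only [Set.mem_setOf_eq, not_le] at ht ⊢
      exact pow_le_pow_left₀ hR0.le ht.le 2
    have h16 : nu.real {t : ℝ | ¬ ‖∑ p ∈ S, bb P f p t‖ ≤ R} ≤
        nu.real {t : ℝ | R ^ 2 ≤ ‖∑ p ∈ S, bb P f p t‖ ^ 2} :=
      measureReal_mono h15
    have h17 : R ^ 2 * nu.real {t : ℝ | R ^ 2 ≤ ‖∑ p ∈ S, bb P f p t‖ ^ 2} ≤ C := h13.trans h5
    rw [h14] at h17
    have h18 : nu.real {t : ℝ | 2 * (C + 1) / η ≤ ‖∑ p ∈ S, bb P f p t‖ ^ 2} ≤ η / 2 := by
      have h19 : 2 * (C + 1) / η * nu.real {t : ℝ | 2 * (C + 1) / η ≤ ‖∑ p ∈ S, bb P f p t‖ ^ 2} ≤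
          2 * (C + 1) / η * (η / 2) := by
        have : 2 * (C + 1) / η * (η / 2) = C + 1 := by field_simp
        rw [this]; linarith
      exact le_of_mul_le_mul_left h19 (by positivity)
    rw [h14] at h16
    exact h16.trans h18
  have h20 : {t : ℝ | ¬ (|t| ≤ T ∧ ‖∑ p ∈ S, bb P f p t‖ ≤ R)} ⊆
      {t : ℝ | ¬ |t| ≤ T} ∪ {t : ℝ | ¬ ‖∑ p ∈ S, bb P f p t‖ ≤ R} := by
    intro t ht
    simp only [Set.mem_setOf_eq, Set.mem_union] at ht ⊢
    tauto
  refine (measureReal_mono h20).trans ((measureReal_union_le _ _).trans ?_)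
  linarith

/-- a positive lower bound of the factors -/
lemma Zg_ge (h : Model P f) (S : Finset ℕ) (hS : ∀ p ∈ S, p.Prime) : ∃ m : ℝ, 0 < m ∧
    ∀ g : ℕ → ℂ, (∀ p, ‖g p‖ ≤ 1) → ∀ t : ℝ, m ≤ Zg P f S g t := by
  refine ⟨(1 / 32) ^ S.card, by positivity, fun g hg t => ?_⟩
  unfold Zg
  rw [← Finset.prod_const]
  refine Finset.prod_le_prod (fun p _ => by norm_num) fun p hp => ?_
  have h1 : 1 / 4 ≤ ‖1 + g p * v p t‖ := by
    have := norm_sub_norm_le (1 : ℂ) (-(g p * v p t))
    rw [norm_neg, norm_one, sub_neg_eq_add] at this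
    have h2 := norm_zv (hS p hp) t (hg p)
    linarith
  have h2 : nm P f p ≤ 2 := by
    unfold nm
    have h3 := sg_le h p
    have h4 : (1 : ℝ) ≤ p := by exact_mod_cast (hS p hp).one_lt.le
    have h5 : sg P f p / p ≤ 1 := by
      rw [div_le_one (by linarith)]; linarith
    linarith
  have h3 : 0 < nm P f p := zero_lt_one.trans_le (nm_ge p)
  rw [le_div_iff₀ h3]
  have h4 : (1 / 4 : ℝ) ^ 2 ≤ ‖1 + g p * v p t‖ ^ 2 := pow_le_pow_left₀ (by norm_num) h1 2
  nlinarith

/-- the iteration over blocks -/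
theorem iter (h : Model P f) {D : ℝ} (hD : ∀ S : Finset ℕ, (∀ p ∈ S, p.Prime) →
      ∑ p ∈ S, (1 - sg P f p) / p ≤ D) (K : ℝ) {η : ℝ} (hη : 0 < η) (J : ℕ) :
    ∃ N : ℕ, J ≤ N ∧ ∃ G : Set Ω, MeasurableSet[mS f {p | p ≤ N}] G ∧
      (∀ ω, (∀ n, Wg P f (PP n) (fun p => f p ω) ≤ K) → ω ∈ G) ∧
      ∫ t, ∫ ω, G.indicator (fun _ => (1 : ℝ)) ω * Zg P f (PP N) (fun p => f p ω) t ∂P ∂nu ≤
        η + (1 - 1 / 576) ^ J := by
  obtain ⟨R, T, hR, hbad⟩ := bad_small h hη
  induction J with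
  | zero =>
    refine ⟨0, le_rfl, Set.univ, MeasurableSet.univ, fun ω _ => Set.mem_univ _, ?_⟩
    have h0 : PP 0 = ∅ := by
      ext p
      rw [mem_PP]
      simp only [Finset.notMem_empty, iff_false, not_and]
      intro hp
      have := hp.pos
      omega
    rw [h0]
    simp [Zg]
    exact hη.le
  | succ J ih =>
    obtain ⟨N, hJN, G, hG, hGE, hI⟩ := ih
    obtain ⟨m, hm, hmZ⟩ := Zg_ge h (PP N) fun p hp => (mem_PP.1 hp).1
    obtain ⟨b, hb, hbN⟩ := ((block h hD N (K / m) R T).and (eventually_ge_atTop (N + 1))).exists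
    set S := PP b \ PP N with hS
    have hSp : ∀ p ∈ S, p.Prime := fun p hp => (mem_PP.1 (Finset.mem_sdiff.1 hp).1).1
    have hSN : ∀ p ∈ S, N < p := fun p hp => by
      by_contra hc
      exact (Finset.mem_sdiff.1 hp).2 (mem_PP.2 ⟨hSp p hp, not_lt.1 hc⟩)
    have hSb : ∀ p ∈ S, p ≤ b := fun p hp => (mem_PP.1 (Finset.mem_sdiff.1 hp).1).2
    set H : Set Ω := {ω | Wg P f S (fun p => f p ω) ≤ K / m} with hH
    have hHm : MeasurableSet[mS f (S : Set ℕ)] H := by
      have hd : Measurable[mS f (S : Set ℕ)] fun ω => Wg P f S (fun p => f p ω) :=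
        dep_meas (Wg_meas S) (Wg_dep S)
      exact hd measurableSet_Iic
    have hHm' : MeasurableSet H := mS_le h _ _ hHm
    have hG' : MeasurableSet G := mS_le h _ _ hG
    have mono1 : mS f {p | p ≤ N} ≤ mS f {p | p ≤ b} := (Fil h).mono (show N ≤ b by omega)
    have mono2 : mS f (S : Set ℕ) ≤ mS f {p | p ≤ b} := by
      refine iSup₂_le fun i hi => ?_
      exact le_iSup₂ (f := fun i (_ : i ∈ {p | p ≤ b}) => MeasurableSpace.comap (f i) inferInstance)
        i (hSb i hi)
    have hdecomp : ∀ (g : ℕ → ℂ) (t : ℝ), Zg P f (PP b) g t = Zg P f (PP N) g t * Zg P f S g t := by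
      intro g t
      unfold Zg
      rw [hS, mul_comm, Finset.prod_sdiff (PP_mono (by omega))]
    refine ⟨b, by omega, G ∩ H, MeasurableSet.inter (mono1 _ hG) (mono2 _ hHm),
      fun ω hω => ⟨hGE ω hω, ?_⟩, ?_⟩
    · -- the event `E_K` is contained in `H`
      have hg : ∀ p, ‖(fun p => f p ω) p‖ ≤ 1 := fun p => h.bdd p ω
      have h1 : m * Wg P f S (fun p => f p ω) ≤ Wg P f (PP b) (fun p => f p ω) := by
        unfold Wg
        rw [← integral_const_mul]
        refine integral_mono ((Zg_int S hg).const_mul m) (Zg_int (PP b) hg) fun t => ?_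
        beta_reduce
        rw [hdecomp]
        exact mul_le_mul_of_nonneg_right (hmZ _ hg t) (Zg_nonneg _ _ _)
      have h2 := h1.trans (hω b)
      change Wg P f S (fun p => f p ω) ≤ K / m
      rw [le_div_iff₀ hm, mul_comm]
      exact h2
    · -- the integral
      set q : ℝ → ℝ := fun t => ∫ ω, G.indicator (fun _ => (1 : ℝ)) ω *
        Zg P f (PP N) (fun p => f p ω) t ∂P with hq
      set w : ℝ → ℝ := fun t => ∫ ω, H.indicator (fun _ => (1 : ℝ)) ω *
        Zg P f S (fun p => f p ω) t ∂P with hw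
      have ind01 : ∀ (A : Set Ω) (ω : Ω), 0 ≤ A.indicator (fun _ => (1 : ℝ)) ω ∧
          A.indicator (fun _ => (1 : ℝ)) ω ≤ 1 := by
        intro A ω
        by_cases hA : ω ∈ A
        · rw [Set.indicator_of_mem hA]; simp
        · rw [Set.indicator_of_notMem hA]; simp
      have hle1 : ∀ (A : Set Ω) (S' : Finset ℕ), MeasurableSet A → (∀ p ∈ S', 1 ≤ p) → ∀ t,
          0 ≤ ∫ ω, A.indicator (fun _ => (1 : ℝ)) ω * Zg P f S' (fun p => f p ω) t ∂P ∧
          ∫ ω, A.indicator (fun _ => (1 : ℝ)) ω * Zg P f S' (fun p => f p ω) t ∂P ≤ 1 := by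
        intro A S' hA hS' t
        have iZ : Integrable (fun ω => Zg P f S' (fun p => f p ω) t) P := by
          refine bint ((Zg_measg S' t).comp (measurable_pi_lambda _ fun p => h.meas p))
            (C := 4 ^ S'.card) fun ω => ?_
          rw [abs_of_nonneg (Zg_nonneg _ _ _)]
          exact Zg_le S' (fun p => h.bdd p ω) t
        refine ⟨integral_nonneg fun ω => mul_nonneg (ind01 A ω).1 (Zg_nonneg _ _ _), ?_⟩
        calc ∫ ω, A.indicator (fun _ => (1 : ℝ)) ω * Zg P f S' (fun p => f p ω) t ∂P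
            ≤ ∫ ω, Zg P f S' (fun p => f p ω) t ∂P := by
              refine integral_mono_of_nonneg (ae_of_all _ fun ω =>
                mul_nonneg (ind01 A ω).1 (Zg_nonneg _ _ _)) iZ (ae_of_all _ fun ω => ?_)
              exact mul_le_of_le_one_left (Zg_nonneg _ _ _) (ind01 A ω).2
          _ = 1 := int_Zg h S' hS' t
      have hprod : ∀ t, ∫ ω, (G ∩ H).indicator (fun _ => (1 : ℝ)) ω *
          Zg P f (PP b) (fun p => f p ω) t ∂P = q t * w t := by
        intro t
        have e1 : ∀ ω, (G ∩ H).indicator (fun _ => (1 : ℝ)) ω * Zg P f (PP b) (fun p => f p ω) t =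
            (G.indicator (fun _ => (1 : ℝ)) ω * Zg P f (PP N) (fun p => f p ω) t) *
            (H.indicator (fun _ => (1 : ℝ)) ω * Zg P f S (fun p => f p ω) t) := by
          intro ω
          rw [hdecomp]
          by_cases hg : ω ∈ G <;> by_cases hh : ω ∈ H
          · rw [Set.indicator_of_mem (show ω ∈ G ∩ H from ⟨hg, hh⟩), Set.indicator_of_mem hg,
              Set.indicator_of_mem hh]; ring
          · rw [Set.indicator_of_notMem (show ω ∉ G ∩ H from fun hc => hh hc.2),
              Set.indicator_of_notMem hh]; ring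
          · rw [Set.indicator_of_notMem (show ω ∉ G ∩ H from fun hc => hg hc.1),
              Set.indicator_of_notMem hg]; ring
          · rw [Set.indicator_of_notMem (show ω ∉ G ∩ H from fun hc => hg hc.1),
              Set.indicator_of_notMem hg]; ring
        simp_rw [e1]
        have hdis : Disjoint {p : ℕ | p ≤ N} (S : Set ℕ) := by
          rw [Set.disjoint_left]
          intro p hp hp2
          have := hSN p hp2
          exact absurd hp (not_le.2 this)
        refine indep_int (mS_le h _) (mS_le h _) (indep_mS h hdis) ?_ ?_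
        · refine Measurable.mul ?_ ?_
          · exact Measurable.indicator (m := mS f {p | p ≤ N}) measurable_const hG
          · exact dep_meas (Zg_measg (PP N) t)
              fun g g' hg => Zg_dep (PP N) t g g' fun p hp => hg p (mem_PP.1 hp).2
        · refine Measurable.mul ?_ ?_
          · exact Measurable.indicator (m := mS f (S : Set ℕ)) measurable_const hHm
          · exact dep_meas (Zg_measg S t) (Zg_dep S t)
      simp_rw [hprod]
      obtain ⟨hBm, hBs⟩ := hbad S hSp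
      set Bad : Set ℝ := {t : ℝ | ¬ (|t| ≤ T ∧ ‖∑ p ∈ S, bb P f p t‖ ≤ R)} with hBad
      have iq : Integrable q nu :=
        (Zg_int_prod h (PP N) hG').integral_prod_right
      have hqw : ∀ t, q t * w t ≤ (1 - 1 / 576) * q t + 1 / 576 * Bad.indicator (fun _ => (1 : ℝ)) t := by
        intro t
        obtain ⟨q0, q1⟩ := hle1 G (PP N) hG' (fun p hp => PP_pos hp) t
        obtain ⟨w0, w1⟩ := hle1 H S hHm' (fun p hp => (hSp p hp).one_lt.le) t
        by_cases ht : t ∈ Bad
        · rw [Set.indicator_of_mem ht]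
          have h1 : q t * w t ≤ q t := mul_le_of_le_one_right q0 w1
          have h2 : q t ≤ 1 := q1
          linarith
        · rw [Set.indicator_of_notMem ht]
          have ht' : |t| ≤ T ∧ ‖∑ p ∈ S, bb P f p t‖ ≤ R := not_not.1 ht
          have h1 : w t ≤ 1 - 1 / 576 := hb t ht'.1 ht'.2 H hHm' fun ω hω => hω
          have h2 : q t * w t ≤ q t * (1 - 1 / 576) := mul_le_mul_of_nonneg_left h1 q0
          linarith
      have iB : Integrable (Bad.indicator (fun _ => (1 : ℝ))) nu :=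
        (integrable_const _).indicator hBm
      calc ∫ t, q t * w t ∂nu ≤ ∫ t, ((1 - 1 / 576) * q t + 1 / 576 *
            Bad.indicator (fun _ => (1 : ℝ)) t) ∂nu := by
            refine integral_mono_of_nonneg (ae_of_all _ fun t => ?_)
              ((iq.const_mul _).add (iB.const_mul _)) (ae_of_all _ hqw)
            exact mul_nonneg (hle1 G (PP N) hG' (fun p hp => PP_pos hp) t).1
              (hle1 H S hHm' (fun p hp => (hSp p hp).one_lt.le) t).1
        _ = (1 - 1 / 576) * (∫ t, q t ∂nu) + 1 / 576 * nu.real Bad := by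
            rw [integral_add (iq.const_mul _) (iB.const_mul _), integral_const_mul,
              integral_const_mul, integral_indicator_const _ hBm, smul_eq_mul, mul_one]
        _ ≤ (1 - 1 / 576) * (η + (1 - 1 / 576) ^ J) + 1 / 576 * η := by
            have : (0 : ℝ) ≤ 1 - 1 / 576 := by norm_num
            exact add_le_add (mul_le_mul_of_nonneg_left hI this)
              (mul_le_mul_of_nonneg_left hBs (by norm_num))
        _ = η + (1 - 1 / 576) ^ (J + 1) := by ring

/-- on the event that the martingale is bounded by `K` the lower limit is zero -/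
theorem liminf_zero (h : Model P f) {D : ℝ} (hD : ∀ S : Finset ℕ, (∀ p ∈ S, p.Prime) →
      ∑ p ∈ S, (1 - sg P f p) / p ≤ D) (K : ℝ) :
    ∀ᵐ ω ∂P, (∀ n, Wg P f (PP n) (fun p => f p ω) ≤ K) →
      liminf (fun n => ENNReal.ofReal (Wg P f (PP n) (fun p => f p ω))) atTop = 0 := by
  set E : Set Ω := {ω | ∀ n, Wg P f (PP n) (fun p => f p ω) ≤ K} with hE
  have hWm : ∀ n, Measurable fun ω => Wg P f (PP n) (fun p => f p ω) := fun n =>
    (Wg_meas (PP n)).comp (measurable_pi_lambda _ fun p => h.meas p)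
  have hEm : MeasurableSet E := by
    have : E = ⋂ n, {ω | Wg P f (PP n) (fun p => f p ω) ≤ K} := by
      ext ω; simp [hE]
    rw [this]
    exact MeasurableSet.iInter fun n => measurableSet_le (hWm n) measurable_const
  have h1 : ∫⁻ ω in E, liminf (fun n => ENNReal.ofReal (Wg P f (PP n) (fun p => f p ω))) atTop ∂P = 0 := by
    refine le_antisymm ?_ zero_le
    refine (lintegral_liminf_le fun n => (hWm n).ennreal_ofReal).trans ?_
    refine le_of_forall_pos_le_add fun ε hε => ?_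
    rw [zero_add]
    -- choose a real number below `ε`
    obtain ⟨η, hη0, hηε⟩ : ∃ η : ℝ, 0 < η ∧ ENNReal.ofReal (2 * η) ≤ ε := by
      rcases eq_or_ne ε ⊤ with rfl | hne
      · exact ⟨1, one_pos, le_top⟩
      · refine ⟨ε.toReal / 2, ?_, ?_⟩
        · have := ENNReal.toReal_pos hε.ne' hne
          linarith
        · have : 2 * (ε.toReal / 2) = ε.toReal := by ring
          rw [this, ENNReal.ofReal_toReal hne]
    refine liminf_le_of_frequently_le' ?_
    rw [frequently_atTop]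
    intro M
    -- large `J`
    have hpow : Tendsto (fun J : ℕ => ((1 : ℝ) - 1 / 576) ^ J) atTop (𝓝 0) :=
      tendsto_pow_atTop_nhds_zero_of_lt_one (by norm_num) (by norm_num)
    obtain ⟨J, hJ, hJM⟩ := ((hpow.eventually_le_const hη0).and (eventually_ge_atTop M)).exists
    obtain ⟨N, hJN, G, hG, hGE, hI⟩ := iter h hD K hη0 J
    have hG' : MeasurableSet G := mS_le h _ _ hG
    refine ⟨N, by omega, ?_⟩
    have e1 : ∫⁻ ω in E, ENNReal.ofReal (Wg P f (PP N) (fun p => f p ω)) ∂P ≤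
        ∫⁻ ω in G, ENNReal.ofReal (Wg P f (PP N) (fun p => f p ω)) ∂P :=
      lintegral_mono_set fun ω hω => hGE ω hω
    refine e1.trans ?_
    rw [← ofReal_integral_eq_lintegral_ofReal (Wg_int h (PP N)).integrableOn
      (ae_of_all _ fun ω => Wg_nonneg _ _), set_Wg h _ hG']
    refine le_trans (ENNReal.ofReal_le_ofReal ?_) hηε
    linarith
  have h2 : Measurable fun ω => liminf (fun n =>
      ENNReal.ofReal (Wg P f (PP n) (fun p => f p ω))) atTop :=
    Measurable.liminf fun n => (hWm n).ennreal_ofReal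
  rw [lintegral_eq_zero_iff h2, EventuallyEq, ae_restrict_iff' hEm] at h1
  filter_upwards [h1] with ω hω hb
  exact hω hb

/-- **the martingale tends to zero** -/
theorem Wg_zero (h : Model P f) {D : ℝ} (hD : ∀ S : Finset ℕ, (∀ p ∈ S, p.Prime) →
      ∑ p ∈ S, (1 - sg P f p) / p ≤ D) :
    ∀ᵐ ω ∂P, Tendsto (fun N => Wg P f (PP N) (fun p => f p ω)) atTop (𝓝 0) := by
  have h1 : ∀ᵐ ω ∂P, ∀ K : ℕ, (∀ n, Wg P f (PP n) (fun p => f p ω) ≤ K) →
      liminf (fun n => ENNReal.ofReal (Wg P f (PP n) (fun p => f p ω))) atTop = 0 :=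
    ae_all_iff.2 fun K => liminf_zero h hD K
  filter_upwards [h1, Wg_conv h] with ω h2 ⟨c, hc⟩
  obtain ⟨B, hB⟩ := hc.bddAbove_range
  obtain ⟨K, hK⟩ := exists_nat_ge B
  have h3 := h2 K fun n => (hB ⟨n, rfl⟩).trans hK
  have h4 := (ENNReal.continuous_ofReal.tendsto c).comp hc
  have h5 : liminf (fun n => ENNReal.ofReal (Wg P f (PP n) (fun p => f p ω))) atTop =
      ENNReal.ofReal c := h4.liminf_eq
  rw [h5, ENNReal.ofReal_eq_zero] at h3
  have h6 : 0 ≤ c := ge_of_tendsto' hc fun n => Wg_nonneg _ _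
  have : c = 0 := le_antisymm h3 h6
  rw [this] at hc
  exact hc

end Pool.Agent.U585.RM
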