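import Pool.Agent.U585.RM.One

/-!
# One factor: means under the tilted law
-/

set_option autoImplicit false

open MeasureTheory Filter Topology

namespace Pool.Agent.U585.RM

variable {Ω : Type} [MeasurableSpace Ω] {P : Measure Ω} [IsProbabilityMeasure P]

lemma bint {X : Ω → ℝ} (hm : Measurable X) {C : ℝ} (hb : ∀ ω, |X ω| ≤ C) : Integrable X P :=
  Integrable.mono' (g := fun _ => C) (integrable_const _) hm.aestronglyMeasurable
    (ae_of_all _ fun ω => hb ω)

/-- the hypotheses on one factor -/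
structure Fac (P : Measure Ω) (a : Ω → ℂ) (k r : ℝ) : Prop where
  meas : Measurable a
  bdd : ∀ ω, ‖a ω‖ ≤ k
  k0 : 0 ≤ k
  k1 : k ≤ 3 / 4
  mean : ∫ ω, a ω ∂P = 0
  r0 : 0 ≤ r
  r1 : r ≤ 1

/-- the variance -/
noncomputable def vs (P : Measure Ω) (a : Ω → ℂ) : ℝ := ∫ ω, ‖a ω‖ ^ 2 ∂P

/-- the mean of the square -/
noncomputable def vb (P : Measure Ω) (a : Ω → ℂ) : ℂ := ∫ ω, a ω ^ 2 ∂P

/-- the density of the tilt -/
noncomputable def tz (P : Measure Ω) (a : Ω → ℂ) (ω : Ω) : ℝ := ‖1 + a ω‖ ^ 2 / (1 + vs P a)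

/-- the logarithm of the shifted factor -/
noncomputable def tx (a : Ω → ℂ) (r : ℝ) (ω : Ω) : ℝ := Real.log (‖1 + a ω * r‖ ^ 2)

/-- its mean under the tilted law -/
noncomputable def te (P : Measure Ω) (a : Ω → ℂ) (r : ℝ) : ℝ := ∫ ω, tz P a ω * tx a r ω ∂P

variable {a : Ω → ℂ} {k r : ℝ}

lemma vs_nonneg : 0 ≤ vs P a := integral_nonneg fun ω => by positivity

lemma Fac.b34 (h : Fac P a k r) (ω : Ω) : ‖a ω‖ ≤ 3 / 4 := (h.bdd ω).trans h.k1

lemma Fac.sq_le (h : Fac P a k r) (ω : Ω) : ‖a ω‖ ^ 2 ≤ k ^ 2 :=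
  pow_le_pow_left₀ (norm_nonneg _) (h.bdd ω) 2

lemma Fac.cube_le (h : Fac P a k r) (ω : Ω) : ‖a ω‖ ^ 3 ≤ k ^ 3 :=
  pow_le_pow_left₀ (norm_nonneg _) (h.bdd ω) 3

lemma Fac.int_a (h : Fac P a k r) : Integrable a P :=
  Integrable.mono' (g := fun _ => k) (integrable_const _) h.meas.aestronglyMeasurable
    (ae_of_all _ fun ω => h.bdd ω)

lemma Fac.int_a2 (h : Fac P a k r) : Integrable (fun ω => a ω ^ 2) P :=
  Integrable.mono' (g := fun _ => k ^ 2) (integrable_const _) (h.meas.pow_const 2).aestronglyMeasurable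
    (ae_of_all _ fun ω => by rw [norm_pow]; exact h.sq_le ω)

lemma Fac.int_n2 (h : Fac P a k r) : Integrable (fun ω => ‖a ω‖ ^ 2) P :=
  bint (h.meas.norm.pow_const 2) (C := k ^ 2) fun ω => by
    rw [abs_of_nonneg (by positivity)]; exact h.sq_le ω

lemma Fac.vs_le (h : Fac P a k r) : vs P a ≤ k ^ 2 := by
  unfold vs
  calc ∫ ω, ‖a ω‖ ^ 2 ∂P ≤ ∫ _, k ^ 2 ∂P :=
        integral_mono h.int_n2 (integrable_const _) fun ω => h.sq_le ω
    _ = k ^ 2 := by simp

lemma Fac.int_re (h : Fac P a k r) : ∫ ω, (a ω).re ∂P = 0 := by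
  have h2 := integral_re h.int_a
  simp only [RCLike.re_to_complex] at h2
  rw [h2, h.mean, Complex.zero_re]

lemma Fac.int_re2 (h : Fac P a k r) : ∫ ω, (a ω ^ 2).re ∂P = (vb P a).re := by
  have h2 := integral_re h.int_a2
  simp only [RCLike.re_to_complex] at h2
  rw [h2]; rfl

lemma Fac.vb_le (h : Fac P a k r) : |(vb P a).re| ≤ vs P a := by
  rw [← h.int_re2]
  refine (abs_integral_le_integral_abs).trans ?_
  refine integral_mono (bint (Complex.measurable_re.comp (h.meas.pow_const 2)) (C := k ^ 2) ?_).abs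
    h.int_n2 fun ω => abs_re_sq_le _
  intro ω
  exact (abs_re_sq_le _).trans (h.sq_le ω)

lemma tz_meas (h : Fac P a k r) : Measurable (tz P a) := by
  unfold tz
  exact ((measurable_const.add h.meas).norm.pow_const 2).div_const _

lemma tz_nonneg (ω : Ω) : 0 ≤ tz P a ω := by
  unfold tz
  have := vs_nonneg (P := P) (a := a)
  positivity

lemma Fac.norm4 (h : Fac P a k r) (ω : Ω) : ‖1 + a ω‖ ^ 2 ≤ 4 := by
  have h1 : ‖1 + a ω‖ ≤ 2 := by
    refine (norm_add_le _ _).trans ?_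
    rw [norm_one]
    linarith [h.b34 ω]
  nlinarith [norm_nonneg (1 + a ω)]

lemma tz_le (h : Fac P a k r) (ω : Ω) : tz P a ω ≤ 4 := by
  unfold tz
  have := vs_nonneg (P := P) (a := a)
  exact (div_le_self (by positivity) (by linarith)).trans (h.norm4 ω)

lemma tx_meas (h : Fac P a k r) : Measurable (tx a r) := by
  unfold tx
  exact Real.measurable_log.comp ((measurable_const.add (h.meas.mul_const _)).norm.pow_const 2)

lemma tx_le (h : Fac P a k r) (ω : Ω) : |tx a r ω| ≤ 6 * k :=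
  (xi_abs (h.b34 ω) h.r0 h.r1).2.trans (by linarith [h.bdd ω])

lemma int_tz (h : Fac P a k r) : ∫ ω, tz P a ω ∂P = 1 := by
  unfold tz
  have hs := vs_nonneg (P := P) (a := a)
  rw [integral_div, div_eq_one_iff_eq (by linarith)]
  have e : ∀ ω, ‖1 + a ω‖ ^ 2 = (1 + 2 * (a ω).re) + ‖a ω‖ ^ 2 := by
    intro ω
    rw [← Complex.normSq_eq_norm_sq, ← Complex.normSq_eq_norm_sq, Complex.normSq_add]
    simp
    ring
  simp_rw [e]
  have i0 : Integrable (fun ω => (a ω).re) P := h.int_a.re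
  have i1 : Integrable (fun ω => 1 + 2 * (a ω).re) P := (integrable_const _).add (i0.const_mul 2)
  rw [integral_add i1 h.int_n2, integral_add (integrable_const _) (i0.const_mul 2),
    integral_const_mul, h.int_re]
  unfold vs
  simp

/-- the mean of the logarithm under the tilted law -/
theorem te_bounds (h : Fac P a k r) :
    |te P a r| ≤ 20 * k ^ 2 ∧
    2 * vs P a + (vb P a).re - 3 * (1 - r) * k ^ 2 - 37 * k ^ 3 ≤ te P a r := by
  have hs0 := vs_nonneg (P := P) (a := a)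
  have hs1 := h.vs_le
  have hb := h.vb_le
  have hk0 := h.k0
  have hk1 := h.k1
  have hr0 := h.r0
  have hr1 := h.r1
  set s := vs P a with hs
  set β := (vb P a).re with hβ
  set X := ∫ ω, ‖1 + a ω‖ ^ 2 * tx a r ω ∂P with hX
  have hte : te P a r = X / (1 + s) := by
    unfold te tz
    rw [hX, ← integral_div]
    refine integral_congr_ae (ae_of_all _ fun ω => ?_)
    beta_reduce
    rw [div_mul_eq_mul_div]
  have i0 : Integrable (fun ω => (a ω).re) P := h.int_a.re
  have i2 : Integrable (fun ω => (a ω ^ 2).re) P := h.int_a2.re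
  have iX : Integrable (fun ω => ‖1 + a ω‖ ^ 2 * tx a r ω) P := by
    refine bint (((measurable_const.add h.meas).norm.pow_const 2).mul (tx_meas h))
      (C := 4 * (6 * k)) fun ω => ?_
    rw [abs_mul, abs_of_nonneg (by positivity)]
    exact mul_le_mul (h.norm4 ω) (tx_le h ω) (abs_nonneg _) (by norm_num)
  have iM : Integrable (fun ω => 2 * r * (a ω).re + 2 * r * ‖a ω‖ ^ 2 +
      (2 * r - r ^ 2) * (a ω ^ 2).re) P :=
    ((i0.const_mul _).add (h.int_n2.const_mul _)).add (i2.const_mul _)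
  have hM : ∫ ω, (2 * r * (a ω).re + 2 * r * ‖a ω‖ ^ 2 + (2 * r - r ^ 2) * (a ω ^ 2).re) ∂P =
      2 * r * s + (2 * r - r ^ 2) * β := by
    have i3 : Integrable (fun ω => 2 * r * (a ω).re + 2 * r * ‖a ω‖ ^ 2) P :=
      (i0.const_mul _).add (h.int_n2.const_mul _)
    rw [integral_add i3 (i2.const_mul _),
      integral_add (i0.const_mul _) (h.int_n2.const_mul _), integral_const_mul, integral_const_mul,
      integral_const_mul, h.int_re, h.int_re2]
    rw [hs, hβ]
    unfold vs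
    ring
  have h1 : |X - (2 * r * s + (2 * r - r ^ 2) * β)| ≤ 17 * k ^ 3 := by
    rw [← hM, hX, ← integral_sub iX iM]
    refine (abs_integral_le_integral_abs).trans ?_
    calc ∫ ω, |‖1 + a ω‖ ^ 2 * tx a r ω - (2 * r * (a ω).re + 2 * r * ‖a ω‖ ^ 2 +
          (2 * r - r ^ 2) * (a ω ^ 2).re)| ∂P ≤ ∫ _, 17 * k ^ 3 ∂P := by
          refine integral_mono (iX.sub iM).abs (integrable_const _) fun ω => ?_
          refine (xi_prod (h.b34 ω) h.r0 h.r1).trans ?_
          linarith [h.cube_le ω]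
      _ = 17 * k ^ 3 := by simp
  have q1 := abs_le.1 h1
  have q2 := abs_le.1 hb
  have hk3 : k ^ 3 ≤ 3 / 4 * k ^ 2 := by
    rw [pow_succ, mul_comm]; exact mul_le_mul_of_nonneg_right hk1 (by positivity)
  have hk30 : 0 ≤ k ^ 3 := by positivity
  have hk2 : 0 ≤ k ^ 2 := by positivity
  have hr2 : 0 ≤ 2 * r - r ^ 2 := by nlinarith
  have hr3 : 2 * r - r ^ 2 ≤ 1 := by nlinarith [sq_nonneg (1 - r)]
  have hX20 : |X| ≤ 20 * k ^ 2 := by
    have w1 : |(2 * r - r ^ 2) * β| ≤ k ^ 2 := by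
      rw [abs_mul, abs_of_nonneg hr2]
      calc (2 * r - r ^ 2) * |β| ≤ 1 * k ^ 2 :=
            mul_le_mul hr3 (hb.trans hs1) (abs_nonneg _) (by norm_num)
        _ = _ := one_mul _
    have w2 : 2 * r * s ≤ 2 * k ^ 2 := by
      calc 2 * r * s ≤ 2 * 1 * k ^ 2 := by gcongr
        _ = _ := by ring
    have w3 : 0 ≤ 2 * r * s := by positivity
    have w4 := abs_le.1 w1
    rw [abs_le]
    constructor <;> linarith [q1.1, q1.2, w4.1, w4.2]
  have hpos : 0 < 1 + s := by linarith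
  have hdiff : |X / (1 + s) - X| ≤ 20 * k ^ 3 := by
    have e : X / (1 + s) - X = -(X * (s / (1 + s))) := by field_simp; ring
    rw [e, abs_neg, abs_mul]
    have w : |s / (1 + s)| ≤ k ^ 2 := by
      rw [abs_of_nonneg (by positivity)]
      exact (div_le_self hs0 (by linarith)).trans hs1
    calc |X| * |s / (1 + s)| ≤ 20 * k ^ 2 * k ^ 2 := by gcongr
      _ = 20 * (k ^ 3 * k) := by ring
      _ ≤ 20 * (k ^ 3 * 1) := by gcongr; linarith
      _ = _ := by ring
  have q3 := abs_le.1 hdiff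
  refine ⟨?_, ?_⟩
  · rw [hte, abs_div, abs_of_pos hpos]
    exact (div_le_self (abs_nonneg _) (by linarith)).trans hX20
  · rw [hte]
    have w1 : 2 * s + β - 3 * (1 - r) * k ^ 2 ≤ 2 * r * s + (2 * r - r ^ 2) * β := by
      have w2 : 2 * (1 - r) * s ≤ 2 * (1 - r) * k ^ 2 := by
        have : 0 ≤ 1 - r := by linarith
        gcongr
      have w3 : (1 - r) ^ 2 * β ≤ (1 - r) * k ^ 2 := by
        have w4 : (1 - r) ^ 2 * β ≤ (1 - r) ^ 2 * k ^ 2 := by
          have : 0 ≤ (1 - r) ^ 2 := sq_nonneg _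
          exact mul_le_mul_of_nonneg_left (by linarith [q2.2]) this
        have w5 : (1 - r) ^ 2 ≤ 1 - r := by nlinarith
        nlinarith
      nlinarith
    linarith [q1.1, q3.1]

/-- the variance of the logarithm under the tilted law -/
theorem tv_bound (h : Fac P a k r) :
    2 * (vs P a + (vb P a).re) - 8 * (1 - r) * k ^ 2 - 700 * k ^ 3 ≤
      ∫ ω, tz P a ω * (tx a r ω - te P a r) ^ 2 ∂P := by
  have hs0 := vs_nonneg (P := P) (a := a)
  have hs1 := h.vs_le
  have hb := h.vb_le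
  have hk0 := h.k0
  have hk1 := h.k1
  have hr0 := h.r0
  have hr1 := h.r1
  obtain ⟨he, -⟩ := te_bounds h
  set e := te P a r with hedef
  set s := vs P a with hs
  set β := (vb P a).re with hβ
  have hxb : ∀ ω, |tx a r ω| ≤ 6 * k := tx_le h
  have iz : Integrable (tz P a) P := bint (tz_meas h) (C := 4) fun ω => by
    rw [abs_of_nonneg (tz_nonneg ω)]; exact tz_le h ω
  have izx : Integrable (fun ω => tz P a ω * tx a r ω) P :=
    bint ((tz_meas h).mul (tx_meas h)) (C := 4 * (6 * k)) fun ω => by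
      rw [abs_mul, abs_of_nonneg (tz_nonneg ω)]
      exact mul_le_mul (tz_le h ω) (hxb ω) (abs_nonneg _) (by norm_num)
  have izx2 : Integrable (fun ω => tz P a ω * tx a r ω ^ 2) P :=
    bint ((tz_meas h).mul ((tx_meas h).pow_const 2)) (C := 4 * (6 * k) ^ 2) fun ω => by
      rw [abs_mul, abs_of_nonneg (tz_nonneg ω), abs_pow]
      exact mul_le_mul (tz_le h ω) (pow_le_pow_left₀ (abs_nonneg _) (hxb ω) 2) (by positivity)
        (by norm_num)
  have e1 : ∫ ω, tz P a ω * (tx a r ω - e) ^ 2 ∂P = (∫ ω, tz P a ω * tx a r ω ^ 2 ∂P) - e ^ 2 := by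
    have e2 : ∀ ω, tz P a ω * (tx a r ω - e) ^ 2 =
        (tz P a ω * tx a r ω ^ 2 - 2 * e * (tz P a ω * tx a r ω)) + e ^ 2 * tz P a ω := by
      intro ω; ring
    simp_rw [e2]
    have i5 : Integrable (fun ω => tz P a ω * tx a r ω ^ 2 - 2 * e * (tz P a ω * tx a r ω)) P :=
      izx2.sub (izx.const_mul _)
    rw [integral_add i5 (iz.const_mul _), integral_sub izx2 (izx.const_mul _), integral_const_mul,
      integral_const_mul, int_tz h]
    have : ∫ ω, tz P a ω * tx a r ω ∂P = e := rfl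
    rw [this]
    ring
  rw [e1]
  set X := ∫ ω, ‖1 + a ω‖ ^ 2 * tx a r ω ^ 2 ∂P with hX
  have hpos : 0 < 1 + s := by linarith
  have hte : ∫ ω, tz P a ω * tx a r ω ^ 2 ∂P = X / (1 + s) := by
    unfold tz
    rw [hX, ← integral_div]
    refine integral_congr_ae (ae_of_all _ fun ω => ?_)
    beta_reduce
    rw [div_mul_eq_mul_div]
  have iX : Integrable (fun ω => ‖1 + a ω‖ ^ 2 * tx a r ω ^ 2) P := by
    refine bint (((measurable_const.add h.meas).norm.pow_const 2).mul ((tx_meas h).pow_const 2))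
      (C := 4 * (6 * k) ^ 2) fun ω => ?_
    rw [abs_mul, abs_of_nonneg (by positivity), abs_pow]
    exact mul_le_mul (h.norm4 ω) (pow_le_pow_left₀ (abs_nonneg _) (hxb ω) 2) (by positivity)
      (by norm_num)
  have i2 : Integrable (fun ω => (a ω ^ 2).re) P := h.int_a2.re
  have hk3 : k ^ 3 ≤ 3 / 4 * k ^ 2 := by
    rw [pow_succ, mul_comm]; exact mul_le_mul_of_nonneg_right hk1 (by positivity)
  have hk30 : 0 ≤ k ^ 3 := by positivity
  have hk2 : 0 ≤ k ^ 2 := by positivity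
  have lo : 2 * r ^ 2 * (s + β) - 140 * k ^ 3 ≤ X := by
    have i3 : Integrable (fun ω => 2 * r ^ 2 * (‖a ω‖ ^ 2 + (a ω ^ 2).re) - 140 * k ^ 3) P :=
      ((h.int_n2.add i2).const_mul _).sub (integrable_const _)
    have : ∫ ω, (2 * r ^ 2 * (‖a ω‖ ^ 2 + (a ω ^ 2).re) - 140 * k ^ 3) ∂P =
        2 * r ^ 2 * (s + β) - 140 * k ^ 3 := by
      have i4 : Integrable (fun ω => 2 * r ^ 2 * (‖a ω‖ ^ 2 + (a ω ^ 2).re)) P :=
        (h.int_n2.add i2).const_mul _
      rw [integral_sub i4 (integrable_const _), integral_const_mul, integral_add h.int_n2 i2,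
        h.int_re2]
      rw [hs, hβ]
      unfold vs
      simp
    rw [← this, hX]
    refine integral_mono i3 iX fun ω => ?_
    refine le_trans ?_ (xi_sq (h.b34 ω) h.r0 h.r1).1
    linarith [h.cube_le ω]
  have up : X ≤ 144 * k ^ 2 := by
    calc X ≤ ∫ _, 144 * k ^ 2 ∂P := by
          refine integral_mono iX (integrable_const _) fun ω => ?_
          refine (xi_sq (h.b34 ω) h.r0 h.r1).2.trans ?_
          linarith [h.sq_le ω]
      _ = _ := by simp
  have X0 : 0 ≤ X := integral_nonneg fun ω => by positivity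
  have hdiff : X - 144 * k ^ 3 ≤ X / (1 + s) := by
    have e : X / (1 + s) = X - X * (s / (1 + s)) := by field_simp; ring
    rw [e]
    have w : s / (1 + s) ≤ k ^ 2 := (div_le_self hs0 (by linarith)).trans hs1
    have w2 : X * (s / (1 + s)) ≤ 144 * k ^ 3 := by
      calc X * (s / (1 + s)) ≤ 144 * k ^ 2 * k ^ 2 := by gcongr
        _ = 144 * (k ^ 3 * k) := by ring
        _ ≤ 144 * (k ^ 3 * 1) := by gcongr; linarith
        _ = _ := by ring
    linarith
  have he2 : e ^ 2 ≤ 400 * k ^ 3 := by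
    have := pow_le_pow_left₀ (abs_nonneg _) he 2
    rw [sq_abs] at this
    calc e ^ 2 ≤ (20 * k ^ 2) ^ 2 := this
      _ = 400 * (k ^ 3 * k) := by ring
      _ ≤ 400 * (k ^ 3 * 1) := by gcongr; linarith
      _ = _ := by ring
  have q2 := abs_le.1 hb
  have w1 : 2 * (s + β) - 8 * (1 - r) * k ^ 2 ≤ 2 * r ^ 2 * (s + β) := by
    have w2 : 0 ≤ s + β := by linarith [q2.1]
    have w3 : s + β ≤ 2 * k ^ 2 := by linarith [q2.2]
    have w4 : 1 - r ^ 2 ≤ 2 * (1 - r) := by nlinarith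
    have w5 : (1 - r ^ 2) * (s + β) ≤ 2 * (1 - r) * (2 * k ^ 2) := by
      have : 0 ≤ 2 * (1 - r) := by linarith
      exact mul_le_mul w4 w3 w2 this
    nlinarith
  rw [hte]
  linarith

/-- the fourth moment -/
theorem tm_bound (h : Fac P a k r) :
    ∫ ω, tz P a ω * (tx a r ω - te P a r) ^ 4 ∂P ≤ 456976 * k ^ 3 := by
  obtain ⟨he, -⟩ := te_bounds h
  have hk0 := h.k0
  have hk1 := h.k1
  have hb : ∀ ω, |tx a r ω - te P a r| ≤ 26 * k := by
    intro ω
    refine (abs_sub _ _).trans ?_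
    have h1 := tx_le h ω
    have h2 : 20 * k ^ 2 ≤ 20 * k := by nlinarith
    linarith
  have hb4 : ∀ ω, (tx a r ω - te P a r) ^ 4 ≤ 456976 * k ^ 3 := by
    intro ω
    have := pow_le_pow_left₀ (abs_nonneg _) (hb ω) 4
    rw [Even.pow_abs (by decide)] at this
    calc (tx a r ω - te P a r) ^ 4 ≤ (26 * k) ^ 4 := this
      _ = 456976 * (k ^ 3 * k) := by ring
      _ ≤ 456976 * (k ^ 3 * 1) := by gcongr; linarith
      _ = _ := by ring
  have iz : Integrable (tz P a) P := bint (tz_meas h) (C := 4) fun ω => by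
    rw [abs_of_nonneg (tz_nonneg ω)]; exact tz_le h ω
  calc ∫ ω, tz P a ω * (tx a r ω - te P a r) ^ 4 ∂P ≤ ∫ ω, tz P a ω * (456976 * k ^ 3) ∂P := by
        refine integral_mono ?_ (iz.mul_const _) fun ω => ?_
        · refine bint ((tz_meas h).mul (((tx_meas h).sub_const _).pow_const 4))
            (C := 4 * (456976 * k ^ 3)) fun ω => ?_
          rw [abs_mul, abs_of_nonneg (tz_nonneg ω), abs_of_nonneg (by positivity)]
          exact mul_le_mul (tz_le h ω) (hb4 ω) (by positivity) (by norm_num)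
        · exact mul_le_mul_of_nonneg_left (hb4 ω) (tz_nonneg ω)
    _ = _ := by rw [integral_mul_const, int_tz h, one_mul]

lemma te_zero (h : Fac P a k r) : ∫ ω, tz P a ω * (tx a r ω - te P a r) ∂P = 0 := by
  have hxb : ∀ ω, |tx a r ω| ≤ 6 * k := tx_le h
  have iz : Integrable (tz P a) P := bint (tz_meas h) (C := 4) fun ω => by
    rw [abs_of_nonneg (tz_nonneg ω)]; exact tz_le h ω
  have izx : Integrable (fun ω => tz P a ω * tx a r ω) P :=
    bint ((tz_meas h).mul (tx_meas h)) (C := 4 * (6 * k)) fun ω => by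
      rw [abs_mul, abs_of_nonneg (tz_nonneg ω)]
      exact mul_le_mul (tz_le h ω) (hxb ω) (abs_nonneg _) (by norm_num)
  simp_rw [mul_sub]
  rw [integral_sub izx (iz.mul_const _), integral_mul_const, int_tz h, one_mul]
  exact sub_self _

lemma tx_dev (h : Fac P a k r) (ω : Ω) : |tx a r ω - te P a r| ≤ 20 := by
  obtain ⟨he, -⟩ := te_bounds h
  have hk0 := h.k0
  have hk1 := h.k1
  refine (abs_sub _ _).trans ?_
  have h1 := tx_le h ω
  have h2 : 20 * k ^ 2 ≤ 20 * (3 / 4) ^ 2 := by gcongr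
  linarith

end Pool.Agent.U585.RM
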