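import Pool.Agent.U585.RM.Prob
import Pool.Agent.U585.RM.OneE

/-!
# Moments of sums under a product tilt, anticoncentration
-/

set_option autoImplicit false
set_option linter.unusedSectionVars false

open MeasureTheory Filter Topology ProbabilityTheory

namespace Pool.Agent.U585.RM

variable {Ω : Type} [mΩ : MeasurableSpace Ω] {P : Measure Ω} [IsProbabilityMeasure P]
  {f : ℕ → Ω → ℂ}

lemma ia {X Y : Ω → ℝ} (hX : Integrable X P) (hY : Integrable Y P) :
    Integrable (fun ω => X ω + Y ω) P := hX.add hY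

lemma isb {X Y : Ω → ℝ} (hX : Integrable X P) (hY : Integrable Y P) :
    Integrable (fun ω => X ω - Y ω) P := hX.sub hY

/-- factors: densities `A` and centred variables `B` -/
structure Facs (P : Measure Ω) (f : ℕ → Ω → ℂ) (A B : ℕ → ℂ → ℝ) (V M : ℕ → ℝ) (S : Finset ℕ) :
    Prop where
  mA : ∀ p ∈ S, Measurable (A p)
  mB : ∀ p ∈ S, Measurable (B p)
  A0 : ∀ p ∈ S, ∀ z, 0 ≤ A p z
  A4 : ∀ p ∈ S, ∀ z, ‖z‖ ≤ 1 → A p z ≤ 4
  B20 : ∀ p ∈ S, ∀ z, ‖z‖ ≤ 1 → |B p z| ≤ 20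
  m0 : ∀ p ∈ S, ∫ ω, A p (f p ω) ∂P = 1
  m1 : ∀ p ∈ S, ∫ ω, A p (f p ω) * B p (f p ω) ∂P = 0
  m2 : ∀ p ∈ S, ∫ ω, A p (f p ω) * B p (f p ω) ^ 2 ∂P = V p
  m4 : ∀ p ∈ S, ∫ ω, A p (f p ω) * B p (f p ω) ^ 4 ∂P ≤ M p

variable {A B : ℕ → ℂ → ℝ} {V M : ℕ → ℝ}

/-- the product of the densities -/
def ZA (A : ℕ → ℂ → ℝ) (S : Finset ℕ) (g : ℕ → ℂ) : ℝ := ∏ p ∈ S, A p (g p)

/-- the sum of the variables -/
def YB (B : ℕ → ℂ → ℝ) (S : Finset ℕ) (g : ℕ → ℂ) : ℝ := ∑ p ∈ S, B p (g p)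

lemma ZA_meas {S : Finset ℕ} (h : ∀ p ∈ S, Measurable (A p)) : Measurable (ZA A S) := by
  unfold ZA
  exact Finset.measurable_fun_prod _ fun p hp => (h p hp).comp (measurable_pi_apply p)

lemma YB_meas {S : Finset ℕ} (h : ∀ p ∈ S, Measurable (B p)) : Measurable (YB B S) := by
  unfold YB
  exact Finset.measurable_fun_sum _ fun p hp => (h p hp).comp (measurable_pi_apply p)

lemma ZA_dep (S : Finset ℕ) : Dep (S : Set ℕ) (ZA A S) := by
  intro g g' h
  unfold ZA
  exact Finset.prod_congr rfl fun p hp => by rw [h p hp]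

lemma YB_dep (S : Finset ℕ) : Dep (S : Set ℕ) (YB B S) := by
  intro g g' h
  unfold YB
  exact Finset.sum_congr rfl fun p hp => by rw [h p hp]

lemma Facs.Z0 {S : Finset ℕ} (h : Facs P f A B V M S) (g : ℕ → ℂ) : 0 ≤ ZA A S g :=
  Finset.prod_nonneg fun p hp => h.A0 p hp _

lemma Facs.Zle {S : Finset ℕ} (h : Facs P f A B V M S) {g : ℕ → ℂ} (hg : ∀ p, ‖g p‖ ≤ 1) :
    ZA A S g ≤ 4 ^ S.card := by
  unfold ZA
  refine (Finset.prod_le_prod (fun p hp => h.A0 p hp _) fun p hp => h.A4 p hp _ (hg p)).trans ?_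
  rw [Finset.prod_const]

lemma Facs.Yle {S : Finset ℕ} (h : Facs P f A B V M S) {g : ℕ → ℂ} (hg : ∀ p, ‖g p‖ ≤ 1) :
    |YB B S g| ≤ 20 * S.card := by
  unfold YB
  refine (Finset.abs_sum_le_sum_abs _ _).trans ?_
  refine (Finset.sum_le_sum fun p hp => h.B20 p hp _ (hg p)).trans ?_
  rw [Finset.sum_const, nsmul_eq_mul, mul_comm]

lemma Facs.mk' {S : Finset ℕ} (h : Facs P f A B V M S) (k : ℕ) :
    Measurable fun g => ZA A S g * YB B S g ^ k :=
  (ZA_meas h.mA).mul ((YB_meas h.mB).pow_const k)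

lemma Facs.dk (S : Finset ℕ) (k : ℕ) : Dep (S : Set ℕ) fun g => ZA A S g * YB B S g ^ k := by
  intro g g' hg
  beta_reduce
  rw [ZA_dep S g g' hg, YB_dep S g g' hg]

lemma Facs.intk {S : Finset ℕ} (h : Facs P f A B V M S) (hM : Model P f) (k : ℕ) :
    Integrable (fun ω => ZA A S (fun p => f p ω) * YB B S (fun p => f p ω) ^ k) P := by
  refine bint ((h.mk' k).comp (measurable_pi_lambda _ fun p => hM.meas p))
    (C := 4 ^ S.card * (20 * S.card) ^ k) fun ω => ?_
  have hb : ∀ p, ‖(fun p => f p ω) p‖ ≤ 1 := fun p => hM.bdd p ω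
  rw [abs_mul, abs_of_nonneg (h.Z0 _), abs_pow]
  exact mul_le_mul (h.Zle hb) (pow_le_pow_left₀ (abs_nonneg _) (h.Yle hb) k) (by positivity)
    (by positivity)

lemma Facs.sub {S T : Finset ℕ} (h : Facs P f A B V M S) (hT : T ⊆ S) : Facs P f A B V M T where
  mA p hp := h.mA p (hT hp)
  mB p hp := h.mB p (hT hp)
  A0 p hp := h.A0 p (hT hp)
  A4 p hp := h.A4 p (hT hp)
  B20 p hp := h.B20 p (hT hp)
  m0 p hp := h.m0 p (hT hp)
  m1 p hp := h.m1 p (hT hp)
  m2 p hp := h.m2 p (hT hp)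
  m4 p hp := h.m4 p (hT hp)

/-- the first moments of the sum under the product tilt -/
theorem moments (hM : Model P f) (S : Finset ℕ) (h : Facs P f A B V M S) :
    (∫ ω, ZA A S (fun p => f p ω) * YB B S (fun p => f p ω) ^ 0 ∂P = 1) ∧
    (∫ ω, ZA A S (fun p => f p ω) * YB B S (fun p => f p ω) ^ 1 ∂P = 0) ∧
    (∫ ω, ZA A S (fun p => f p ω) * YB B S (fun p => f p ω) ^ 2 ∂P = ∑ p ∈ S, V p) ∧
    (∫ ω, ZA A S (fun p => f p ω) * YB B S (fun p => f p ω) ^ 4 ∂P ≤
      3 * (∑ p ∈ S, V p) ^ 2 + ∑ p ∈ S, M p) := by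
  classical
  induction S using Finset.induction_on with
  | empty => simp [ZA, YB]
  | insert p S hp ih =>
    have hS := h.sub (Finset.subset_insert p S)
    have hp1 := h.sub (Finset.singleton_subset_iff.2 (Finset.mem_insert_self p S))
    obtain ⟨i0, i1, i2, i4⟩ := ih hS
    have hdis : Disjoint (S : Set ℕ) (({p} : Finset ℕ) : Set ℕ) := by
      rw [Finset.disjoint_coe]; simpa using hp
    -- the product rule
    have rule : ∀ k j : ℕ, ∫ ω, (ZA A S (fun p => f p ω) * YB B S (fun p => f p ω) ^ k) *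
        (ZA A {p} (fun p => f p ω) * YB B {p} (fun p => f p ω) ^ j) ∂P =
        (∫ ω, ZA A S (fun p => f p ω) * YB B S (fun p => f p ω) ^ k ∂P) *
        ∫ ω, ZA A {p} (fun p => f p ω) * YB B {p} (fun p => f p ω) ^ j ∂P := fun k j =>
      int_mul hM hdis (Φ := fun g => ZA A S g * YB B S g ^ k)
        (Ψ := fun g => ZA A {p} g * YB B {p} g ^ j) (hS.mk' k) (Facs.dk S k) (hp1.mk' j)
        (Facs.dk {p} j)
    have rint : ∀ k j : ℕ, Integrable (fun ω => (ZA A S (fun p => f p ω) *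
        YB B S (fun p => f p ω) ^ k) *
        (ZA A {p} (fun p => f p ω) * YB B {p} (fun p => f p ω) ^ j)) P := by
      intro k j
      refine bint (((hS.mk' k).mul (hp1.mk' j)).comp (measurable_pi_lambda _ fun p => hM.meas p))
        (C := (4 ^ S.card * (20 * S.card) ^ k) *
          (4 ^ ({p} : Finset ℕ).card * (20 * ({p} : Finset ℕ).card) ^ j)) fun ω => ?_
      have hb : ∀ p, ‖(fun p => f p ω) p‖ ≤ 1 := fun p => hM.bdd p ω
      rw [abs_mul, abs_mul, abs_mul, abs_of_nonneg (hS.Z0 _), abs_of_nonneg (hp1.Z0 _), abs_pow,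
        abs_pow]
      have a1 := hS.Zle hb
      have a2 := hp1.Zle hb
      have a3 := pow_le_pow_left₀ (abs_nonneg _) (hS.Yle hb) k
      have a4 := pow_le_pow_left₀ (abs_nonneg _) (hp1.Yle hb) j
      have b1 := hS.Z0 (fun p => f p ω)
      have b2 := hp1.Z0 (fun p => f p ω)
      exact mul_le_mul (mul_le_mul a1 a3 (by positivity) (by positivity))
        (mul_le_mul a2 a4 (by positivity) (by positivity)) (by positivity) (by positivity)
    have s1 : ∀ ω, ZA A {p} (fun p => f p ω) = A p (f p ω) := fun ω => by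
      unfold ZA; rw [Finset.prod_singleton]
    have s2 : ∀ ω, YB B {p} (fun p => f p ω) = B p (f p ω) := fun ω => by
      unfold YB; rw [Finset.sum_singleton]
    have j0 : ∫ ω, ZA A {p} (fun p => f p ω) * YB B {p} (fun p => f p ω) ^ 0 ∂P = 1 := by
      simp_rw [s1, pow_zero, mul_one]; exact h.m0 p (Finset.mem_insert_self _ _)
    have j1 : ∫ ω, ZA A {p} (fun p => f p ω) * YB B {p} (fun p => f p ω) ^ 1 ∂P = 0 := by
      simp_rw [s1, s2, pow_one]; exact h.m1 p (Finset.mem_insert_self _ _)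
    have j2 : ∫ ω, ZA A {p} (fun p => f p ω) * YB B {p} (fun p => f p ω) ^ 2 ∂P = V p := by
      simp_rw [s1, s2]; exact h.m2 p (Finset.mem_insert_self _ _)
    have j4 : ∫ ω, ZA A {p} (fun p => f p ω) * YB B {p} (fun p => f p ω) ^ 4 ∂P ≤ M p := by
      simp_rw [s1, s2]; exact h.m4 p (Finset.mem_insert_self _ _)
    have z1 : ∀ ω, ZA A (insert p S) (fun p => f p ω) =
        ZA A S (fun p => f p ω) * ZA A {p} (fun p => f p ω) := fun ω => by
      unfold ZA; rw [Finset.prod_insert hp, Finset.prod_singleton, mul_comm]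
    have y1 : ∀ ω, YB B (insert p S) (fun p => f p ω) =
        YB B S (fun p => f p ω) + YB B {p} (fun p => f p ω) := fun ω => by
      unfold YB; rw [Finset.sum_insert hp, Finset.sum_singleton, add_comm]
    refine ⟨?_, ?_, ?_, ?_⟩
    · have e : ∀ ω, ZA A (insert p S) (fun p => f p ω) * YB B (insert p S) (fun p => f p ω) ^ 0 =
          (ZA A S (fun p => f p ω) * YB B S (fun p => f p ω) ^ 0) *
          (ZA A {p} (fun p => f p ω) * YB B {p} (fun p => f p ω) ^ 0) := fun ω => by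
        rw [z1]; ring
      simp_rw [e]
      rw [rule, i0, j0, one_mul]
    · have e : ∀ ω, ZA A (insert p S) (fun p => f p ω) * YB B (insert p S) (fun p => f p ω) ^ 1 =
          (ZA A S (fun p => f p ω) * YB B S (fun p => f p ω) ^ 1) *
          (ZA A {p} (fun p => f p ω) * YB B {p} (fun p => f p ω) ^ 0) +
          (ZA A S (fun p => f p ω) * YB B S (fun p => f p ω) ^ 0) *
          (ZA A {p} (fun p => f p ω) * YB B {p} (fun p => f p ω) ^ 1) := fun ω => by
        rw [z1, y1]; ring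
      simp_rw [e]
      rw [integral_add (rint 1 0) (rint 0 1), rule, rule, i1, j1]
      ring
    · have e : ∀ ω, ZA A (insert p S) (fun p => f p ω) * YB B (insert p S) (fun p => f p ω) ^ 2 =
          ((ZA A S (fun p => f p ω) * YB B S (fun p => f p ω) ^ 2) *
          (ZA A {p} (fun p => f p ω) * YB B {p} (fun p => f p ω) ^ 0) +
          2 * ((ZA A S (fun p => f p ω) * YB B S (fun p => f p ω) ^ 1) *
          (ZA A {p} (fun p => f p ω) * YB B {p} (fun p => f p ω) ^ 1))) +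
          (ZA A S (fun p => f p ω) * YB B S (fun p => f p ω) ^ 0) *
          (ZA A {p} (fun p => f p ω) * YB B {p} (fun p => f p ω) ^ 2) := fun ω => by
        rw [z1, y1]; ring
      simp_rw [e]
      rw [integral_add (ia (rint 2 0) ((rint 1 1).const_mul 2)) (rint 0 2),
        integral_add (rint 2 0) ((rint 1 1).const_mul 2), integral_const_mul, rule, rule, rule,
        i0, i1, i2, j0, j1, j2, Finset.sum_insert hp]
      ring
    · have e : ∀ ω, ZA A (insert p S) (fun p => f p ω) * YB B (insert p S) (fun p => f p ω) ^ 4 =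
          ((((ZA A S (fun p => f p ω) * YB B S (fun p => f p ω) ^ 4) *
          (ZA A {p} (fun p => f p ω) * YB B {p} (fun p => f p ω) ^ 0) +
          4 * ((ZA A S (fun p => f p ω) * YB B S (fun p => f p ω) ^ 3) *
          (ZA A {p} (fun p => f p ω) * YB B {p} (fun p => f p ω) ^ 1))) +
          6 * ((ZA A S (fun p => f p ω) * YB B S (fun p => f p ω) ^ 2) *
          (ZA A {p} (fun p => f p ω) * YB B {p} (fun p => f p ω) ^ 2))) +
          4 * ((ZA A S (fun p => f p ω) * YB B S (fun p => f p ω) ^ 1) *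
          (ZA A {p} (fun p => f p ω) * YB B {p} (fun p => f p ω) ^ 3))) +
          (ZA A S (fun p => f p ω) * YB B S (fun p => f p ω) ^ 0) *
          (ZA A {p} (fun p => f p ω) * YB B {p} (fun p => f p ω) ^ 4) := fun ω => by
        rw [z1, y1]; ring
      simp_rw [e]
      have r1 := ia (rint 4 0) ((rint 3 1).const_mul 4)
      have r2 := ia r1 ((rint 2 2).const_mul 6)
      have r3 := ia r2 ((rint 1 3).const_mul 4)
      rw [integral_add r3 (rint 0 4), integral_add r2 ((rint 1 3).const_mul 4),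
        integral_add r1 ((rint 2 2).const_mul 6), integral_add (rint 4 0) ((rint 3 1).const_mul 4),
        integral_const_mul, integral_const_mul, integral_const_mul, rule, rule, rule, rule, rule,
        i0, i1, i2, j0, j1, j2, Finset.sum_insert hp, Finset.sum_insert hp]
      nlinarith [i4, j4, sq_nonneg (V p)]

lemma pw {y s : ℝ} (hs : 0 < s) (c : ℝ) (hc0 : 0 ≤ c) (hc : s / 24 ≤ y → c = 0) (hc1 : c ≤ 1) :
    (y ^ 2 - y ^ 4 / (9 * s ^ 2)) / (3 * s) - s / 12 - y ^ 2 / (24 * s) + y ≤ 24 * s * (1 - c) := by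
  set u := y / s with hu
  have hy : y = u * s := by rw [hu]; field_simp
  have e1 : (y ^ 2 - y ^ 4 / (9 * s ^ 2)) / (3 * s) - s / 12 - y ^ 2 / (24 * s) + y =
      s * ((u ^ 2 - u ^ 4 / 9) / 3 - 1 / 12 - u ^ 2 / 24 + u) := by
    rw [hy]
    field_simp
  rw [e1]
  have e2 : 24 * s * (1 - c) = s * (24 * (1 - c)) := by ring
  rw [e2]
  refine mul_le_mul_of_nonneg_left ?_ hs.le
  rcases le_or_gt (s / 24) y with h | h
  · rw [hc h]
    nlinarith [sq_nonneg (u ^ 2 - 4), sq_nonneg (u - 2)]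
  · have hu24 : u < 1 / 24 := by
      rw [hu, div_lt_iff₀ hs]; linarith
    have h1 : 0 ≤ 24 * (1 - c) := by linarith
    refine le_trans ?_ h1
    rcases le_or_gt 0 u with h0 | h0
    · nlinarith [sq_nonneg (u ^ 2), mul_nonneg h0 h0]
    · -- `u < 0`
      have h2 : (u ^ 2 - u ^ 4 / 9) / 3 ≤ -u := by
        have h3 : 0 ≤ (-u) * ((u + 3) ^ 2 * (-u) ) := by
          have : 0 ≤ -u := by linarith
          positivity
        nlinarith [sq_nonneg (u ^ 2 - 9), sq_nonneg (u + 3), mul_pos (neg_pos.2 h0) (neg_pos.2 h0)]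
      nlinarith [sq_nonneg u]

/-- anticoncentration: an event on which `Y` is small has tilted probability at most `1 - 1/576` -/
theorem anti {Z Y : Ω → ℝ} {G : Set Ω} {V M : ℝ} (hZ0 : ∀ ω, 0 ≤ Z ω) (hG : MeasurableSet G)
    (hV : 0 < V) (hMV : M ≤ V ^ 2) (hi : ∀ k : ℕ, Integrable (fun ω => Z ω * Y ω ^ k) P)
    (m0 : ∫ ω, Z ω * Y ω ^ 0 ∂P = 1) (m1 : ∫ ω, Z ω * Y ω ^ 1 ∂P = 0)
    (m2 : ∫ ω, Z ω * Y ω ^ 2 ∂P = V) (m4 : ∫ ω, Z ω * Y ω ^ 4 ∂P ≤ 3 * V ^ 2 + M)
    (hGY : ∀ ω ∈ G, Y ω < Real.sqrt V / 24) :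
    ∫ ω, G.indicator (fun _ => (1 : ℝ)) ω * Z ω ∂P ≤ 1 - 1 / 576 := by
  set s := Real.sqrt V with hs
  have hs0 : 0 < s := Real.sqrt_pos.2 hV
  have hsV : s ^ 2 = V := Real.sq_sqrt hV.le
  have iZ : Integrable Z P := by simpa using hi 0
  have m0' : ∫ ω, Z ω ∂P = 1 := by simpa using m0
  have iG : Integrable (fun ω => G.indicator (fun _ => (1 : ℝ)) ω * Z ω) P := by
    have : (fun ω => G.indicator (fun _ => (1 : ℝ)) ω * Z ω) = G.indicator Z := by
      funext ω
      by_cases h : ω ∈ G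
      · rw [Set.indicator_of_mem h, Set.indicator_of_mem h, one_mul]
      · rw [Set.indicator_of_notMem h, Set.indicator_of_notMem h, zero_mul]
    rw [this]
    exact iZ.indicator hG
  have key : ∀ ω, (1 / (3 * s) - 1 / (24 * s)) * (Z ω * Y ω ^ 2) -
      1 / (27 * s ^ 3) * (Z ω * Y ω ^ 4) - s / 12 * Z ω + Z ω * Y ω ^ 1 ≤
      24 * s * Z ω - 24 * s * (G.indicator (fun _ => (1 : ℝ)) ω * Z ω) := by
    intro ω
    have h := pw (y := Y ω) hs0 (G.indicator (fun _ => (1 : ℝ)) ω)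
      (Set.indicator_nonneg (fun _ _ => zero_le_one) _) (fun hy => by
        refine Set.indicator_of_notMem (fun hω => ?_) _
        exact absurd (hGY ω hω) (not_lt.2 hy)) (by
        by_cases hω : ω ∈ G
        · rw [Set.indicator_of_mem hω]
        · rw [Set.indicator_of_notMem hω]; norm_num)
    have h2 := mul_le_mul_of_nonneg_left h (hZ0 ω)
    calc _ = Z ω * ((Y ω ^ 2 - Y ω ^ 4 / (9 * s ^ 2)) / (3 * s) - s / 12 - Y ω ^ 2 / (24 * s) +
          Y ω) := by
          field_simp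
          ring
      _ ≤ _ := h2
      _ = _ := by ring
  have i1 := (hi 2).const_mul (1 / (3 * s) - 1 / (24 * s))
  have i2 := (hi 4).const_mul (1 / (27 * s ^ 3))
  have i3 := isb i1 i2
  have i4 := isb i3 (iZ.const_mul (s / 12))
  have hint := integral_mono (ia i4 (hi 1)) (isb (iZ.const_mul (24 * s)) (iG.const_mul (24 * s)))
    key
  rw [integral_sub (iZ.const_mul (24 * s)) (iG.const_mul (24 * s)), integral_const_mul,
    integral_const_mul, m0'] at hint
  have e5 : ∫ ω, ((1 / (3 * s) - 1 / (24 * s)) * (Z ω * Y ω ^ 2) -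
      1 / (27 * s ^ 3) * (Z ω * Y ω ^ 4) - s / 12 * Z ω + Z ω * Y ω ^ 1) ∂P =
      (1 / (3 * s) - 1 / (24 * s)) * V - 1 / (27 * s ^ 3) * (∫ ω, Z ω * Y ω ^ 4 ∂P) - s / 12 := by
    rw [integral_add i4 (hi 1), integral_sub i3 (iZ.const_mul (s / 12)), integral_sub i1 i2,
      integral_const_mul, integral_const_mul, integral_const_mul, m0', m1, m2]
    ring
  rw [e5] at hint
  set x := ∫ ω, G.indicator (fun _ => (1 : ℝ)) ω * Z ω ∂P with hx
  have h6 : 1 / (27 * s ^ 3) * (∫ ω, Z ω * Y ω ^ 4 ∂P) ≤ 4 / 27 * s := by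
    have h7 : ∫ ω, Z ω * Y ω ^ 4 ∂P ≤ 4 * s ^ 4 := by
      have : V ^ 2 = s ^ 4 := by rw [← hsV]; ring
      linarith
    calc 1 / (27 * s ^ 3) * (∫ ω, Z ω * Y ω ^ 4 ∂P) ≤ 1 / (27 * s ^ 3) * (4 * s ^ 4) := by gcongr
      _ = 4 / 27 * s := by field_simp
  have h8 : (1 / (3 * s) - 1 / (24 * s)) * V = 7 / 24 * s := by
    rw [← hsV]; field_simp; norm_num
  rw [h8] at hint
  have h9 : 13 / 216 * s ≤ 24 * s * (1 - x) := by
    have : 24 * s * 1 - 24 * s * x = 24 * s * (1 - x) := by ring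
    linarith
  have h10 : 13 / 216 ≤ 24 * (1 - x) := by
    have : s * (13 / 216) ≤ s * (24 * (1 - x)) := by linarith
    exact le_of_mul_le_mul_left this hs0
  linarith

end Pool.Agent.U585.RM
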