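import Mathlib

/-!
# One factor: the logarithm of the shifted factor under the tilted law
-/

set_option autoImplicit false

open MeasureTheory Filter Topology

namespace Pool.Agent.U585.RM

lemma log_expand {w : ℂ} (hw : ‖w‖ ≤ 3 / 4) :
    |Real.log (‖1 + w‖ ^ 2) - (2 * w.re - (w ^ 2).re)| ≤ 3 * ‖w‖ ^ 3 := by
  have h1 := Complex.norm_log_sub_logTaylor_le 2 (z := w) (by linarith)
  have h2 : Complex.logTaylor (2 + 1) w = w - w ^ 2 / 2 := by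
    rw [Complex.logTaylor_succ, Complex.logTaylor_succ, Complex.logTaylor_succ,
      Complex.logTaylor_zero]
    norm_num
    ring
  rw [h2] at h1
  have h3 : (Complex.log (1 + w) - (w - w ^ 2 / 2)).re =
      Real.log ‖1 + w‖ - (w.re - (w ^ 2).re / 2) := by
    rw [Complex.sub_re, Complex.log_re, Complex.sub_re]
    congr 2
    simp [Complex.div_re]
  have h4 := (Complex.abs_re_le_norm _).trans h1
  rw [h3] at h4
  rw [Real.log_pow]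
  have h5 : (1 - ‖w‖)⁻¹ ≤ 4 := by
    rw [inv_le_comm₀ (by linarith) (by norm_num)]
    linarith
  have h6 : ‖w‖ ^ (2 + 1) * (1 - ‖w‖)⁻¹ / ((2 : ℕ) + 1) ≤ ‖w‖ ^ 3 * 4 / 3 := by
    have : ‖w‖ ^ (2 + 1) * (1 - ‖w‖)⁻¹ ≤ ‖w‖ ^ 3 * 4 :=
      mul_le_mul_of_nonneg_left h5 (by positivity)
    push_cast
    norm_num
    linarith
  have h7 := abs_le.1 (h4.trans h6)
  have h8 : 0 ≤ ‖w‖ ^ 3 := by positivity
  rw [abs_le]
  push_cast
  constructor <;> linarith [h7.1, h7.2]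

section pointwise

variable {a : ℂ} {r : ℝ}

lemma re_sq_eq (a : ℂ) : 2 * a.re ^ 2 = ‖a‖ ^ 2 + (a ^ 2).re := by
  rw [← Complex.normSq_eq_norm_sq, Complex.normSq_apply, sq a, Complex.mul_re]
  ring

lemma abs_re_sq_le (a : ℂ) : |(a ^ 2).re| ≤ ‖a‖ ^ 2 := by
  refine (Complex.abs_re_le_norm _).trans ?_
  rw [norm_pow]

lemma xi_one (ha : ‖a‖ ≤ 3 / 4) (h0 : 0 ≤ r) (h1 : r ≤ 1) :
    |Real.log (‖1 + a * r‖ ^ 2) - (2 * r * a.re - r ^ 2 * (a ^ 2).re)| ≤ 3 * ‖a‖ ^ 3 := by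
  have e1 : ‖a * r‖ = ‖a‖ * r := by
    rw [norm_mul, Complex.norm_real, Real.norm_of_nonneg h0]
  have e2 : ‖a * r‖ ≤ ‖a‖ := by
    rw [e1]; exact mul_le_of_le_one_right (norm_nonneg _) h1
  have h := log_expand (w := a * r) (e2.trans ha)
  have e3 : (a * (r : ℂ)).re = r * a.re := by simp [mul_comm]
  have e4 : ((a * (r : ℂ)) ^ 2).re = r ^ 2 * (a ^ 2).re := by
    rw [mul_pow, ← Complex.ofReal_pow, Complex.re_mul_ofReal]
    ring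
  rw [e3, e4] at h
  have e5 : 2 * (r * a.re) - r ^ 2 * (a ^ 2).re = 2 * r * a.re - r ^ 2 * (a ^ 2).re := by ring
  rw [e5] at h
  refine h.trans ?_
  have := pow_le_pow_left₀ (norm_nonneg _) e2 3
  linarith

lemma xi_abs (ha : ‖a‖ ≤ 3 / 4) (h0 : 0 ≤ r) (h1 : r ≤ 1) :
    |Real.log (‖1 + a * r‖ ^ 2) - 2 * r * a.re| ≤ 4 * ‖a‖ ^ 2 ∧
    |Real.log (‖1 + a * r‖ ^ 2)| ≤ 6 * ‖a‖ := by
  have h := xi_one ha h0 h1
  have hn := norm_nonneg a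
  have hu := abs_re_sq_le a
  have hx := Complex.abs_re_le_norm a
  have hr : |r ^ 2 * (a ^ 2).re| ≤ ‖a‖ ^ 2 := by
    rw [abs_mul, abs_of_nonneg (sq_nonneg r)]
    calc r ^ 2 * |(a ^ 2).re| ≤ 1 * ‖a‖ ^ 2 :=
          mul_le_mul (pow_le_one₀ h0 h1) hu (abs_nonneg _) (by norm_num)
      _ = _ := one_mul _
  have h3 : ‖a‖ ^ 3 ≤ 3 / 4 * ‖a‖ ^ 2 := by
    rw [pow_succ, mul_comm]
    exact mul_le_mul_of_nonneg_right ha (by positivity)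
  have h4 : |Real.log (‖1 + a * r‖ ^ 2) - 2 * r * a.re| ≤ 4 * ‖a‖ ^ 2 := by
    have q1 := abs_le.1 h
    have q2 := abs_le.1 hr
    rw [abs_le]
    constructor <;> nlinarith [q1.1, q1.2, q2.1, q2.2, sq_nonneg ‖a‖]
  refine ⟨h4, ?_⟩
  have h5 : |2 * r * a.re| ≤ 2 * ‖a‖ := by
    rw [abs_mul, abs_of_nonneg (by positivity)]
    calc 2 * r * |a.re| ≤ 2 * 1 * ‖a‖ := by gcongr
      _ = _ := by ring
  have h6 : ‖a‖ ^ 2 ≤ 3 / 4 * ‖a‖ := by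
    rw [sq]; exact mul_le_mul_of_nonneg_right ha hn
  have q1 := abs_le.1 h4
  have q2 := abs_le.1 h5
  rw [abs_le]
  constructor <;> linarith [q1.1, q1.2, q2.1, q2.2]

lemma xi_prod (ha : ‖a‖ ≤ 3 / 4) (h0 : 0 ≤ r) (h1 : r ≤ 1) :
    |‖1 + a‖ ^ 2 * Real.log (‖1 + a * r‖ ^ 2) -
      (2 * r * a.re + 2 * r * ‖a‖ ^ 2 + (2 * r - r ^ 2) * (a ^ 2).re)| ≤ 17 * ‖a‖ ^ 3 := by
  have h := xi_one ha h0 h1
  have hn := norm_nonneg a
  have hu := abs_re_sq_le a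
  have hx := Complex.abs_re_le_norm a
  have hsq := re_sq_eq a
  have hN : ‖1 + a‖ ^ 2 = 1 + 2 * a.re + ‖a‖ ^ 2 := by
    rw [← Complex.normSq_eq_norm_sq, ← Complex.normSq_eq_norm_sq, Complex.normSq_add]
    simp
    ring
  have hN4 : ‖1 + a‖ ^ 2 ≤ 4 := by
    have : ‖1 + a‖ ≤ 2 := by
      refine (norm_add_le _ _).trans ?_
      rw [norm_one]; linarith
    nlinarith [norm_nonneg (1 + a)]
  set ξ := Real.log (‖1 + a * r‖ ^ 2) with hξ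
  set x := a.re with hx'
  set u := (a ^ 2).re with hu'
  set n := ‖a‖ with hn'
  set E := ξ - (2 * r * x - r ^ 2 * u) with hE
  have key : ‖1 + a‖ ^ 2 * ξ - (2 * r * x + 2 * r * n ^ 2 + (2 * r - r ^ 2) * u) =
      -(2 * (r ^ 2 * x * u)) + (n ^ 2 * (2 * (r * x)) - n ^ 2 * (r ^ 2 * u)) + ‖1 + a‖ ^ 2 * E := by
    have : ξ = E + (2 * r * x - r ^ 2 * u) := by rw [hE]; ring
    rw [this, hN]
    have h5 : 4 * r * x ^ 2 = 2 * r * n ^ 2 + 2 * r * u := by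
      linear_combination 2 * r * hsq
    linear_combination h5
  rw [key]
  have hr2 : r ^ 2 ≤ 1 := pow_le_one₀ h0 h1
  have t1 : |r ^ 2 * x * u| ≤ n ^ 3 := by
    rw [abs_mul, abs_mul, abs_of_nonneg (sq_nonneg r)]
    calc r ^ 2 * |x| * |u| ≤ 1 * n * n ^ 2 := by gcongr
      _ = n ^ 3 := by ring
  have t2 : |n ^ 2 * (2 * (r * x))| ≤ 2 * n ^ 3 := by
    rw [abs_mul, abs_mul, abs_mul, abs_of_nonneg (sq_nonneg n), abs_of_nonneg h0,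
      abs_of_nonneg (by norm_num : (0 : ℝ) ≤ 2)]
    calc n ^ 2 * (2 * (r * |x|)) ≤ n ^ 2 * (2 * (1 * n)) := by gcongr
      _ = 2 * n ^ 3 := by ring
  have t3 : |n ^ 2 * (r ^ 2 * u)| ≤ n ^ 3 := by
    rw [abs_mul, abs_mul, abs_of_nonneg (sq_nonneg n), abs_of_nonneg (sq_nonneg r)]
    calc n ^ 2 * (r ^ 2 * |u|) ≤ n ^ 2 * (1 * n ^ 2) := by gcongr
      _ = n ^ 3 * n := by ring
      _ ≤ n ^ 3 * 1 := by gcongr; linarith
      _ = n ^ 3 := mul_one _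
  have t4 : |‖1 + a‖ ^ 2 * E| ≤ 12 * n ^ 3 := by
    rw [abs_mul, abs_of_nonneg (by positivity : (0 : ℝ) ≤ ‖1 + a‖ ^ 2)]
    calc ‖1 + a‖ ^ 2 * |E| ≤ 4 * (3 * n ^ 3) := by gcongr
      _ = _ := by ring
  have q1 := abs_le.1 t1
  have q2 := abs_le.1 t2
  have q3 := abs_le.1 t3
  have q4 := abs_le.1 t4
  rw [abs_le]
  constructor <;> linarith [q1.1, q1.2, q2.1, q2.2, q3.1, q3.2, q4.1, q4.2]

lemma xi_sq (ha : ‖a‖ ≤ 3 / 4) (h0 : 0 ≤ r) (h1 : r ≤ 1) :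
    2 * r ^ 2 * (‖a‖ ^ 2 + (a ^ 2).re) - 140 * ‖a‖ ^ 3 ≤
      ‖1 + a‖ ^ 2 * Real.log (‖1 + a * r‖ ^ 2) ^ 2 ∧
    ‖1 + a‖ ^ 2 * Real.log (‖1 + a * r‖ ^ 2) ^ 2 ≤ 144 * ‖a‖ ^ 2 := by
  obtain ⟨hA, hB⟩ := xi_abs ha h0 h1
  have hn := norm_nonneg a
  have hx := Complex.abs_re_le_norm a
  have hsq := re_sq_eq a
  have hN : ‖1 + a‖ ^ 2 = 1 + 2 * a.re + ‖a‖ ^ 2 := by
    rw [← Complex.normSq_eq_norm_sq, ← Complex.normSq_eq_norm_sq, Complex.normSq_add]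
    simp
    ring
  have hN4 : ‖1 + a‖ ^ 2 ≤ 4 := by
    have : ‖1 + a‖ ≤ 2 := by
      refine (norm_add_le _ _).trans ?_
      rw [norm_one]; linarith
    nlinarith [norm_nonneg (1 + a)]
  set ξ := Real.log (‖1 + a * r‖ ^ 2) with hξ
  set x := a.re with hx'
  set n := ‖a‖ with hn'
  have hξ2 : ξ ^ 2 ≤ 36 * n ^ 2 := by
    have := pow_le_pow_left₀ (abs_nonneg _) hB 2
    rw [sq_abs] at this
    linarith
  constructor
  · set E := ξ - 2 * r * x with hE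
    have e1 : ‖1 + a‖ ^ 2 * ξ ^ 2 = 4 * r ^ 2 * x ^ 2 + 4 * (r * x * E) + E ^ 2 +
        (2 * x * ξ ^ 2 + n ^ 2 * ξ ^ 2) := by
      have : ξ = E + 2 * r * x := by rw [hE]; ring
      rw [hN]
      nth_rw 1 [this]
      ring_nf
      rw [this]
      ring
    have e2 : 4 * r ^ 2 * x ^ 2 = 2 * r ^ 2 * (n ^ 2 + (a ^ 2).re) := by
      linear_combination 2 * r ^ 2 * hsq
    rw [e1, e2]
    have t1 : |r * x * E| ≤ 4 * n ^ 3 := by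
      rw [abs_mul, abs_mul, abs_of_nonneg h0]
      calc r * |x| * |E| ≤ 1 * n * (4 * n ^ 2) := by gcongr
        _ = _ := by ring
    have t2 : |x * ξ ^ 2| ≤ 36 * n ^ 3 := by
      rw [abs_mul, abs_of_nonneg (sq_nonneg ξ)]
      calc |x| * ξ ^ 2 ≤ n * (36 * n ^ 2) := by gcongr
        _ = _ := by ring
    have q1 := abs_le.1 t1
    have q2 := abs_le.1 t2
    have q3 : 0 ≤ E ^ 2 := sq_nonneg _
    have q4 : 0 ≤ n ^ 2 * ξ ^ 2 := by positivity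
    have q5 : 0 ≤ n ^ 3 := by positivity
    linarith [q1.1, q2.1]
  · calc ‖1 + a‖ ^ 2 * ξ ^ 2 ≤ 4 * (36 * n ^ 2) := by gcongr
      _ = _ := by ring

end pointwise

end Pool.Agent.U585.RM
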