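import Pool.Agent.U585.RM.Dir
import Pool.Agent.U585.RM.Arith

/-!
# Random multiplicative functions: the martingale of the mean squares
-/

set_option autoImplicit false
set_option linter.unusedSectionVars false

open MeasureTheory Filter Topology ProbabilityTheory
open scoped Real ComplexConjugate

namespace Pool.Agent.U585.RM

open Pool.Agent.Helper601.Mertens (PP)

/-- `p ^ (-(1/2 + i t))` -/
noncomputable def v (p : ℕ) (t : ℝ) : ℂ :=
  Complex.exp (-(((1 / 2 : ℝ) + t * Complex.I) * (Real.log p : ℝ)))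

lemma v_cont (p : ℕ) : Continuous (v p) := by
  unfold v; fun_prop

lemma v_norm (p : ℕ) (t : ℝ) : ‖v p t‖ = Real.exp (-(Real.log p / 2)) := by
  unfold v
  rw [Complex.norm_exp]
  congr 1
  generalize Real.log p = L
  simp
  ring

lemma v_norm_le (p : ℕ) (t : ℝ) : ‖v p t‖ ≤ 1 := by
  rw [v_norm, Real.exp_le_one_iff]
  have := Real.log_natCast_nonneg p
  linarith

lemma v_norm_sq {p : ℕ} (hp : 1 ≤ p) (t : ℝ) : ‖v p t‖ ^ 2 = 1 / p := by
  have hp0 : (0 : ℝ) < p := by exact_mod_cast hp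
  rw [v_norm, ← Real.exp_nat_mul]
  have : ((2 : ℕ) : ℝ) * -(Real.log p / 2) = - Real.log p := by push_cast; ring
  rw [this, Real.exp_neg, Real.exp_log hp0, one_div]

variable {Ω : Type} [mΩ : MeasurableSpace Ω]

/-- the random values at the primes: independent, mean zero, in the unit disc -/
structure Model (P : Measure Ω) (f : ℕ → Ω → ℂ) : Prop where
  meas : ∀ p, Measurable (f p)
  indep : iIndepFun f P
  bdd : ∀ p ω, ‖f p ω‖ ≤ 1
  mean : ∀ p, ∫ ω, f p ω ∂P = 0

/-- the variance -/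
noncomputable def sg (P : Measure Ω) (f : ℕ → Ω → ℂ) (p : ℕ) : ℝ := ∫ ω, ‖f p ω‖ ^ 2 ∂P

/-- the normalisation -/
noncomputable def nm (P : Measure Ω) (f : ℕ → Ω → ℂ) (p : ℕ) : ℝ := 1 + sg P f p / p

/-- the normalised square of the Euler product -/
noncomputable def Zg (P : Measure Ω) (f : ℕ → Ω → ℂ) (S : Finset ℕ) (g : ℕ → ℂ) (t : ℝ) : ℝ :=
  ∏ p ∈ S, (‖1 + g p * v p t‖ ^ 2 / nm P f p)

/-- its mean over `t` -/
noncomputable def Wg (P : Measure Ω) (f : ℕ → Ω → ℂ) (S : Finset ℕ) (g : ℕ → ℂ) : ℝ :=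
  ∫ t, Zg P f S g t ∂nu

section basic

variable {P : Measure Ω} [IsProbabilityMeasure P] {f : ℕ → Ω → ℂ}

lemma sg_nonneg (p : ℕ) : 0 ≤ sg P f p := integral_nonneg fun ω => by positivity

lemma sg_le (h : Model P f) (p : ℕ) : sg P f p ≤ 1 := by
  unfold sg
  calc ∫ ω, ‖f p ω‖ ^ 2 ∂P ≤ ∫ _, (1 : ℝ) ∂P := by
        refine integral_mono_of_nonneg (ae_of_all _ fun ω => by positivity) (integrable_const _)
          (ae_of_all _ fun ω => ?_)
        exact pow_le_one₀ (norm_nonneg _) (h.bdd p ω)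
    _ = 1 := by simp

lemma nm_ge (p : ℕ) : 1 ≤ nm P f p := by
  unfold nm
  have := sg_nonneg (P := P) (f := f) p
  have : 0 ≤ sg P f p / p := by positivity
  linarith

lemma Zg_nonneg (S : Finset ℕ) (g : ℕ → ℂ) (t : ℝ) : 0 ≤ Zg P f S g t :=
  Finset.prod_nonneg fun p _ => div_nonneg (by positivity) (zero_le_one.trans (nm_ge p))

lemma fac_le {g : ℕ → ℂ} (hg : ∀ p, ‖g p‖ ≤ 1) (p : ℕ) (t : ℝ) :
    ‖1 + g p * v p t‖ ^ 2 / nm P f p ≤ 4 := by
  have h1 : ‖1 + g p * v p t‖ ≤ 2 := by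
    refine (norm_add_le _ _).trans ?_
    rw [norm_one, norm_mul]
    have := mul_le_one₀ (hg p) (norm_nonneg _) (v_norm_le p t)
    linarith
  have h2 : ‖1 + g p * v p t‖ ^ 2 ≤ 4 := by
    have := norm_nonneg (1 + g p * v p t)
    nlinarith
  exact (div_le_self (by positivity) (nm_ge p)).trans h2

lemma Zg_le (S : Finset ℕ) {g : ℕ → ℂ} (hg : ∀ p, ‖g p‖ ≤ 1) (t : ℝ) :
    Zg P f S g t ≤ 4 ^ S.card := by
  unfold Zg
  refine (Finset.prod_le_prod (fun p _ => div_nonneg (by positivity)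
    (zero_le_one.trans (nm_ge p))) fun p _ => fac_le hg p t).trans ?_
  rw [Finset.prod_const]

lemma Zg_cont (S : Finset ℕ) : Continuous fun z : (ℕ → ℂ) × ℝ => Zg P f S z.1 z.2 := by
  unfold Zg
  refine continuous_finset_prod _ fun p _ => Continuous.div_const ?_ _
  refine ((continuous_const.add (Continuous.mul ?_ ?_)).norm).pow 2
  · exact (continuous_apply p).comp continuous_fst
  · exact (v_cont p).comp continuous_snd

lemma Zg_contt (S : Finset ℕ) (g : ℕ → ℂ) : Continuous fun t : ℝ => Zg P f S g t :=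
  Continuous.comp (g := fun z : (ℕ → ℂ) × ℝ => Zg P f S z.1 z.2) (f := fun t : ℝ => (g, t))
    (Zg_cont S) (continuous_const.prodMk continuous_id)

lemma Zg_measg (S : Finset ℕ) (t : ℝ) : Measurable fun g : ℕ → ℂ => Zg P f S g t :=
  (Continuous.comp (g := fun z : (ℕ → ℂ) × ℝ => Zg P f S z.1 z.2) (f := fun g : ℕ → ℂ => (g, t))
    (Zg_cont S) (continuous_id.prodMk continuous_const)).measurable

lemma Wg_meas (S : Finset ℕ) : Measurable (Wg P f S) :=
  ((Zg_cont (P := P) (f := f) S).measurable.stronglyMeasurable.integral_prod_right').measurable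

lemma Wg_nonneg (S : Finset ℕ) (g : ℕ → ℂ) : 0 ≤ Wg P f S g :=
  integral_nonneg fun t => Zg_nonneg S g t

lemma Zg_int (S : Finset ℕ) {g : ℕ → ℂ} (hg : ∀ p, ‖g p‖ ≤ 1) :
    Integrable (fun t => Zg P f S g t) nu := by
  refine Integrable.mono' (g := fun _ => (4 : ℝ) ^ S.card) (integrable_const _)
    (Zg_contt S g).aestronglyMeasurable (ae_of_all _ fun t => ?_)
  rw [Real.norm_of_nonneg (Zg_nonneg S g t)]
  exact Zg_le S hg t

lemma Wg_le (S : Finset ℕ) {g : ℕ → ℂ} (hg : ∀ p, ‖g p‖ ≤ 1) : Wg P f S g ≤ 4 ^ S.card := by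
  unfold Wg
  calc ∫ t, Zg P f S g t ∂nu ≤ ∫ _, (4 : ℝ) ^ S.card ∂nu :=
        integral_mono (Zg_int S hg) (integrable_const _) fun t => Zg_le S hg t
    _ = 4 ^ S.card := by simp

/-- dependence on the coordinates in `S` only -/
def Dep {E : Type} (S : Set ℕ) (Φ : (ℕ → ℂ) → E) : Prop :=
  ∀ g g' : ℕ → ℂ, (∀ p ∈ S, g p = g' p) → Φ g = Φ g'

lemma Zg_dep (S : Finset ℕ) (t : ℝ) : Dep (S : Set ℕ) fun g => Zg P f S g t := by
  intro g g' h
  unfold Zg
  refine Finset.prod_congr rfl fun p hp => ?_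
  rw [h p hp]

lemma Wg_dep (S : Finset ℕ) : Dep (S : Set ℕ) (Wg P f S) := by
  intro g g' h
  unfold Wg
  exact integral_congr_ae (ae_of_all _ fun t => Zg_dep S t g g' h)

/-- the sigma algebra of the coordinates in `S` -/
@[reducible] noncomputable def mS (f : ℕ → Ω → ℂ) (S : Set ℕ) : MeasurableSpace Ω :=
  ⨆ i ∈ S, MeasurableSpace.comap (f i) inferInstance

lemma mS_le (h : Model P f) (S : Set ℕ) : mS f S ≤ mΩ :=
  iSup₂_le fun i _ => (h.meas i).comap_le

lemma dep_meas {S : Set ℕ} {E : Type} [MeasurableSpace E] {Φ : (ℕ → ℂ) → E} (hΦ : Measurable Φ)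
    (d : Dep S Φ) : Measurable[mS f S] fun ω => Φ fun p => f p ω := by
  classical
  have h1 : (fun ω => Φ fun p => f p ω) = Φ ∘ fun ω p => if p ∈ S then f p ω else 0 := by
    funext ω
    refine d _ _ fun p hp => ?_
    exact (if_pos hp).symm
  rw [h1]
  refine @Measurable.comp Ω (ℕ → ℂ) E (mS f S) _ _ _ _ hΦ ?_
  refine @measurable_pi_lambda Ω ℕ (fun _ => ℂ) (mS f S) _ _ fun p => ?_
  by_cases hp : p ∈ S
  · simp only [hp, if_true]
    have h2 : MeasurableSpace.comap (f p) inferInstance ≤ mS f S :=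
      le_iSup₂ (f := fun i (_ : i ∈ S) => MeasurableSpace.comap (f i) inferInstance) p hp
    exact Measurable.mono (@comap_measurable Ω ℂ _ (f p)) h2 le_rfl
  · simp only [hp, if_false]
    exact @measurable_const ℂ Ω _ (mS f S) _

lemma indep_int {m1 m2 : MeasurableSpace Ω} (h1 : m1 ≤ mΩ) (h2 : m2 ≤ mΩ) (h : Indep m1 m2 P)
    {X Y : Ω → ℝ} (hX : Measurable[m1] X) (hY : Measurable[m2] Y) :
    ∫ ω, X ω * Y ω ∂P = (∫ ω, X ω ∂P) * ∫ ω, Y ω ∂P := by
  have h3 : IndepFun X Y P := by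
    rw [IndepFun_iff_Indep]
    exact indep_of_indep_of_le_left (indep_of_indep_of_le_right h hY.comap_le) hX.comap_le
  exact h3.integral_fun_mul_eq_mul_integral (hX.mono h1 le_rfl).aestronglyMeasurable
    (hY.mono h2 le_rfl).aestronglyMeasurable

lemma indep_mS (h : Model P f) {S T : Set ℕ} (hST : Disjoint S T) :
    Indep (mS f S) (mS f T) P :=
  indep_iSup_of_disjoint (fun i => (h.meas i).comap_le) h.indep.iIndep hST

/-- functions of disjoint sets of coordinates -/
lemma int_mul (h : Model P f) {S T : Set ℕ} (hST : Disjoint S T) {Φ Ψ : (ℕ → ℂ) → ℝ}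
    (hΦ : Measurable Φ) (dΦ : Dep S Φ) (hΨ : Measurable Ψ) (dΨ : Dep T Ψ) :
    ∫ ω, Φ (fun p => f p ω) * Ψ (fun p => f p ω) ∂P =
      (∫ ω, Φ (fun p => f p ω) ∂P) * ∫ ω, Ψ (fun p => f p ω) ∂P :=
  indep_int (mS_le h S) (mS_le h T) (indep_mS h hST) (dep_meas hΦ dΦ) (dep_meas hΨ dΨ)

lemma norm_one_add_sq (z : ℂ) : ‖1 + z‖ ^ 2 = 1 + 2 * z.re + ‖z‖ ^ 2 := by
  rw [← Complex.normSq_eq_norm_sq, ← Complex.normSq_eq_norm_sq, Complex.normSq_add]
  simp
  ring

lemma int_f (h : Model P f) (p : ℕ) : Integrable (f p) P :=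
  Integrable.mono' (g := fun _ => (1 : ℝ)) (integrable_const _) (h.meas p).aestronglyMeasurable
    (ae_of_all _ fun ω => h.bdd p ω)

lemma int_re_mul (h : Model P f) (p : ℕ) (c : ℂ) : ∫ ω, (f p ω * c).re ∂P = 0 := by
  have h1 : ∫ ω, f p ω * c ∂P = 0 := by
    rw [integral_mul_const, h.mean, zero_mul]
  have h2 := integral_re ((int_f h p).mul_const c)
  simp only [RCLike.re_to_complex] at h2
  rw [h2, h1, Complex.zero_re]

/-- each factor has mean one -/
lemma int_fac (h : Model P f) {p : ℕ} (hp : 1 ≤ p) (t : ℝ) :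
    ∫ ω, ‖1 + f p ω * v p t‖ ^ 2 / nm P f p ∂P = 1 := by
  have hnm : nm P f p ≠ 0 := (zero_lt_one.trans_le (nm_ge p)).ne'
  rw [integral_div, div_eq_one_iff_eq hnm]
  simp_rw [norm_one_add_sq, norm_mul, mul_pow, v_norm_sq hp t]
  have hc : Measurable fun ω => f p ω * v p t := (h.meas p).mul_const _
  have i1 : Integrable (fun ω => 2 * (f p ω * v p t).re) P :=
    (((int_f h p).mul_const _).re).const_mul 2
  have i2 : Integrable (fun ω => ‖f p ω‖ ^ 2 * (1 / (p : ℝ))) P := by
    refine Integrable.mul_const ?_ _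
    refine Integrable.mono' (g := fun _ => (1 : ℝ)) (integrable_const _)
      ((h.meas p).norm.pow_const 2).aestronglyMeasurable (ae_of_all _ fun ω => ?_)
    rw [Real.norm_of_nonneg (by positivity)]
    exact pow_le_one₀ (norm_nonneg _) (h.bdd p ω)
  have i3 : Integrable (fun ω => 1 + 2 * (f p ω * v p t).re) P := (integrable_const _).add i1
  rw [integral_add i3 i2, integral_add (integrable_const _) i1, integral_const_mul,
    int_re_mul h, integral_mul_const]
  unfold nm sg
  simp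
  ring

/-- the product over a set of coordinates has mean one -/
lemma int_Zg (h : Model P f) (S : Finset ℕ) (hS : ∀ p ∈ S, 1 ≤ p) (t : ℝ) :
    ∫ ω, Zg P f S (fun p => f p ω) t ∂P = 1 := by
  classical
  induction S using Finset.induction_on with
  | empty => simp [Zg]
  | insert p S hp ih =>
    have e1 : ∀ ω, Zg P f (insert p S) (fun p => f p ω) t =
        Zg P f {p} (fun p => f p ω) t * Zg P f S (fun p => f p ω) t := by
      intro ω
      unfold Zg
      rw [Finset.prod_insert hp, Finset.prod_singleton]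
    simp_rw [e1]
    rw [int_mul h (S := (({p} : Finset ℕ) : Set ℕ)) (T := (S : Set ℕ)) (by simpa using hp)
      (Φ := fun g => Zg P f {p} g t) (Ψ := fun g => Zg P f S g t)
      (Zg_measg {p} t) (Zg_dep _ t) (Zg_measg S t) (Zg_dep _ t),
      ih fun q hq => hS q (Finset.mem_insert_of_mem hq), mul_one]
    unfold Zg
    simp_rw [Finset.prod_singleton]
    exact int_fac h (hS p (Finset.mem_insert_self _ _)) t

lemma Zg_meas_prod (h : Model P f) (S : Finset ℕ) :
    Measurable fun z : Ω × ℝ => Zg P f S (fun p => f p z.1) z.2 := by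
  refine Measurable.comp (g := fun z : (ℕ → ℂ) × ℝ => Zg P f S z.1 z.2)
    (f := fun z : Ω × ℝ => ((fun p => f p z.1), z.2)) (Zg_cont S).measurable
    (Measurable.prodMk ?_ measurable_snd)
  exact measurable_pi_lambda _ fun p => (h.meas p).comp measurable_fst

lemma Zg_int_prod (h : Model P f) (S : Finset ℕ) {G : Set Ω} (hG : MeasurableSet G) :
    Integrable (fun z : Ω × ℝ => G.indicator (fun _ => (1 : ℝ)) z.1 *
      Zg P f S (fun p => f p z.1) z.2) (P.prod nu) := by
  refine Integrable.mono' (g := fun _ => (4 : ℝ) ^ S.card) (integrable_const _)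
    (((measurable_const.indicator hG).comp measurable_fst).mul
      (Zg_meas_prod h S)).aestronglyMeasurable (ae_of_all _ fun z => ?_)
  rw [norm_mul, Real.norm_of_nonneg (Zg_nonneg S _ _)]
  have h1 : ‖G.indicator (fun _ => (1 : ℝ)) z.1‖ ≤ 1 := by
    by_cases hz : z.1 ∈ G
    · rw [Set.indicator_of_mem hz]; simp
    · rw [Set.indicator_of_notMem hz]; simp
  calc _ ≤ 1 * 4 ^ S.card := mul_le_mul h1 (Zg_le S (fun p => h.bdd p z.1) z.2)
        (Zg_nonneg S _ _) (by norm_num)
    _ = _ := one_mul _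

/-- Fubini for the restriction of `Wg` to an event -/
lemma set_Wg (h : Model P f) (S : Finset ℕ) {G : Set Ω} (hG : MeasurableSet G) :
    ∫ ω in G, Wg P f S (fun p => f p ω) ∂P =
      ∫ t, ∫ ω, G.indicator (fun _ => (1 : ℝ)) ω * Zg P f S (fun p => f p ω) t ∂P ∂nu := by
  rw [← integral_indicator hG]
  have e1 : ∀ ω, G.indicator (fun ω => Wg P f S (fun p => f p ω)) ω =
      ∫ t, G.indicator (fun _ => (1 : ℝ)) ω * Zg P f S (fun p => f p ω) t ∂nu := by
    intro ω
    rw [integral_const_mul]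
    by_cases hz : ω ∈ G
    · rw [Set.indicator_of_mem hz, Set.indicator_of_mem hz, one_mul]; rfl
    · rw [Set.indicator_of_notMem hz, Set.indicator_of_notMem hz, zero_mul]
  simp_rw [e1]
  exact integral_integral_swap (Zg_int_prod h S hG)

lemma Wg_int (h : Model P f) (S : Finset ℕ) : Integrable (fun ω => Wg P f S (fun p => f p ω)) P := by
  refine Integrable.mono' (g := fun _ => (4 : ℝ) ^ S.card) (integrable_const _)
    ((Wg_meas S).comp (measurable_pi_lambda _ fun p => h.meas p)).aestronglyMeasurable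
    (ae_of_all _ fun ω => ?_)
  rw [Real.norm_of_nonneg (Wg_nonneg S _)]
  exact Wg_le S fun p => h.bdd p ω

lemma Wg_mean (h : Model P f) (S : Finset ℕ) (hS : ∀ p ∈ S, 1 ≤ p) :
    ∫ ω, Wg P f S (fun p => f p ω) ∂P = 1 := by
  have h1 := set_Wg h S MeasurableSet.univ
  rw [Measure.restrict_univ] at h1
  rw [h1]
  simp only [Set.indicator_univ, one_mul]
  simp_rw [int_Zg h S hS]
  simp

/-- the filtration -/
noncomputable def Fil (h : Model P f) : Filtration ℕ mΩ where
  seq N := mS f {p | p ≤ N}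
  mono' := fun M N hMN => iSup₂_le fun i hi =>
    le_iSup₂ (f := fun i (_ : i ∈ {p | p ≤ N}) => MeasurableSpace.comap (f i) inferInstance) i
      (le_trans hi hMN)
  le' := fun N => mS_le h _

lemma PP_succ_prime {N : ℕ} (hN : (N + 1).Prime) : PP (N + 1) = insert (N + 1) (PP N) := by
  ext p
  rw [Finset.mem_insert, mem_PP, mem_PP]
  constructor
  · rintro ⟨h1, h2⟩
    rcases Nat.lt_or_ge N p with h | h
    · left; omega
    · right; exact ⟨h1, h⟩
  · rintro (rfl | ⟨h1, h2⟩)
    · exact ⟨hN, le_rfl⟩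
    · exact ⟨h1, by omega⟩

lemma PP_succ_not {N : ℕ} (hN : ¬ (N + 1).Prime) : PP (N + 1) = PP N := by
  ext p
  rw [mem_PP, mem_PP]
  constructor
  · rintro ⟨h1, h2⟩
    refine ⟨h1, ?_⟩
    rcases Nat.lt_or_ge N p with h | h
    · have : p = N + 1 := by omega
      subst this
      exact absurd h1 hN
    · exact h
  · rintro ⟨h1, h2⟩
    exact ⟨h1, by omega⟩

lemma PP_pos {N p : ℕ} (hp : p ∈ PP N) : 1 ≤ p := (mem_PP.1 hp).1.one_lt.le

/-- the means of the squares of the Euler products form a martingale -/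
theorem Wg_mart (h : Model P f) : Martingale (fun N ω => Wg P f (PP N) (fun p => f p ω)) (Fil h) P := by
  refine martingale_of_setIntegral_eq_succ ?_ (fun N => Wg_int h (PP N)) ?_
  · intro N
    have h1 : Dep {p | p ≤ N} (Wg P f (PP N)) := fun g g' hg =>
      Wg_dep (PP N) g g' fun p hp => hg p (mem_PP.1 hp).2
    exact (dep_meas (Wg_meas _) h1).stronglyMeasurable
  · intro N G hG
    by_cases hN : (N + 1).Prime
    · have hG' : MeasurableSet G := (Fil h).le N _ hG
      rw [set_Wg h _ hG', set_Wg h _ hG']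
      refine integral_congr_ae (ae_of_all _ fun t => ?_)
      beta_reduce
      have hnot : N + 1 ∉ PP N := fun hc => by have := (mem_PP.1 hc).2; omega
      have e1 : ∀ ω, G.indicator (fun _ => (1 : ℝ)) ω * Zg P f (PP (N + 1)) (fun p => f p ω) t =
          (G.indicator (fun _ => (1 : ℝ)) ω * Zg P f (PP N) (fun p => f p ω) t) *
            Zg P f {N + 1} (fun p => f p ω) t := by
        intro ω
        rw [PP_succ_prime hN]
        unfold Zg
        rw [Finset.prod_insert hnot, Finset.prod_singleton]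
        ring
      simp_rw [e1]
      have hdis : Disjoint {p : ℕ | p ≤ N} (({N + 1} : Finset ℕ) : Set ℕ) := by
        rw [Set.disjoint_left]
        intro p hp hp2
        simp at hp hp2
        omega
      rw [indep_int (mS_le h _) (mS_le h _) (indep_mS h hdis)
        (X := fun ω => G.indicator (fun _ => (1 : ℝ)) ω * Zg P f (PP N) (fun p => f p ω) t)
        (Y := fun ω => Zg P f {N + 1} (fun p => f p ω) t) ?_ ?_]
      · rw [int_Zg h {N + 1} (by simp) t, mul_one]
      · refine Measurable.mul ?_ ?_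
        · exact Measurable.indicator (m := mS f {p | p ≤ N}) measurable_const hG
        · exact dep_meas (Zg_measg (PP N) t)
            fun g g' hg => Zg_dep (PP N) t g g' fun p hp => hg p (mem_PP.1 hp).2
      · exact dep_meas (Zg_measg _ t) (Zg_dep _ t)
    · rw [PP_succ_not hN]

/-- almost sure convergence -/
theorem Wg_conv (h : Model P f) : ∀ᵐ ω ∂P, ∃ c : ℝ,
    Tendsto (fun N => Wg P f (PP N) (fun p => f p ω)) atTop (𝓝 c) := by
  refine (Wg_mart h).submartingale.exists_ae_tendsto_of_bdd (R := 1) fun N => ?_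
  rw [eLpNorm_one_eq_lintegral_enorm]
  have h1 : ∫⁻ ω, ‖Wg P f (PP N) (fun p => f p ω)‖ₑ ∂P =
      ENNReal.ofReal (∫ ω, Wg P f (PP N) (fun p => f p ω) ∂P) := by
    rw [ofReal_integral_eq_lintegral_ofReal (Wg_int h _) (ae_of_all _ fun ω => Wg_nonneg _ _)]
    refine lintegral_congr fun ω => ?_
    rw [Real.enorm_of_nonneg (Wg_nonneg _ _)]
  rw [h1, Wg_mean h _ fun p hp => PP_pos hp]
  simp

end basic

end Pool.Agent.U585.RM
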